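import Mathlib
set_option autoImplicit false

/-! Traces of powers of symmetric integer matrices. -/

namespace Pool.Agent.K4H93.CY

open Finset Matrix Filter Topology

theorem trace_pow_herm {σ : Type} [Fintype σ] [DecidableEq σ] (A : Matrix σ σ ℝ)
    (hA : A.IsHermitian) (n : ℕ) : (A ^ n).trace = ∑ i, (hA.eigenvalues i) ^ n := by
  conv_lhs => rw [hA.spectral_theorem, ← map_pow, Unitary.conjStarAlgAut_apply,
    Matrix.trace_mul_cycle]
  rw [Unitary.coe_star_mul_self, one_mul, Matrix.diagonal_pow, Matrix.trace_diagonal]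
  rfl

/-- exponential sums with positive bases -/
theorem exp_sum_ne (P : Finset ℝ) (hP : ∀ μ ∈ P, 0 < μ) (c : ℝ → ℝ) (hc : ∃ μ ∈ P, c μ ≠ 0) :
    ∃ N : ℕ, ∀ n, N ≤ n → ∑ μ ∈ P, c μ * μ ^ n ≠ 0 := by
  classical
  let Q := P.filter fun μ => c μ ≠ 0
  have hQ : Q.Nonempty := by
    obtain ⟨μ, h1, h2⟩ := hc
    exact ⟨μ, mem_filter.2 ⟨h1, h2⟩⟩
  obtain ⟨M, hM⟩ : ∃ M, M = Q.max' hQ := ⟨_, rfl⟩
  have hMQ : M ∈ Q := hM ▸ Q.max'_mem hQ
  have hMpos : 0 < M := hP M (mem_filter.1 hMQ).1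
  have hMc : c M ≠ 0 := (mem_filter.1 hMQ).2
  have hlim : Tendsto (fun n : ℕ => ∑ μ ∈ Q, c μ * (μ / M) ^ n) atTop
      (𝓝 (∑ μ ∈ Q, if μ = M then c μ else 0)) := by
    refine tendsto_finsetSum _ fun μ hμ => ?_
    by_cases h : μ = M
    · rw [if_pos h, h, div_self hMpos.ne']
      simp only [one_pow, mul_one]
      exact tendsto_const_nhds
    · rw [if_neg h]
      have h1 : μ ≤ M := hM ▸ Q.le_max' μ hμ
      have h2 : μ < M := lt_of_le_of_ne h1 h
      have h3 : 0 < μ := hP μ (mem_filter.1 hμ).1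
      have h4 := (tendsto_pow_atTop_nhds_zero_of_lt_one (div_nonneg h3.le hMpos.le)
        ((div_lt_one hMpos).2 h2)).const_mul (c μ)
      rwa [mul_zero] at h4
  have hval : (∑ μ ∈ Q, if μ = M then c μ else 0) = c M := by
    rw [Finset.sum_ite_eq' Q M c, if_pos hMQ]
  rw [hval] at hlim
  obtain ⟨N, hN⟩ := eventually_atTop.1 (hlim.eventually_ne hMc)
  refine ⟨N, fun n hn => ?_⟩
  have h1 : ∑ μ ∈ P, c μ * μ ^ n = M ^ n * ∑ μ ∈ Q, c μ * (μ / M) ^ n := by
    have h2 : ∑ μ ∈ P, c μ * μ ^ n = ∑ μ ∈ Q, c μ * μ ^ n := by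
      symm
      refine Finset.sum_subset (filter_subset _ _) fun μ hμ hμQ => ?_
      have h3 : c μ = 0 := by
        by_contra h
        exact hμQ (mem_filter.2 ⟨hμ, h⟩)
      rw [h3, zero_mul]
    rw [h2, Finset.mul_sum]
    refine Finset.sum_congr rfl fun μ _ => ?_
    rw [div_pow]
    field_simp
  rw [h1]
  exact mul_ne_zero (pow_ne_zero n hMpos.ne') (hN n hn)

/-- a symmetric integer matrix: one odd power with nonzero trace is enough -/
theorem symm_trace {σ : Type} [Fintype σ] [DecidableEq σ] (W : Matrix σ σ ℤ) (hW : W.transpose = W)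
    (n₀ : ℕ) (hn₀ : Odd n₀) (hne : (W ^ n₀).trace ≠ 0) :
    ∃ N : ℕ, ∀ n, N ≤ n → (W ^ n).trace ≠ 0 := by
  classical
  let A : Matrix σ σ ℝ := (Int.castRingHom ℝ).mapMatrix W
  have hA : A.IsHermitian := by
    ext i j
    have h1 : W j i = W i j := by
      conv_lhs => rw [← hW]
      rfl
    simp [A, h1]
  have htr : ∀ n : ℕ, (((W ^ n).trace : ℤ) : ℝ) = ∑ i, (hA.eigenvalues i) ^ n := by
    intro n
    rw [← trace_pow_herm A hA n]
    have h1 : A ^ n = (Int.castRingHom ℝ).mapMatrix (W ^ n) := (map_pow _ _ _).symm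
    rw [h1, Matrix.trace, Matrix.trace, Int.cast_sum]
    rfl
  obtain ⟨l, hl⟩ : ∃ l, l = hA.eigenvalues := ⟨_, rfl⟩
  rw [← hl] at htr
  let sg : σ → ℝ := fun i => if 0 ≤ l i then 1 else -1
  have hodd : ∀ (i : σ) (n : ℕ), Odd n → (l i) ^ n = sg i * |l i| ^ n := by
    intro i n hn
    simp only [sg]
    split_ifs with h
    · rw [abs_of_nonneg h, one_mul]
    · rw [abs_of_neg (not_le.1 h), hn.neg_pow, neg_mul_neg, one_mul]
  let P : Finset ℝ := (univ.image fun i => |l i|).erase 0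
  let c : ℝ → ℝ := fun μ => ∑ i ∈ univ.filter (fun i => |l i| = μ), sg i
  have hsum : ∀ n : ℕ, Odd n → (((W ^ n).trace : ℤ) : ℝ) = ∑ μ ∈ P, c μ * μ ^ n := by
    intro n hn
    rw [htr]
    have h1 : ∑ i, (l i) ^ n = ∑ μ ∈ univ.image (fun i => |l i|), c μ * μ ^ n := by
      rw [← Finset.sum_fiberwise_of_maps_to (g := fun i => |l i|)
        (t := univ.image fun i => |l i|) (fun i _ => mem_image_of_mem _ (mem_univ i))]
      refine Finset.sum_congr rfl fun μ _ => ?_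
      simp only [c]
      rw [Finset.sum_mul]
      refine Finset.sum_congr rfl fun i hi => ?_
      rw [hodd i n hn, (mem_filter.1 hi).2]
    rw [h1]
    symm
    refine Finset.sum_subset (erase_subset _ _) fun μ hμ hμ' => ?_
    have h2 : μ = 0 := by
      by_contra h
      exact hμ' (mem_erase.2 ⟨h, hμ⟩)
    rw [h2, zero_pow (by rintro rfl; exact absurd hn (by decide)), mul_zero]
  have hPpos : ∀ μ ∈ P, 0 < μ := by
    intro μ hμ
    obtain ⟨h1, h2⟩ := mem_erase.1 hμ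
    obtain ⟨i, -, hi⟩ := mem_image.1 h2
    rw [← hi] at h1 ⊢
    exact lt_of_le_of_ne (abs_nonneg _) (Ne.symm h1)
  have hc : ∃ μ ∈ P, c μ ≠ 0 := by
    by_contra h
    push Not at h
    apply hne
    have h1 := hsum n₀ hn₀
    rw [Finset.sum_eq_zero (fun μ hμ => by rw [h μ hμ, zero_mul])] at h1
    exact_mod_cast h1
  obtain ⟨N, hN⟩ := exp_sum_ne P hPpos c hc
  refine ⟨N, fun n hn => ?_⟩
  rcases Nat.even_or_odd n with he | ho
  · -- even powers
    intro h0
    have h1 := htr n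
    rw [h0, Int.cast_zero] at h1
    obtain ⟨μ, hμ, -⟩ := hc
    obtain ⟨h2, h3⟩ := mem_erase.1 hμ
    obtain ⟨i, -, hi⟩ := mem_image.1 h3
    have h4 : l i ≠ 0 := fun h => h2 (by rw [← hi, h, abs_zero])
    have h5 : 0 < ∑ i, (l i) ^ n :=
      Finset.sum_pos' (fun j _ => he.pow_nonneg (l j)) ⟨i, mem_univ i, he.pow_pos h4⟩
    linarith
  · intro h0
    have h1 := hsum n ho
    rw [h0, Int.cast_zero] at h1
    exact hN n hn h1.symm

end Pool.Agent.K4H93.CY
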