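import Pool.Agent.K4H93.CY.Circ
import Pool.Agent.K4H93.CY.Real
set_option autoImplicit false

/-! Cartesian products with cycles. -/

namespace Pool.Agent.K4H93.CY

open Finset Pool.Agent.W426.LE
open scoped Classical

section
variable {V E D C : Type}

/-- the incidences of the product with a cycle: the edge `(v, x)` joins `(v, x)` and `(v, x + 1)` -/
def pinc (inc : V → D → E) : V → D ⊕ Bool → (E ⊕ V) × ℤ := fun v q => match q with
  | Sum.inl i => (Sum.inl (inc v i), 0)
  | Sum.inr b => (Sum.inr v, if b = true then 0 else -1)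

variable [Fintype V] [Fintype E] [Fintype D] [Fintype C]

/-- the transfer matrix of the product with a cycle -/
noncomputable def cartW (ρ : D ⊕ Bool ≃ C) (inc : V → D → E) : Matrix (V → C) (V → C) ℤ :=
  fun a b => ∑ z : E → C, ∏ v, sg ρ (Sum.elim (fun i => z (inc v i))
    (fun s => if s = true then a v else b v))

theorem NN_pinc (ρ : D ⊕ Bool ≃ C) (inc : V → D → E) (n : ℕ) [NeZero n] :
    NN ρ (qinc (pinc inc) n) = Matrix.trace (((cartW ρ inc).transpose) ^ n) := by
  obtain ⟨k, rfl⟩ : ∃ k, n = k + 1 := ⟨n - 1, by have := NeZero.ne n; omega⟩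
  rw [trace_pow_eq]
  have h0 : (∑ u : Fin (k + 1) → (V → C), ∏ j : Fin (k + 1), (cartW ρ inc).transpose (u j) (u (j + 1)))
      = ∑ u : ZMod (k + 1) → (V → C), ∏ j : ZMod (k + 1), cartW ρ inc (u (j + 1)) (u j) := rfl
  rw [h0]
  unfold NN
  let ε : ((E ⊕ V) × ZMod (k + 1) → C) ≃
      (ZMod (k + 1) → V → C) × (ZMod (k + 1) → E → C) :=
    { toFun := fun x => (fun j v => x (Sum.inr v, j), fun j e => x (Sum.inl e, j))
      invFun := fun y q => match q.1 with
        | Sum.inl e => y.2 q.2 e
        | Sum.inr v => y.1 q.2 v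
      left_inv := fun x => by
        funext q
        obtain ⟨q, j⟩ := q
        rcases q with q | q <;> rfl
      right_inv := fun y => rfl }
  refine (Finset.sum_congr (s₂ := univ) (by ext x; simp) (fun _ _ => rfl)).trans
    ((ε.symm.sum_comp _).symm.trans ?_)
  rw [Fintype.sum_prod_type]
  refine Finset.sum_congr rfl fun u _ => ?_
  unfold cartW
  have h1 : (∏ j : ZMod (k + 1), ∑ z : E → C, ∏ v, sg ρ (Sum.elim (fun i => z (inc v i))
      (fun s => if s = true then u (j + 1) v else u j v))) =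
      ∑ z : ZMod (k + 1) → (E → C), ∏ j : ZMod (k + 1), ∏ v, sg ρ (Sum.elim (fun i => z j (inc v i))
        (fun s => if s = true then u (j + 1) v else u j v)) := by
    rw [Finset.prod_univ_sum, Fintype.piFinset_univ]
  rw [h1]
  -- shift the colourings of the layers
  let sh : (ZMod (k + 1) → E → C) ≃ (ZMod (k + 1) → E → C) :=
    Equiv.arrowCongr (Equiv.subRight (1 : ZMod (k + 1))) (Equiv.refl _)
  rw [← sh.sum_comp (fun z => ∏ j : ZMod (k + 1), ∏ v, sg ρ (Sum.elim (fun i => z j (inc v i))
        (fun s => if s = true then u (j + 1) v else u j v)))]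
  refine Finset.sum_congr rfl fun z _ => ?_
  rw [Fintype.prod_prod_type_right]
  refine Fintype.prod_equiv (Equiv.subRight (1 : ZMod (k + 1))) _ _ fun j => ?_
  refine Finset.prod_congr rfl fun v _ => ?_
  congr 1
  funext q
  rcases q with i | b
  · exact congrArg (fun t => z t (inc v i))
      (show j + ((0 : ℤ) : ZMod (k + 1)) = (j - 1) + 1 by push_cast; ring)
  · cases b
    · exact congrArg (fun t => u t v)
        (show j + ((-1 : ℤ) : ZMod (k + 1)) = j - 1 by push_cast; ring)
    · exact congrArg (fun t => u t v)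
        (show j + ((0 : ℤ) : ZMod (k + 1)) = (j - 1) + 1 by push_cast; ring)

theorem cartW_swap (ρ : D ⊕ Bool ≃ C) (inc : V → D → E) (a b : V → C) :
    cartW ρ inc b a = (-1) ^ Fintype.card V * cartW ρ inc a b := by
  unfold cartW
  rw [Finset.mul_sum]
  refine Finset.sum_congr rfl fun z _ => ?_
  rw [← Finset.card_univ, ← Finset.prod_const, ← Finset.prod_mul_distrib]
  refine Finset.prod_congr rfl fun v _ => ?_
  have h1 := sg_comp_perm ρ (Sum.elim (fun i => z (inc v i)) (fun s => if s = true then a v else b v))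
    (Equiv.sumCongr (Equiv.refl D) (Equiv.swap false true))
  have h2 : ∀ (i1 : DecidableEq (D ⊕ Bool)), @Equiv.Perm.sign (D ⊕ Bool) i1 _
      (Equiv.sumCongr (Equiv.refl D) (Equiv.swap false true)) = -1 := by
    intro i1
    have h3 := Equiv.Perm.sign_sumCongr (Equiv.refl D : Equiv.Perm D) (Equiv.swap false true)
    rw [Equiv.Perm.sign_refl, one_mul, Equiv.Perm.sign_swap (by decide)] at h3
    rw [← h3]
    have h5 : i1 = instDecidableEqSum := Subsingleton.elim _ _
    subst h5
    rfl
  rw [h2] at h1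
  have h4 : (fun q => (Sum.elim (fun i => z (inc v i)) (fun s => if s = true then a v else b v) :
      D ⊕ Bool → C) ((Equiv.sumCongr (Equiv.refl D) (Equiv.swap false true)) q)) =
      Sum.elim (fun i => z (inc v i)) (fun s => if s = true then b v else a v) := by
    funext q
    rcases q with i | s
    · rfl
    · cases s
      · show (if (Equiv.swap false true false) = true then a v else b v) = _
        rw [Equiv.swap_apply_left]
        rfl
      · show (if (Equiv.swap false true true) = true then a v else b v) = _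
        rw [Equiv.swap_apply_right]
        rfl
  rw [h4] at h1
  rw [h1]
  norm_num

/-- products with cycles: one odd cycle is enough -/
theorem NN_cart (ρ : D ⊕ Bool ≃ C) (inc : V → D → E) (n₀ : ℕ) [NeZero n₀] (hn₀ : Odd n₀)
    (hne : NN ρ (qinc (pinc inc) n₀) ≠ 0) :
    ∃ N : ℕ, ∀ (n : ℕ) [NeZero n], N ≤ n → NN ρ (qinc (pinc inc) n) ≠ 0 := by
  rw [NN_pinc] at hne
  rcases Nat.even_or_odd (Fintype.card V) with he | ho
  · have hsymm : ((cartW ρ inc).transpose).transpose = (cartW ρ inc).transpose := by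
      ext a b
      show cartW ρ inc a b = cartW ρ inc b a
      rw [cartW_swap ρ inc a b, he.neg_one_pow, one_mul]
    obtain ⟨N, hN⟩ := symm_trace _ hsymm n₀ hn₀ hne
    refine ⟨N, fun n _ hn => ?_⟩
    rw [NN_pinc]
    exact hN n hn
  · -- the transfer matrix is skew symmetric
    exfalso
    apply hne
    have hskew : ((cartW ρ inc).transpose).transpose = - (cartW ρ inc).transpose := by
      ext a b
      show cartW ρ inc a b = - cartW ρ inc b a
      rw [cartW_swap ρ inc a b, ho.neg_one_pow]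
      ring
    have h1 : Matrix.trace ((cartW ρ inc).transpose ^ n₀) =
        - Matrix.trace ((cartW ρ inc).transpose ^ n₀) := by
      conv_lhs => rw [← Matrix.trace_transpose, Matrix.transpose_pow, hskew, hn₀.neg_pow,
        Matrix.trace_neg]
    linarith

end

theorem enum_of_inc {V E D C : Type} [Fintype V] [Fintype E] [Fintype D] [Fintype C] {d : ℕ}
    (hd : Fintype.card D = d) (ρ : D ≃ C) (inc : V → D → E)
    (hends : ∀ e, Nat.card {q : V × D // inc q.1 q.2 = e} = 2) (hs : SimpleInc inc) :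
    ∃ inc' : V → Fin d → (igraph inc).edgeSet, Enum (igraph inc) inc' ∧ sN inc' = NN ρ inc := by
  obtain ⟨ψ, h1, h2⟩ := exists_psi inc hends hs.1 hs.2
  have := Fintype.ofFinite (igraph inc).edgeSet
  let l : Fin d ≃ D := (Fintype.equivFinOfCardEq hd).symm
  refine ⟨fun v i => ψ (inc v (l i)), ⟨?_, ?_⟩, ?_⟩
  · intro v i j hij
    exact l.injective (hs.1 v (ψ.injective hij))
  · intro v e
    constructor
    · intro he
      obtain ⟨i, hi⟩ := h2 v (ψ.symm e) (by rwa [Equiv.apply_symm_apply])
      refine ⟨l.symm i, ?_⟩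
      show ψ (inc v (l (l.symm i))) = e
      rw [Equiv.apply_symm_apply, hi, Equiv.apply_symm_apply]
    · rintro ⟨i, rfl⟩
      exact h1 v (l i)
  · rw [sN_eq, NN_equiv (Equiv.refl (Fin d)) (Equiv.refl V) ψ (fun v i => inc v (l i)) _
      (fun v i => rfl), NN_fin ρ inc l]

theorem ATC_iff {V E D C : Type} [Fintype V] [Fintype E] [Fintype D] [Fintype C] {d : ℕ}
    (hd : Fintype.card D = d) (ρ : D ≃ C) (inc : V → D → E)
    (hends : ∀ e, Nat.card {q : V × D // inc q.1 q.2 = e} = 2) (hs : SimpleInc inc) :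
    ATC (igraph inc) d ↔ NN ρ inc ≠ 0 := by
  obtain ⟨inc', h1, h2⟩ := enum_of_inc hd ρ inc hends hs
  constructor
  · rintro ⟨inc'', h3, h4⟩
    rw [← h2]
    exact ATC_indep _ inc'' inc' h3 h1 h4
  · intro h
    exact ⟨inc', h1, by rwa [h2]⟩

theorem pinc_ends {V E D : Type} (inc : V → D → E)
    (hends : ∀ e, Nat.card {q : V × D // inc q.1 q.2 = e} = 2) (e : E ⊕ V) :
    Nat.card {q : V × (D ⊕ Bool) // (pinc inc q.1 q.2).1 = e} = 2 := by
  rcases e with e | w
  · rw [← hends e]
    refine Nat.card_congr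
      { toFun := fun q => match q with
          | ⟨(v, Sum.inl i), h⟩ => ⟨(v, i), Sum.inl_injective h⟩
          | ⟨(v, Sum.inr b), h⟩ => absurd h (by intro h; cases h)
        invFun := fun q => ⟨(q.1.1, Sum.inl q.1.2), congrArg Sum.inl q.2⟩
        left_inv := ?_
        right_inv := ?_ }
    · rintro ⟨⟨v, i | b⟩, h⟩
      · rfl
      · cases h
    · rintro ⟨⟨v, i⟩, h⟩
      rfl
  · have h1 : Nat.card {q : V × (D ⊕ Bool) // (pinc inc q.1 q.2).1 = Sum.inr w} = Nat.card Bool := by
      refine Nat.card_congr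
        { toFun := fun q => match q with
            | ⟨(v, Sum.inl i), h⟩ => absurd h (by intro h; cases h)
            | ⟨(v, Sum.inr b), h⟩ => b
          invFun := fun b => ⟨(w, Sum.inr b), rfl⟩
          left_inv := ?_
          right_inv := ?_ }
      · rintro ⟨⟨v, i | b⟩, h⟩
        · cases h
        · have h2 : v = w := Sum.inr_injective h
          subst h2
          rfl
      · intro b
        rfl
    rw [h1, Nat.card_eq_fintype_card, Fintype.card_bool]

section graph

variable {V : Type} {d : ℕ} (G : SimpleGraph V) (inc : V → Fin d → G.edgeSet) (h : Enum G inc)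

include h in
theorem pinc_simple (k : ℕ) : SimpleInc (qinc (pinc inc) (k + 3)) := by
  have h1 : (1 : ZMod (k + 3)) ≠ 0 := by
    have : Fact (1 < k + 3) := ⟨by omega⟩
    exact one_ne_zero
  have h2 : (2 : ZMod (k + 3)) ≠ 0 := by
    intro h
    have h3 : ((2 : ℕ) : ZMod (k + 3)) = 0 := by exact_mod_cast h
    have h4 := (ZMod.natCast_eq_zero_iff _ _).1 h3
    have h5 := Nat.le_of_dvd (by norm_num) h4
    omega
  -- the common edges of two vertices
  have key : ∀ (v w : V) (x y : ZMod (k + 3)) (q r : Fin d ⊕ Bool), (v, x) ≠ (w, y) →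
      qinc (pinc inc) (k + 3) (v, x) q = qinc (pinc inc) (k + 3) (w, y) r →
      (∃ i, q = Sum.inl i ∧ x = y ∧ v ≠ w ∧ (inc v i : Sym2 V) = s(v, w)) ∨
        (v = w ∧ ((q = Sum.inr true ∧ y = x + 1) ∨ (q = Sum.inr false ∧ y = x - 1))) := by
    intro v w x y q r hne he
    have e1 : (qinc (pinc inc) (k + 3) (v, x) q).1 = (qinc (pinc inc) (k + 3) (w, y) r).1 :=
      congrArg Prod.fst he
    have e2 : (qinc (pinc inc) (k + 3) (v, x) q).2 = (qinc (pinc inc) (k + 3) (w, y) r).2 :=
      congrArg Prod.snd he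
    rcases q with i | b <;> rcases r with j | c
    · left
      have f1 : inc v i = inc w j := Sum.inl_injective e1
      have f2 : x + ((0 : ℤ) : ZMod (k + 3)) = y + ((0 : ℤ) : ZMod (k + 3)) := e2
      have f3 : x = y := add_right_cancel f2
      have f4 : v ≠ w := fun hvw => hne (by rw [hvw, f3])
      refine ⟨i, rfl, f3, f4, ?_⟩
      exact (Sym2.mem_and_mem_iff f4).1 ⟨(h.2 v _).2 ⟨i, rfl⟩, (h.2 w _).2 ⟨j, f1.symm⟩⟩
    · cases e1
    · cases e1
    · right
      have f1 : v = w := Sum.inr_injective e1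
      refine ⟨f1, ?_⟩
      have f2 : x + (((if b = true then (0 : ℤ) else -1) : ℤ) : ZMod (k + 3)) =
        y + (((if c = true then (0 : ℤ) else -1) : ℤ) : ZMod (k + 3)) := e2
      have f3 : x ≠ y := fun hxy => hne (by rw [f1, hxy])
      cases b <;> cases c
      · exact (f3 (add_right_cancel f2)).elim
      · right
        refine ⟨rfl, ?_⟩
        simp at f2
        rw [← f2]
        ring
      · left
        refine ⟨rfl, ?_⟩
        simp at f2
        rw [f2]
        ring
      · exact (f3 (add_right_cancel f2)).elim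
  refine ⟨?_, ?_⟩
  · rintro ⟨v, x⟩ q r he
    have e1 : (qinc (pinc inc) (k + 3) (v, x) q).1 = (qinc (pinc inc) (k + 3) (v, x) r).1 :=
      congrArg Prod.fst he
    have e2 : (qinc (pinc inc) (k + 3) (v, x) q).2 = (qinc (pinc inc) (k + 3) (v, x) r).2 :=
      congrArg Prod.snd he
    rcases q with i | b <;> rcases r with j | c
    · rw [h.1 v (Sum.inl_injective e1)]
    · cases e1
    · cases e1
    · have f2 : x + (((if b = true then (0 : ℤ) else -1) : ℤ) : ZMod (k + 3)) =
        x + (((if c = true then (0 : ℤ) else -1) : ℤ) : ZMod (k + 3)) := e2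
      have f3 := add_left_cancel f2
      cases b <;> cases c
      · rfl
      · simp at f3
        exact (h1 f3).elim
      · simp at f3
        exact (h1 f3).elim
      · rfl
  · rintro ⟨v, x⟩ ⟨w, y⟩ q q' r r' hne he he'
    rcases key v w x y q r hne he with ⟨i, rfl, f1, f2, f3⟩ | ⟨f1, ⟨rfl, f2⟩ | ⟨rfl, f2⟩⟩
    · rcases key v w x y q' r' hne he' with ⟨i', rfl, g1, g2, g3⟩ | ⟨g1, -⟩
      · rw [h.1 v (Subtype.ext (f3.trans g3.symm))]
      · exact (f2 g1).elim
    · rcases key v w x y q' r' hne he' with ⟨i', rfl, g1, g2, g3⟩ | ⟨g1, ⟨rfl, g2⟩ | ⟨rfl, g2⟩⟩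
      · exact (g2 f1).elim
      · rfl
      · exfalso
        apply h2
        linear_combination g2 - f2
    · rcases key v w x y q' r' hne he' with ⟨i', rfl, g1, g2, g3⟩ | ⟨g1, ⟨rfl, g2⟩ | ⟨rfl, g2⟩⟩
      · exact (g2 f1).elim
      · exfalso
        apply h2
        linear_combination f2 - g2
      · rfl

include h in
theorem pinc_iso (k : ℕ) :
    Nonempty (igraph (qinc (pinc inc) (k + 3)) ≃g G.boxProd (SimpleGraph.cycleGraph (k + 3))) := by
  refine ⟨⟨Equiv.refl (V × Fin (k + 3)), ?_⟩⟩
  rintro ⟨v, x⟩ ⟨w, y⟩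
  show (G.boxProd (SimpleGraph.cycleGraph (k + 3))).Adj (v, x) (w, y) ↔
    (igraph (qinc (pinc inc) (k + 3))).Adj (v, x) (w, y)
  rw [SimpleGraph.boxProd_adj, SimpleGraph.cycleGraph_adj, igraph_adj]
  change ZMod (k + 3) at x y
  have h1 : (1 : ZMod (k + 3)) ≠ 0 := by
    have : Fact (1 < k + 3) := ⟨by omega⟩
    exact one_ne_zero
  constructor
  · rintro (⟨hadj, hxy⟩ | ⟨hxy, hvw⟩)
    · replace hadj : G.Adj v w := hadj
      replace hxy : x = y := hxy
      subst hxy
      obtain ⟨i, hi⟩ := (h.2 v ⟨s(v, w), hadj⟩).1 (Sym2.mem_mk_left v w)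
      obtain ⟨j, hj⟩ := (h.2 w ⟨s(v, w), hadj⟩).1 (Sym2.mem_mk_right v w)
      refine ⟨fun he => hadj.ne (congrArg Prod.fst he), Sum.inl i, Sum.inl j, ?_⟩
      exact Prod.ext (congrArg Sum.inl (hi.trans hj.symm)) rfl
    · replace hvw : v = w := hvw
      subst hvw
      rcases hxy with hxy | hxy
      · replace hxy : x - y = 1 := hxy
        refine ⟨fun he => h1 ?_, Sum.inr false, Sum.inr true, Prod.ext rfl ?_⟩
        · have h2 : x = y := congrArg Prod.snd he
          rw [← hxy, h2, sub_self]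
        · show x + ((-1 : ℤ) : ZMod (k + 3)) = y + ((0 : ℤ) : ZMod (k + 3))
          push_cast
          linear_combination hxy
      · replace hxy : y - x = 1 := hxy
        refine ⟨fun he => h1 ?_, Sum.inr true, Sum.inr false, Prod.ext rfl ?_⟩
        · have h2 : x = y := congrArg Prod.snd he
          rw [← hxy, h2, sub_self]
        · show x + ((0 : ℤ) : ZMod (k + 3)) = y + ((-1 : ℤ) : ZMod (k + 3))
          push_cast
          linear_combination - hxy
  · rintro ⟨hne, q, r, he⟩
    have e1 : (qinc (pinc inc) (k + 3) (v, x) q).1 = (qinc (pinc inc) (k + 3) (w, y) r).1 :=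
      congrArg Prod.fst he
    have e2 : (qinc (pinc inc) (k + 3) (v, x) q).2 = (qinc (pinc inc) (k + 3) (w, y) r).2 :=
      congrArg Prod.snd he
    rcases q with i | b <;> rcases r with j | c
    · left
      have f1 : inc v i = inc w j := Sum.inl_injective e1
      have f2 : x + ((0 : ℤ) : ZMod (k + 3)) = y + ((0 : ℤ) : ZMod (k + 3)) := e2
      have f3 : x = y := add_right_cancel f2
      have f4 : v ≠ w := fun hvw => hne (by rw [hvw, f3])
      have f5 : (inc v i : Sym2 V) = s(v, w) :=
        (Sym2.mem_and_mem_iff f4).1 ⟨(h.2 v _).2 ⟨i, rfl⟩, (h.2 w _).2 ⟨j, f1.symm⟩⟩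
      refine ⟨?_, f3⟩
      have f6 := (inc v i).2
      rw [f5] at f6
      exact f6
    · cases e1
    · cases e1
    · right
      have f1 : v = w := Sum.inr_injective e1
      have f2 : x + (((if b = true then (0 : ℤ) else -1) : ℤ) : ZMod (k + 3)) =
        y + (((if c = true then (0 : ℤ) else -1) : ℤ) : ZMod (k + 3)) := e2
      have f3 : x ≠ y := fun hxy => hne (by rw [f1, hxy])
      refine ⟨?_, f1⟩
      cases b <;> cases c
      · exact (f3 (add_right_cancel f2)).elim
      · left
        show x - y = 1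
        simp at f2
        rw [← f2]
        ring
      · right
        show y - x = 1
        simp at f2
        rw [f2]
        ring
      · exact (f3 (add_right_cancel f2)).elim

include h in
theorem cart_iff [Fintype V] [Fintype G.edgeSet] (k : ℕ) :
    ATC (G.boxProd (SimpleGraph.cycleGraph (k + 3))) (d + 2) ↔
      NN (Equiv.refl (Fin d ⊕ Bool)) (qinc (pinc inc) (k + 3)) ≠ 0 := by
  obtain ⟨φ⟩ := pinc_iso G inc h k
  have hc : Fintype.card (Fin d ⊕ Bool) = d + 2 := by
    rw [Fintype.card_sum, Fintype.card_fin, Fintype.card_bool]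
  rw [← ATC_iff hc (Equiv.refl _) (qinc (pinc inc) (k + 3))
    (qinc_ends _ (pinc_ends inc (enum_ends G inc h)) (k + 3)) (pinc_simple G inc h k)]
  exact ⟨fun h => ATC_iso φ.symm h, fun h => ATC_iso φ h⟩

/-- one odd cycle is enough -/
theorem cart_ATC [Finite V] (h : Enum G inc) (m : ℕ) (hm : 3 ≤ m) (hodd : Odd m)
    (hAT : ATC (G.boxProd (SimpleGraph.cycleGraph m)) (d + 2)) :
    ∃ N : ℕ, ∀ n, N ≤ n → ATC (G.boxProd (SimpleGraph.cycleGraph n)) (d + 2) := by
  have := Fintype.ofFinite V
  have := Fintype.ofFinite G.edgeSet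
  obtain ⟨k, rfl⟩ : ∃ k, m = k + 3 := ⟨m - 3, by omega⟩
  obtain ⟨N, hN⟩ := NN_cart (Equiv.refl (Fin d ⊕ Bool)) inc (k + 3) hodd
    ((cart_iff G inc h k).1 hAT)
  refine ⟨N + 3, fun n hn => ?_⟩
  obtain ⟨j, rfl⟩ : ∃ j, n = j + 3 := ⟨n - 3, by omega⟩
  exact (cart_iff G inc h j).2 (hN (j + 3) (by omega))

end graph

end Pool.Agent.K4H93.CY
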