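import Pool.Agent.K4H93.CY.Cpl
import Pool.Agent.TH378.LCClass
set_option autoImplicit false

/-! Circulant graphs. -/

namespace Pool.Agent.K4H93.CY

open Finset Pool.Agent.W426.LE Pool.Agent.TH378.LC
open scoped Classical

/-- incidences given by a 1-factorization -/
theorem NN_family {V E : Type} [Fintype V] [Fintype E] {d : ℕ} (f : Fin d → V → V)
    (inc : V → Fin d → E) (h : ∀ v w i j, inc v i = inc w j ↔ i = j ∧ (w = v ∨ w = f i v))
    (hs : ∀ e, ∃ v i, inc v i = e) : NN (Equiv.refl (Fin d)) inc = AT f := by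
  symm
  unfold AT NN
  choose ve ie hve using hs
  let X : (V → Equiv.Perm (Fin d)) → E → Fin d := fun σ e => σ (ve e) (ie e)
  have hX : ∀ σ, Cons f σ → ∀ v i, X σ (inc v i) = σ v i := by
    intro σ hσ v i
    obtain ⟨h1, h2⟩ := (h _ _ _ _).1 (hve (inc v i))
    show σ (ve (inc v i)) (ie (inc v i)) = σ v i
    rw [h1]
    rcases h2 with h2 | h2
    · rw [← h2]
    · have h3 := hσ (ve (inc v i)) (ie (inc v i))
      rw [← h2, h1] at h3
      exact h3.symm
  refine Finset.sum_of_injOn X ?_ ?_ ?_ ?_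
  · intro σ hσ σ' hσ' hh
    have hσ := (Finset.mem_filter.1 (Finset.mem_coe.1 hσ)).2
    have hσ' := (Finset.mem_filter.1 (Finset.mem_coe.1 hσ')).2
    funext v
    ext i
    rw [← hX σ hσ, ← hX σ' hσ', hh]
  · intro σ _
    simp
  · intro x _ hx
    by_contra hne0
    apply hx
    have hb : ∀ v, Function.Bijective (fun i => x (inc v i)) := by
      intro v
      by_contra hb
      exact hne0 (Finset.prod_eq_zero (Finset.mem_univ v) (sg_of_not _ _ hb))
    let σ : V → Equiv.Perm (Fin d) := fun v => Equiv.ofBijective _ (hb v)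
    have hσ : Cons f σ := by
      intro v i
      show x (inc (f i v) i) = x (inc v i)
      rw [(h v (f i v) i i).2 ⟨rfl, Or.inr rfl⟩]
    refine ⟨σ, by simpa using hσ, ?_⟩
    funext e
    show x (inc (ve e) (ie e)) = x e
    rw [hve]
  · intro σ hσ
    have hσ := (Finset.mem_filter.1 hσ).2
    refine Finset.prod_congr rfl fun v _ => ?_
    have h1 : (fun i => X σ (inc v i)) = (σ v : Fin d → Fin d) := by
      funext i
      exact hX σ hσ v i
    rw [h1, sg_equiv]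
    have hs' : ∀ (i1 i2 : DecidableEq (Fin d)) (τ τ' : Equiv.Perm (Fin d)), τ = τ' →
        ((@Equiv.Perm.sign _ i1 _ τ : ℤˣ) : ℤ) = ((@Equiv.Perm.sign _ i2 _ τ' : ℤˣ) : ℤ) :=
      fun i1 i2 τ τ' h => by rw [Subsingleton.elim i1 i2, h]
    exact hs' _ _ _ _ (Equiv.ext fun _ => rfl)

theorem four_aux : ∀ a b c e : ZMod 4,
    (![a, b, c, e] : ZMod 4 → ZMod 4) a = 0 → (![a, b, c, e] : ZMod 4 → ZMod 4) b = 1 →
    (![a, b, c, e] : ZMod 4 → ZMod 4) c = 2 → (![a, b, c, e] : ZMod 4 → ZMod 4) e = 3 →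
    a ≠ 0 → b ≠ 1 → c ≠ 2 → e ≠ 3 →
    b = (if (1 : ZMod 4) = a then 0 else 2 - a - 1) ∧ c = (if (2 : ZMod 4) = a then 0 else 2 - a - 2) ∧
      e = (if (3 : ZMod 4) = a then 0 else 2 - a - 3) := by
  decide

/-- a fixed point free involution of four points is determined by one value -/
theorem four_ext (m m' : ZMod 4 → ZMod 4) (h1 : ∀ v, m (m v) = v) (h2 : ∀ v, m v ≠ v)
    (h1' : ∀ v, m' (m' v) = v) (h2' : ∀ v, m' v ≠ v) (h : m 0 = m' 0) : m = m' := by
  have key : ∀ m : ZMod 4 → ZMod 4, m = (![m 0, m 1, m 2, m 3] : ZMod 4 → ZMod 4) := by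
    intro m
    funext v
    change Fin 4 at v
    fin_cases v <;> rfl
  have e1 := four_aux (m 0) (m 1) (m 2) (m 3) (by rw [← key m]; exact h1 0) (by rw [← key m]; exact h1 1)
    (by rw [← key m]; exact h1 2) (by rw [← key m]; exact h1 3) (h2 0) (h2 1) (h2 2) (h2 3)
  have e2 := four_aux (m' 0) (m' 1) (m' 2) (m' 3) (by rw [← key m']; exact h1' 0)
    (by rw [← key m']; exact h1' 1) (by rw [← key m']; exact h1' 2) (by rw [← key m']; exact h1' 3)
    (h2' 0) (h2' 1) (h2' 2) (h2' 3)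
  rw [key m, key m', h, e1.1, e1.2.1, e1.2.2, e2.1, e2.2.1, e2.2.2, h]

/-- four vertices: the 1-factorization is essentially unique -/
theorem uniq_four {d : ℕ} (f : Fin d → Unit × ZMod 4 → Unit × ZMod 4)
    (hinv : ∀ i v, f i (f i v) = v) (hne : ∀ i v, f i v ≠ v) : UNIQ f := by
  intro g hg hc
  have hgne : ∀ i v, g i v ≠ v := by
    intro i v h
    have h1 : Nat.card {j // g j v = v} = 0 := by
      rw [hc v v]
      rw [Nat.card_eq_zero]
      left
      exact ⟨fun j => hne j.1 v j.2⟩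
    rw [Nat.card_eq_zero] at h1
    rcases h1 with h1 | h1
    · exact h1.elim ⟨i, h⟩
    · exact absurd (inferInstance : Finite {j // g j v = v}) (not_finite_iff_infinite.2 h1)
  obtain ⟨π, hπ⟩ := exists_perm_of_card (fun i => f i ((), 0)) (fun i => g i ((), 0))
    (fun m => (hc ((), 0) m).symm)
  refine ⟨π, fun i => ?_⟩
  have hfst : ∀ (F : Unit × ZMod 4 → Unit × ZMod 4) (v : ZMod 4), F ((), v) = ((), (F ((), v)).2) :=
    fun F v => Prod.ext rfl rfl
  have h3 := four_ext (fun v => (g (π i) ((), v)).2) (fun v => (f i ((), v)).2) ?_ ?_ ?_ ?_ ?_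
  · funext ⟨u, v⟩
    rw [hfst (g (π i)) v, hfst (f i) v]
    exact Prod.ext rfl (congrFun h3 v)
  · intro v
    show (g (π i) ((), (g (π i) ((), v)).2)).2 = v
    rw [← hfst (g (π i)) v, hg]
  · intro v h
    exact hgne (π i) ((), v) (by rw [hfst (g (π i)) v]; exact Prod.ext rfl h)
  · intro v
    show (f i ((), (f i ((), v)).2)).2 = v
    rw [← hfst (f i) v, hinv]
  · intro v h
    exact hne i ((), v) (by rw [hfst (f i) v]; exact Prod.ext rfl h)
  · exact congrArg Prod.snd (hπ i)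

/-! ### Circulants -/

/-- the incidences of the circulant graphs: the edge `(s, x)` joins `x` and `x + s` -/
def rinc (S : Finset ℕ) : Unit → ↥S × Bool → ↥S × ℤ := fun _ q =>
  (q.1, if q.2 = true then 0 else - ((q.1 : ℕ) : ℤ))

/-- the position of the edge with the label `b` of the 1-factorization at the vertex `v` -/
def pos4 (r v : ZMod 4) (b : Bool) : ZMod 4 :=
  if (b ^^ (if r = 2 then decide (v = 2 ∨ v = 3) else decide (v = 1 ∨ v = 3))) = true then v
    else v - r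

/-- the 1-factorization -/
def fac4 (r : ZMod 4) (b : Bool) (v : ZMod 4) : ZMod 4 :=
  if (b ^^ decide (v = 1 ∨ v = 3)) = true then v + r else v - r

theorem pos4_spec : ∀ r v w : ZMod 4, ∀ b c : Bool, r ≠ 0 →
    (pos4 r v b = pos4 r w c ↔ b = c ∧ (w = v ∨ w = fac4 r b v)) := by
  decide

theorem fac4_inv : ∀ (r v : ZMod 4) (b : Bool), r ≠ 0 → fac4 r b (fac4 r b v) = v := by
  decide

theorem fac4_ne : ∀ (r v : ZMod 4) (b : Bool), r ≠ 0 → fac4 r b v ≠ v := by
  decide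

theorem pos4_surj : ∀ r x : ZMod 4, r ≠ 0 → ∃ (v : ZMod 4) (b : Bool), pos4 r v b = x := by
  decide

theorem rinc_ends (S : Finset ℕ) (e : ↥S) :
    Nat.card {q : Unit × (↥S × Bool) // (rinc S q.1 q.2).1 = e} = 2 := by
  have h1 : Nat.card {q : Unit × (↥S × Bool) // (rinc S q.1 q.2).1 = e} = Nat.card Bool := by
    refine Nat.card_congr
      { toFun := fun q => q.1.2.2
        invFun := fun b => ⟨((), (e, b)), rfl⟩
        left_inv := ?_
        right_inv := fun b => rfl }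
    rintro ⟨⟨u, s, b⟩, hq⟩
    have h2 : s = e := hq
    subst h2
    rfl
  rw [h1, Nat.card_eq_fintype_card, Fintype.card_bool]

theorem rinc_four (S : Finset ℕ) (hS : ∀ s ∈ S, ¬ 4 ∣ s) :
    NN (Equiv.refl (↥S × Bool)) (qinc (rinc S) 4) ≠ 0 := by
  have hr : ∀ s : ↥S, (((s : ℕ) : ZMod 4)) ≠ 0 := by
    intro s h
    exact hS s s.2 ((ZMod.natCast_eq_zero_iff _ _).1 h)
  -- the enumeration by the 1-factorization
  let inc' : Unit × ZMod 4 → ↥S × Bool → ↥S × ZMod 4 := fun v q =>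
    (q.1, pos4 ((q.1 : ℕ) : ZMod 4) v.2 q.2)
  let π : Unit × ZMod 4 → Equiv.Perm (↥S × Bool) := fun v =>
    { toFun := fun q => (q.1, q.2 ^^ (if ((q.1 : ℕ) : ZMod 4) = 2 then decide (v.2 = 2 ∨ v.2 = 3)
        else decide (v.2 = 1 ∨ v.2 = 3)))
      invFun := fun q => (q.1, q.2 ^^ (if ((q.1 : ℕ) : ZMod 4) = 2 then decide (v.2 = 2 ∨ v.2 = 3)
        else decide (v.2 = 1 ∨ v.2 = 3)))
      left_inv := fun q => Prod.ext rfl (by simp)
      right_inv := fun q => Prod.ext rfl (by simp) }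
  have hπ : ∀ v q, inc' v q = qinc (rinc S) 4 v (π v q) := by
    rintro ⟨u, v⟩ ⟨s, b⟩
    refine Prod.ext rfl ?_
    show pos4 ((s : ℕ) : ZMod 4) v b = v + (((if (b ^^ (if ((s : ℕ) : ZMod 4) = 2 then
      decide (v = 2 ∨ v = 3) else decide (v = 1 ∨ v = 3))) = true then (0 : ℤ) else
        - ((s : ℕ) : ℤ)) : ℤ) : ZMod 4)
    unfold pos4
    split_ifs
    all_goals push_cast
    all_goals ring
  have h1 := NN_perm (Equiv.refl (↥S × Bool)) (qinc (rinc S) 4) inc' π hπ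
  intro h0
  rw [h0, mul_zero] at h1
  -- the signed number of the 1-factorizations
  obtain ⟨d, hd⟩ : ∃ d, Fintype.card (↥S × Bool) = d := ⟨_, rfl⟩
  let l : Fin d ≃ ↥S × Bool := (Fintype.equivFinOfCardEq hd).symm
  let f : Fin d → Unit × ZMod 4 → Unit × ZMod 4 := fun i v =>
    ((), fac4 (((l i).1 : ℕ) : ZMod 4) (l i).2 v.2)
  have h2 := NN_fin (Equiv.refl (↥S × Bool)) inc' l
  rw [h1, NN_family f] at h2
  · obtain ⟨p, hpd, hp⟩ := Nat.exists_infinite_primes (d + 1)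
    rcases Nat.eq_zero_or_pos d with hd0 | hd0
    · -- no edges
      subst hd0
      unfold AT at h2
      have h3 : ∀ σ : Unit × ZMod 4 → Equiv.Perm (Fin 0), Cons f σ := fun σ v i => i.elim0
      rw [Finset.filter_true_of_mem (fun σ _ => h3 σ)] at h2
      simp at h2
    · refine AT_not_dvd f ?_ ?_ hd0 (uniq_four f ?_ ?_) p hp (by omega) (by rw [h2]; exact dvd_zero _)
      all_goals intro i v
      · exact Prod.ext rfl (fac4_inv _ _ _ (hr _))
      · exact fun h => fac4_ne _ _ _ (hr _) (congrArg Prod.snd h)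
      · exact Prod.ext rfl (fac4_inv _ _ _ (hr _))
      · exact fun h => fac4_ne _ _ _ (hr _) (congrArg Prod.snd h)
  · rintro ⟨u, v⟩ ⟨u', w⟩ i j
    show ((l i).1, pos4 (((l i).1 : ℕ) : ZMod 4) v (l i).2) =
      ((l j).1, pos4 (((l j).1 : ℕ) : ZMod 4) w (l j).2) ↔ _
    rw [Prod.mk.injEq]
    constructor
    · rintro ⟨h3, h4⟩
      rw [← h3] at h4
      obtain ⟨h5, h6⟩ := (pos4_spec _ _ _ _ _ (hr _)).1 h4
      refine ⟨l.injective (Prod.ext h3 h5), ?_⟩
      rcases h6 with h6 | h6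
      · exact Or.inl (Prod.ext rfl h6)
      · exact Or.inr (Prod.ext rfl h6)
    · rintro ⟨rfl, h3⟩
      refine ⟨rfl, (pos4_spec _ _ _ _ _ (hr _)).2 ⟨rfl, ?_⟩⟩
      rcases h3 with h3 | h3
      · exact Or.inl (congrArg Prod.snd h3)
      · exact Or.inr (congrArg Prod.snd h3)
  · rintro ⟨s, x⟩
    obtain ⟨v, b, hvb⟩ := pos4_surj ((s : ℕ) : ZMod 4) x (hr s)
    refine ⟨((), v), l.symm (s, b), ?_⟩
    show ((l (l.symm (s, b))).1, pos4 (((l (l.symm (s, b))).1 : ℕ) : ZMod 4) v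
      (l (l.symm (s, b))).2) = (s, x)
    rw [Equiv.apply_symm_apply, hvb]

theorem ATC_igraph {V E D C : Type} [Fintype V] [Fintype E] [Fintype D] [Fintype C] {d : ℕ}
    (hd : Fintype.card D = d) (ρ : D ≃ C) (inc : V → D → E)
    (hends : ∀ e, Nat.card {q : V × D // inc q.1 q.2 = e} = 2) (hs : SimpleInc inc)
    (hN : NN ρ inc ≠ 0) : ATC (igraph inc) d := by
  obtain ⟨ψ, h1, h2⟩ := exists_psi inc hends hs.1 hs.2
  exact ATC_of_psi hd ρ inc _ ψ h1 h2 hs.1 hN

theorem rinc_simple (S : Finset ℕ) (hS : 0 ∉ S) : SimpleInc (qinc (rinc S) 0) := by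
  have hpos : ∀ s : ↥S, (0 : ℤ) < ((s : ℕ) : ℤ) := by
    intro s
    have h1 : (s : ℕ) ≠ 0 := fun h => hS (h ▸ s.2)
    exact_mod_cast Nat.pos_of_ne_zero h1
  have hval : ∀ (x : ℤ) (q : ↥S × Bool), qinc (rinc S) 0 ((), x) q =
      ((q.1, x + (if q.2 = true then 0 else - ((q.1 : ℕ) : ℤ))) : ↥S × ℤ) := by
    intro x q
    exact Prod.ext rfl rfl
  refine ⟨?_, ?_⟩
  · rintro ⟨u, x⟩ ⟨s, b⟩ ⟨s', b'⟩ h
    change ℤ at x
    rw [hval, hval] at h
    have e1 : s = s' := congrArg Prod.fst h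
    subst e1
    have e2 : x + (if b = true then (0 : ℤ) else - ((s : ℕ) : ℤ)) =
      x + (if b' = true then (0 : ℤ) else - ((s : ℕ) : ℤ)) := congrArg Prod.snd h
    have h1 := hpos s
    cases b <;> cases b' <;> simp at e2 ⊢ <;> omega
  · rintro ⟨u, x⟩ ⟨u', y⟩ ⟨s, b⟩ ⟨s', b'⟩ ⟨r, c⟩ ⟨r', c'⟩ hne h h'
    change ℤ at x y
    rw [hval, hval] at h h'
    have e1 : s = r := congrArg Prod.fst h
    have e1' : s' = r' := congrArg Prod.fst h'
    subst e1 e1'
    have e2 : x + (if b = true then (0 : ℤ) else - ((s : ℕ) : ℤ)) =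
      y + (if c = true then (0 : ℤ) else - ((s : ℕ) : ℤ)) := congrArg Prod.snd h
    have e2' : x + (if b' = true then (0 : ℤ) else - ((s' : ℕ) : ℤ)) =
      y + (if c' = true then (0 : ℤ) else - ((s' : ℕ) : ℤ)) := congrArg Prod.snd h'
    have h1 := hpos s
    have h1' := hpos s'
    have hxy : x ≠ y := fun hxy => hne (by rw [hxy])
    have hb : b = b' := by
      cases b <;> cases b' <;> cases c <;> cases c' <;> simp at e2 e2' ⊢ <;> omega
    subst hb
    have hs : ((s : ℕ) : ℤ) = ((s' : ℕ) : ℤ) := by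
      cases b <;> cases c <;> cases c' <;> simp at e2 e2' <;> omega
    have hs' : s = s' := Subtype.ext (by exact_mod_cast hs)
    rw [hs']

theorem rinc_iso (S : Finset ℕ) (n : ℕ) :
    Nonempty (igraph (qinc (rinc S) n) ≃g
      SimpleGraph.circulantGraph ((fun s : ℕ => (s : ZMod n)) '' (S : Set ℕ))) := by
  refine ⟨⟨Equiv.punitProd (ZMod n), ?_⟩⟩
  rintro ⟨u, x⟩ ⟨u', y⟩
  show (SimpleGraph.circulantGraph ((fun s : ℕ => (s : ZMod n)) '' (S : Set ℕ))).Adj x y ↔ _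
  rw [SimpleGraph.circulantGraph, SimpleGraph.fromRel_adj, igraph_adj]
  have hne : x ≠ y ↔ ((u, x) : Unit × ZMod n) ≠ (u', y) :=
    ⟨fun h h' => h (congrArg Prod.snd h'), fun h h' => h (by rw [h'])⟩
  rw [hne]
  refine and_congr_right fun hxy => ?_
  constructor
  · rintro (⟨s, hs, h⟩ | ⟨s, hs, h⟩)
    · refine ⟨(⟨s, hs⟩, false), (⟨s, hs⟩, true), Prod.ext rfl ?_⟩
      show x + ((- ((s : ℕ) : ℤ) : ℤ) : ZMod n) = y + ((0 : ℤ) : ZMod n)
      replace h : (s : ZMod n) = x - y := h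
      push_cast
      rw [h]
      ring
    · refine ⟨(⟨s, hs⟩, true), (⟨s, hs⟩, false), Prod.ext rfl ?_⟩
      show x + ((0 : ℤ) : ZMod n) = y + ((- ((s : ℕ) : ℤ) : ℤ) : ZMod n)
      replace h : (s : ZMod n) = y - x := h
      push_cast
      rw [h]
      ring
  · rintro ⟨⟨s, b⟩, ⟨s', b'⟩, h⟩
    have e1 : (qinc (rinc S) n (u, x) (s, b)).1 = (qinc (rinc S) n (u', y) (s', b')).1 :=
      congrArg Prod.fst h
    replace e1 : s = s' := e1
    subst e1
    have e2 : x + (((if b = true then (0 : ℤ) else - ((s : ℕ) : ℤ)) : ℤ) : ZMod n) =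
      y + (((if b' = true then (0 : ℤ) else - ((s : ℕ) : ℤ)) : ℤ) : ZMod n) := congrArg Prod.snd h
    cases b <;> cases b'
    · exact (hxy (Prod.ext rfl (add_right_cancel e2))).elim
    · left
      refine ⟨s, s.2, ?_⟩
      show ((s : ℕ) : ZMod n) = x - y
      simp at e2
      rw [← e2]
      ring
    · right
      refine ⟨s, s.2, ?_⟩
      show ((s : ℕ) : ZMod n) = y - x
      simp at e2
      rw [e2]
      ring
    · exact (hxy (Prod.ext rfl (add_right_cancel e2))).elim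

/-- circulant graphs without multiples of four -/
theorem circulant_ATC (S : Finset ℕ) (hS : ∀ s ∈ S, ¬ 4 ∣ s) :
    ∃ M N : ℕ, 1 ≤ M ∧ ∀ (n : ℕ) [NeZero n], N ≤ n → n ≡ 4 [MOD M] →
      ATC (SimpleGraph.circulantGraph ((fun s : ℕ => (s : ZMod n)) '' (S : Set ℕ))) (2 * S.card) := by
  obtain ⟨M, hM, h⟩ := NN_progression (Equiv.refl (↥S × Bool)) (rinc S) 4 (rinc_four S hS)
  obtain ⟨N, hN⟩ := simple_large (rinc S) (rinc_simple S (fun h0 => hS 0 h0 (dvd_zero 4)))
  refine ⟨M, N, hM, ?_⟩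
  intro n _ hn hmod
  obtain ⟨φ⟩ := rinc_iso S n
  refine ATC_iso φ (ATC_igraph ?_ (Equiv.refl (↥S × Bool)) _ (qinc_ends _ (rinc_ends S) n)
    (hN n hn) (h n hmod))
  rw [Fintype.card_prod, Fintype.card_bool, Fintype.card_coe, mul_comm]

end Pool.Agent.K4H93.CY
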