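import Pool.Agent.K4H93.CY.Inv
import Pool.Agent.W862.LE.CP
set_option autoImplicit false

/-! Cyclic covers of simple graphs. -/

namespace Pool.Agent.K4H93.CY

open Finset Pool.Agent.W426.LE
open scoped Classical

/-- signed number, without instances -/
noncomputable def sN {V E : Type} {d : ℕ} (inc : V → Fin d → E) : ℤ :=
  ∑ᶠ x : E → Fin d, ∏ᶠ v, sg (Equiv.refl (Fin d)) (fun i => x (inc v i))

theorem sN_eq {V E : Type} {d : ℕ} [Fintype V] [Fintype E] (inc : V → Fin d → E) :
    sN inc = NN (Equiv.refl (Fin d)) inc := by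
  unfold sN NN
  rw [finsum_eq_sum_of_fintype]
  exact Finset.sum_congr rfl fun x _ => finprod_eq_prod_of_fintype _

/-- `inc v` enumerates the edges of the graph at the vertex `v` -/
def Enum {V D : Type} (G : SimpleGraph V) (inc : V → D → G.edgeSet) : Prop :=
  (∀ v, Function.Injective (inc v)) ∧ ∀ v (e : G.edgeSet), v ∈ (e : Sym2 V) ↔ ∃ i, inc v i = e

/-- the Alon-Tarsi condition for `d`-regular graphs -/
def ATC {V : Type} (G : SimpleGraph V) (d : ℕ) : Prop :=
  ∃ inc : V → Fin d → G.edgeSet, Enum G inc ∧ sN inc ≠ 0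

theorem enum_ends {V : Type} [Finite V] {d : ℕ} (G : SimpleGraph V) (inc : V → Fin d → G.edgeSet)
    (h : Enum G inc) (e : G.edgeSet) : Nat.card {q : V × Fin d // inc q.1 q.2 = e} = 2 := by
  have := Fintype.ofFinite V
  exact Pool.Agent.W862.LE.natcard_of _ _ _ (Pool.Agent.W15.LEGR.card_two inc G (Equiv.refl _)
    (fun v i => (h.2 v _).2 ⟨i, rfl⟩) (fun v e he => (h.2 v e).1 he) h.1 e)

/-- the condition does not depend on the enumeration -/
theorem ATC_indep {V : Type} [Finite V] {d : ℕ} (G : SimpleGraph V)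
    (inc inc' : V → Fin d → G.edgeSet) (h : Enum G inc) (h' : Enum G inc') (hne : sN inc ≠ 0) :
    sN inc' ≠ 0 := by
  have := Fintype.ofFinite V
  have := Fintype.ofFinite G.edgeSet
  rw [sN_eq] at hne ⊢
  rcases NN_enum (Equiv.refl (Fin d)) inc inc' h.1 h'.1 (fun v i =>
    (h.2 v _).1 ((h'.2 v _).2 ⟨i, rfl⟩)) with h1 | h1
  · rwa [h1]
  · rw [h1]
    exact neg_ne_zero.2 hne

theorem ATC_of_inc {V E : Type} [Finite V] [Finite E] {d : ℕ} (inc : V → Fin d → E)
    (hends : ∀ e, Nat.card {q : V × Fin d // inc q.1 q.2 = e} = 2) (hs : SimpleInc inc) :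
    ∃ inc' : V → Fin d → (igraph inc).edgeSet, Enum (igraph inc) inc' ∧ sN inc' = sN inc := by
  have := Fintype.ofFinite V
  have := Fintype.ofFinite E
  obtain ⟨ψ, h1, h2⟩ := exists_psi inc hends hs.1 hs.2
  have := Fintype.ofFinite (igraph inc).edgeSet
  refine ⟨fun v i => ψ (inc v i), ⟨fun v i j hij => hs.1 v (ψ.injective hij), ?_⟩, ?_⟩
  · intro v e
    constructor
    · intro he
      obtain ⟨i, hi⟩ := h2 v (ψ.symm e) (by rwa [Equiv.apply_symm_apply])
      exact ⟨i, by show ψ (inc v i) = e; rw [hi, Equiv.apply_symm_apply]⟩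
    · rintro ⟨i, rfl⟩
      exact h1 v i
  · rw [sN_eq, sN_eq]
    exact NN_equiv (Equiv.refl (Fin d)) (Equiv.refl V) ψ inc _ (fun v i => rfl)

theorem EL_of_ATC {V : Type} [Finite V] {d : ℕ} (G : SimpleGraph V) (h : ATC G d) :
    EL.EL G d := by
  have := Fintype.ofFinite V
  have := Fintype.ofFinite G.edgeSet
  obtain ⟨inc, h1, h2⟩ := h
  rw [sN_eq] at h2
  have h3 := EL.sGRE V G.edgeSet (Fin d) (Fin d) (Equiv.refl _) inc G (Equiv.refl _)
    (fun v i => (h1.2 v _).2 ⟨i, rfl⟩) (fun v e he => (h1.2 v e).1 he) h1.1 h2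
  rwa [Fintype.card_fin] at h3

/-- The `n`-fold cyclic cover of the graph `G` with the voltages `α`. -/
def cyclicCover {V : Type} (G : SimpleGraph V) (α : V → V → ℤ) (n : ℕ) :
    SimpleGraph (V × ZMod n) :=
  SimpleGraph.fromRel fun x y => G.Adj x.1 y.1 ∧ y.2 = x.2 + ((α x.1 y.1 : ℤ) : ZMod n)

section cover

variable {V : Type} {d : ℕ} (G : SimpleGraph V) (α : V → V → ℤ)

/-- the periodic incidences of the covers -/
noncomputable def cinc (inc : V → Fin d → G.edgeSet) : V → Fin d → G.edgeSet × ℤ := fun v i =>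
  (inc v i, if v = (Quot.out (inc v i : Sym2 V)).1 then 0 else
    α v (Quot.out (inc v i : Sym2 V)).1)

variable (hα : ∀ v w, α v w = - α w v)

theorem cinc_ne (inc : V → Fin d → G.edgeSet) (h : Enum G inc) (n : ℕ) (v w : V) (x y : ZMod n)
    (i j : Fin d) (hne : (v, x) ≠ (w, y))
    (he : qinc (cinc G α inc) n (v, x) i = qinc (cinc G α inc) n (w, y) j) :
    v ≠ w ∧ (inc v i : Sym2 V) = s(v, w) := by
  have e1 : (qinc (cinc G α inc) n (v, x) i).1 = (qinc (cinc G α inc) n (w, y) j).1 :=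
    congrArg Prod.fst he
  replace e1 : inc v i = inc w j := e1
  have e2 := congrArg Prod.snd he
  have hvw : v ≠ w := by
    rintro rfl
    have hij := h.1 v e1
    subst hij
    apply hne
    have e3 : x = y := add_right_cancel e2
    rw [e3]
  refine ⟨hvw, ?_⟩
  have h1 : v ∈ (inc v i : Sym2 V) := (h.2 v _).2 ⟨i, rfl⟩
  have h2 : w ∈ (inc v i : Sym2 V) := (h.2 w _).2 ⟨j, e1.symm⟩
  exact ((Sym2.mem_and_mem_iff hvw).1 ⟨h1, h2⟩)

theorem cinc_simple (inc : V → Fin d → G.edgeSet) (h : Enum G inc) (n : ℕ) :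
    SimpleInc (qinc (cinc G α inc) n) := by
  refine ⟨?_, ?_⟩
  · rintro ⟨v, x⟩ i i' hii
    have e1 : (qinc (cinc G α inc) n (v, x) i).1 = (qinc (cinc G α inc) n (v, x) i').1 :=
      congrArg Prod.fst hii
    exact h.1 v e1
  · rintro ⟨v, x⟩ ⟨w, y⟩ i i' j j' hne h1 h2
    have h3 := (cinc_ne G α inc h n v w x y i j hne h1).2
    have h4 := (cinc_ne G α inc h n v w x y i' j' hne h2).2
    exact h.1 v (Subtype.ext (h3.trans h4.symm))

include hα in
theorem igraph_cover (inc : V → Fin d → G.edgeSet) (h : Enum G inc) (n : ℕ) :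
    igraph (qinc (cinc G α inc) n) = cyclicCover G α n := by
  ext ⟨v, x⟩ ⟨w, y⟩
  rw [igraph_adj, cyclicCover, SimpleGraph.fromRel_adj]
  -- the condition for an edge `s(v, w)`
  have key : ∀ i j, v ≠ w → (inc v i : Sym2 V) = s(v, w) → inc v i = inc w j →
      (x + (((cinc G α inc v i).2 : ℤ) : ZMod n) = y + (((cinc G α inc w j).2 : ℤ) : ZMod n) ↔
        y = x + ((α v w : ℤ) : ZMod n)) := by
    intro i j hvw hs hij
    have hs' : (inc w j : Sym2 V) = s(v, w) := by rw [← hij, hs]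
    have ho : s((Quot.out s(v, w)).1, (Quot.out s(v, w)).2) = s(v, w) := Quot.out_eq _
    have hv : (cinc G α inc v i).2 = if v = (Quot.out s(v, w)).1 then 0 else
        α v (Quot.out s(v, w)).1 := by
      show (if v = (Quot.out (inc v i : Sym2 V)).1 then 0 else
        α v (Quot.out (inc v i : Sym2 V)).1) = _
      rw [hs]
    have hw : (cinc G α inc w j).2 = if w = (Quot.out s(v, w)).1 then 0 else
        α w (Quot.out s(v, w)).1 := by
      show (if w = (Quot.out (inc w j : Sym2 V)).1 then 0 else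
        α w (Quot.out (inc w j : Sym2 V)).1) = _
      rw [hs']
    rw [hv, hw]
    rw [Sym2.eq_iff] at ho
    rcases ho with ⟨h1, h2⟩ | ⟨h1, h2⟩
    · rw [h1, if_pos rfl, if_neg hvw.symm, hα w v]
      push_cast
      constructor
      · intro h3
        linear_combination - h3
      · intro h3
        linear_combination - h3
    · rw [h1, if_neg hvw, if_pos rfl]
      push_cast
      constructor
      · intro h3
        linear_combination - h3
      · intro h3
        linear_combination - h3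
  constructor
  · rintro ⟨hne, i, j, hij⟩
    obtain ⟨hvw, hs⟩ := cinc_ne G α inc h n v w x y i j hne hij
    refine ⟨hne, Or.inl ⟨?_, ?_⟩⟩
    · have h1 := (inc v i).2
      rw [hs] at h1
      exact h1
    · have e1 : (qinc (cinc G α inc) n (v, x) i).1 = (qinc (cinc G α inc) n (w, y) j).1 :=
        congrArg Prod.fst hij
      exact (key i j hvw hs e1).1 (congrArg Prod.snd hij)
  · rintro ⟨hne, h1⟩
    have h2 : G.Adj v w ∧ y = x + ((α v w : ℤ) : ZMod n) := by
      rcases h1 with ⟨h1, h2⟩ | ⟨h1, h2⟩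
      · exact ⟨h1, h2⟩
      · refine ⟨h1.symm, ?_⟩
        replace h2 : x = y + ((α w v : ℤ) : ZMod n) := h2
        rw [h2, hα w v]
        push_cast
        ring
    obtain ⟨hadj, hy⟩ := h2
    refine ⟨hne, ?_⟩
    obtain ⟨i, hi⟩ := (h.2 v ⟨s(v, w), hadj⟩).1 (Sym2.mem_mk_left v w)
    obtain ⟨j, hj⟩ := (h.2 w ⟨s(v, w), hadj⟩).1 (Sym2.mem_mk_right v w)
    refine ⟨i, j, Prod.ext (hi.trans hj.symm) ?_⟩
    exact (key i j hadj.ne (by rw [hi]) (hi.trans hj.symm)).2 hy

/-- the incidences of the cover and the enumerations of the cover -/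
theorem cover_enum [Finite V] (inc : V → Fin d → G.edgeSet) (h : Enum G inc) (hα : ∀ v w, α v w = - α w v)
    (n : ℕ) [NeZero n] :
    ∃ inc' : V × ZMod n → Fin d → (cyclicCover G α n).edgeSet, Enum (cyclicCover G α n) inc' ∧
      sN inc' = sN (qinc (cinc G α inc) n) := by
  rw [← igraph_cover G α hα inc h n]
  exact ATC_of_inc _ (qinc_ends _ (fun e => enum_ends G inc h e) n) (cinc_simple G α inc h n)

theorem cover_ATC [Finite V] (inc : V → Fin d → G.edgeSet) (h : Enum G inc) (hα : ∀ v w, α v w = - α w v)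
    (n : ℕ) [NeZero n] : ATC (cyclicCover G α n) d ↔ sN (qinc (cinc G α inc) n) ≠ 0 := by
  obtain ⟨inc', h1, h2⟩ := cover_enum G α inc h hα n
  constructor
  · rintro ⟨inc'', h3, h4⟩
    rw [← h2]
    exact ATC_indep _ inc'' inc' h3 h1 h4
  · intro h3
    exact ⟨inc', h1, by rwa [h2]⟩

theorem sN_one {V E : Type} [Finite V] [Finite E] {d : ℕ} (inc : V → Fin d → E × ℤ) :
    sN (qinc inc 1) = sN (fun v i => (inc v i).1) := by
  have := Fintype.ofFinite V
  have := Fintype.ofFinite E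
  rw [sN_eq, sN_eq]
  refine NN_equiv (Equiv.refl (Fin d)) (Equiv.prodUnique V (ZMod 1)).symm
    (Equiv.prodUnique E (ZMod 1)).symm (fun v i => (inc v i).1) _ ?_
  intro v i
  refine Prod.ext rfl ?_
  exact Subsingleton.elim _ _

end cover

end Pool.Agent.K4H93.CY
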