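import Pool.Agent.K4H93.CY.Cover
import Pool.Agent.W493.LE.GK
set_option autoImplicit false

/-! The Alon-Tarsi condition for complete graphs. -/

namespace Pool.Agent.K4H93.CY

open Finset Pool.Agent.W426.LE
open scoped Classical

theorem ATC_of_psi {V E D C : Type} [Fintype V] [Fintype E] [Fintype D] [Fintype C] {d : ℕ}
    (hd : Fintype.card D = d) (ρ : D ≃ C) (inc : V → D → E) (G : SimpleGraph V)
    (ψ : E ≃ G.edgeSet) (h1 : ∀ v i, v ∈ (ψ (inc v i) : Sym2 V))
    (h2 : ∀ v e, v ∈ (ψ e : Sym2 V) → ∃ i, inc v i = e) (h3 : ∀ v, Function.Injective (inc v))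
    (hN : NN ρ inc ≠ 0) : ATC G d := by
  have := Fintype.ofFinite G.edgeSet
  let l : Fin d ≃ D := (Fintype.equivFinOfCardEq hd).symm
  refine ⟨fun v i => ψ (inc v (l i)), ⟨?_, ?_⟩, ?_⟩
  · intro v i j hij
    exact l.injective (h3 v (ψ.injective hij))
  · intro v e
    constructor
    · intro he
      obtain ⟨i, hi⟩ := h2 v (ψ.symm e) (by rwa [Equiv.apply_symm_apply])
      refine ⟨l.symm i, ?_⟩
      show ψ (inc v (l (l.symm i))) = e
      rw [Equiv.apply_symm_apply, hi, Equiv.apply_symm_apply]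
    · rintro ⟨i, rfl⟩
      exact h1 v (l i)
  · rw [sN_eq, NN_equiv (Equiv.refl (Fin d)) (Equiv.refl V) ψ (fun v i => inc v (l i)) _
      (fun v i => rfl), NN_fin ρ inc l]
    exact hN

theorem ATC_iso {V W : Type} [Finite V] [Finite W] {d : ℕ} {G : SimpleGraph V} {H : SimpleGraph W}
    (φ : G ≃g H) (h : ATC G d) : ATC H d := by
  have := Fintype.ofFinite V
  have := Fintype.ofFinite W
  have := Fintype.ofFinite G.edgeSet
  have := Fintype.ofFinite H.edgeSet
  obtain ⟨inc, ⟨h1, h2⟩, h3⟩ := h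
  have hmem : ∀ (v : V) (e : G.edgeSet), φ v ∈ (φ.mapEdgeSet e : Sym2 W) ↔ v ∈ (e : Sym2 V) := by
    rintro v ⟨e, he⟩
    show φ v ∈ Sym2.map φ e ↔ v ∈ e
    rw [Sym2.mem_map]
    constructor
    · rintro ⟨a, ha, hav⟩
      rwa [φ.injective hav] at ha
    · intro hv
      exact ⟨v, hv, rfl⟩
  refine ⟨fun w i => φ.mapEdgeSet (inc (φ.symm w) i), ⟨?_, ?_⟩, ?_⟩
  · intro w i j hij
    exact h1 _ (φ.mapEdgeSet.injective hij)
  · intro w e
    obtain ⟨v, rfl⟩ := φ.surjective w
    obtain ⟨e, rfl⟩ := φ.mapEdgeSet.surjective e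
    rw [hmem, h2]
    constructor
    · rintro ⟨i, rfl⟩
      exact ⟨i, by simp⟩
    · rintro ⟨i, hi⟩
      refine ⟨i, ?_⟩
      have h4 := φ.mapEdgeSet.injective hi
      simpa using h4
  · rw [sN_eq] at h3 ⊢
    rw [NN_equiv (Equiv.refl (Fin d)) φ.toEquiv φ.mapEdgeSet inc _ (fun v i => by
      show φ.mapEdgeSet (inc (φ.symm (φ v)) i) = φ.mapEdgeSet (inc v i)
      simp)]
    exact h3

section
open Pool.Agent.W862.LE Pool.Agent.W862.LE.KP Pool.Agent.W862.LE.CP

/-- the complete graph on `p + 1` points -/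
theorem ATC_complete (p : ℕ) (hpp : p.Prime) (hp2 : p ≠ 2) (W : Type) [Finite W]
    (hW : Nat.card W = p + 1) : ATC (⊤ : SimpleGraph W) p := by
  have : Fact p.Prime := ⟨hpp⟩
  have := Fintype.ofFinite W
  have hodd : Odd p := hpp.odd_of_ne_two hp2
  obtain ⟨m, hm⟩ := hodd
  obtain ⟨g, hg'⟩ := Pool.Agent.W337.LE.half p m (hpp.odd_of_ne_two hp2) (univ.erase (0 : ZMod p))
    (fun x hx => mem_erase.2 ⟨neg_ne_zero.2 (mem_erase.1 hx).1, mem_univ _⟩)
    (fun h => (mem_erase.1 h).1 rfl)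
    (by rw [card_erase_of_mem (mem_univ _), Finset.card_univ, ZMod.card]; omega)
  have hset : ((univ.erase (0 : ZMod p) : Finset (ZMod p)) : Set (ZMod p)) = {z | z ≠ 0} := by
    ext z
    simp
  rw [hset] at hg'
  have hg : ∀ i, g i ≠ 0 := by
    intro i
    have h4 := hg'.mapsTo (Set.mem_univ (i, true))
    simpa using h4
  have ρ : Option (Fin m × Bool) ≃ ZMod p := Fintype.equivOfCardEq (by
    simp only [Fintype.card_option, Fintype.card_prod, Fintype.card_bool, Fintype.card_fin,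
      ZMod.card]
    omega)
  let ψ : KE p (Fin m) ≃ (⊤ : SimpleGraph (Option (ZMod p))).edgeSet :=
    Equiv.ofBijective (psi0 g hg) (psi_bij g hg hg')
  have h1 : ∀ v i, v ∈ (ψ (kinc ρ g v i) : Sym2 (Option (ZMod p))) := fun v i => psi_h1 ρ g hg v i
  have h2 : ∀ v e, v ∈ (ψ e : Sym2 (Option (ZMod p))) → ∃ i, kinc ρ g v i = e := fun v e hv =>
    psi_h2 ρ g hg v e hv
  have h3 := psi_h3 ρ g hg
  have hN : NN ρ (kinc ρ g) ≠ 0 := by
    refine kNN ρ g hp2 (fun e => ?_) hg
    exact natcard_of _ _ _ (Pool.Agent.W15.LEGR.card_two (kinc ρ g) _ ψ h1 h2 h3 e)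
  have h5 : ATC (⊤ : SimpleGraph (Option (ZMod p))) p :=
    ATC_of_psi (by
      rw [Fintype.card_option, Fintype.card_prod, Fintype.card_bool, Fintype.card_fin]
      omega) ρ (kinc ρ g) _ ψ h1 h2 h3 hN
  have h7 : Fintype.card (Option (ZMod p)) = Fintype.card W := by
    rw [← Nat.card_eq_fintype_card (α := W), hW, Fintype.card_option, ZMod.card]
  exact ATC_iso (SimpleGraph.Iso.completeGraph (Fintype.equivOfCardEq h7)) h5
end

section
open Pool.Agent.W493.LE.GK

/-- the complete graph on `2 p` points -/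
theorem ATC_complete2 (p : ℕ) (hpp : p.Prime) (hp2 : p ≠ 2) (W : Type) [Finite W]
    (hW : Nat.card W = 2 * p) : ATC (⊤ : SimpleGraph W) (2 * p - 1) := by
  have hF := Fintype.ofFinite W
  have hV : Fintype.card W = 2 * p := by rw [← Nat.card_eq_fintype_card, hW]
  have hH : S_HALF := Pool.Agent.W337.LE.half
  have hE : S_EDGE := Pool.Agent.W337.LE.main
  have hK : S_KK := sKK
  haveI hp : Fact p.Prime := ⟨hpp⟩
  haveI hn0 : NeZero p := ⟨hpp.ne_zero⟩
  have hodd : Odd p := hpp.odd_of_ne_two hp2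
  have hodd' := hodd
  obtain ⟨m, hm⟩ := hodd'
  set S : Finset (ZMod p) := univ.erase 0 with hS
  have hSc : S.card = 2 * m := by
    rw [hS, Finset.card_erase_of_mem (Finset.mem_univ _), Finset.card_univ, ZMod.card]
    omega
  have h0S : (0 : ZMod p) ∉ S := by simp [hS]
  obtain ⟨σ, hσ⟩ := hH p m hodd S (by intro x hx; simpa [hS] using hx) h0S hSc
  have hσ' : Half {z : ZMod p | z ≠ 0} σ := by
    have : ((S : Finset (ZMod p)) : Set (ZMod p)) = {z : ZMod p | z ≠ 0} := by
      ext z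
      simp [hS]
    rwa [this] at hσ
  obtain ⟨ψ, h1, h2, h3⟩ := hE p m hodd S S (univ : Finset (ZMod p)) (fun _ => σ) h0S h0S hσ hσ
  let τ : ZMod p ≃ (univ : Finset (ZMod p)) :=
    (Equiv.subtypeUnivEquiv fun x => Finset.mem_univ x).symm
  have hτ : ∀ t : ZMod p, ((τ t : (univ : Finset (ZMod p))) : ZMod p) = t := fun t => rfl
  have hinc : ∀ (u : ZMod p × Bool) (i : DD (Fin m) (ZMod p)),
      eE p τ (inc (fun _ : Bool => σ) (fun t : ZMod p => t) u i) =
        inc (fun _ : Bool => σ) (fun t : (univ : Finset (ZMod p)) => (t : ZMod p)) u (dE τ i) :=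
    fun u i => inc_change τ (fun _ : Bool => σ)
      (fun t : (univ : Finset (ZMod p)) => (t : ZMod p)) u i
  have ρ : DD (Fin m) (ZMod p) ≃ CC p (Fin (p - 1)) := Fintype.equivOfCardEq (by
    simp only [Fintype.card_sum, Fintype.card_prod, Fintype.card_bool, Fintype.card_fin,
      ZMod.card]
    omega)
  have hNN := hK p hp2 (Fin m) (Fin (p - 1)) σ hσ' ρ
  have hcD : Fintype.card (DD (Fin m) (ZMod p)) = 2 * p - 1 := by
    simp only [Fintype.card_sum, Fintype.card_prod, Fintype.card_bool, Fintype.card_fin,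
      ZMod.card]
    omega
  have hL := ATC_of_psi hcD ρ (inc (fun _ => σ) (fun t : ZMod p => t))
    (BC p S S (univ : Finset (ZMod p))) ((eE p τ).trans ψ) ?_ ?_ ?_ hNN
  · have hBC : BC p S S (univ : Finset (ZMod p)) = ⊤ := by
      ext u v
      unfold BC
      rw [SimpleGraph.fromRel_adj, SimpleGraph.top_adj]
      constructor
      · exact fun h => h.1
      · intro h
        refine ⟨h, ?_⟩
        obtain ⟨x, b⟩ := u
        obtain ⟨y, b'⟩ := v
        have key : b = b' → y - x ∈ S := by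
          intro hb
          subst hb
          rw [hS, Finset.mem_erase]
          refine ⟨?_, Finset.mem_univ _⟩
          rw [sub_ne_zero]
          rintro rfl
          exact h rfl
        cases b <;> cases b'
        · exact Or.inl (Or.inl ⟨rfl, rfl, key rfl⟩)
        · exact Or.inl (Or.inr (Or.inr ⟨rfl, rfl, Finset.mem_univ _⟩))
        · exact Or.inr (Or.inr (Or.inr ⟨rfl, rfl, Finset.mem_univ _⟩))
        · exact Or.inl (Or.inr (Or.inl ⟨rfl, rfl, key rfl⟩))
    rw [hBC] at hL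
    have e : ZMod p × Bool ≃ W := Fintype.equivOfCardEq (by
      rw [Fintype.card_prod, ZMod.card, Fintype.card_bool, hV, mul_comm])
    exact ATC_iso (SimpleGraph.Iso.completeGraph e) hL
  · intro v i
    rw [Equiv.trans_apply, hinc]
    exact h1 v _
  · intro v e he
    rw [Equiv.trans_apply] at he
    obtain ⟨i, hi⟩ := h2 v _ he
    refine ⟨(dE τ).symm i, ?_⟩
    apply (eE p τ).injective
    rw [hinc, Equiv.apply_symm_apply, hi]
  · intro v i j hij
    have h4 := congrArg (eE p τ) hij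
    rw [hinc, hinc] at h4
    exact (dE τ).injective (h3 v h4)
end

end Pool.Agent.K4H93.CY
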