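import Pool.Agent.K4H93.CY.Quot
set_option autoImplicit false

/-! Invariance of the signed numbers. -/

namespace Pool.Agent.K4H93.CY

open Finset Pool.Agent.W426.LE
open scoped Classical

section
variable {V V' E E' D C : Type} [Fintype V] [Fintype V'] [Fintype E] [Fintype E'] [Fintype D]
  [Fintype C]

theorem NN_equiv (ρ : D ≃ C) (eV : V ≃ V') (eE : E ≃ E') (inc : V → D → E) (inc' : V' → D → E')
    (h : ∀ v i, inc' (eV v) i = eE (inc v i)) : NN ρ inc' = NN ρ inc := by
  unfold NN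
  let ε : (E' → C) ≃ (E → C) := Equiv.arrowCongr eE.symm (Equiv.refl C)
  rw [← ε.sum_comp]
  refine Finset.sum_congr rfl fun x _ => ?_
  rw [← eV.prod_comp]
  refine Finset.prod_congr rfl fun v _ => ?_
  congr 1
  funext i
  rw [h]
  rfl

theorem NN_perm (ρ : D ≃ C) (inc inc' : V → D → E) (π : V → Equiv.Perm D)
    (h : ∀ v i, inc' v i = inc v (π v i)) :
    NN ρ inc' = (∏ v, ((Equiv.Perm.sign (π v) : ℤˣ) : ℤ)) * NN ρ inc := by
  unfold NN
  rw [Finset.mul_sum]
  refine Finset.sum_congr rfl fun x _ => ?_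
  rw [← Finset.prod_mul_distrib]
  refine Finset.prod_congr rfl fun v _ => ?_
  rw [← sg_comp_perm]
  congr 1
  funext i
  rw [h]

theorem prod_sign_unit (π : V → Equiv.Perm D) :
    (∏ v, ((Equiv.Perm.sign (π v) : ℤˣ) : ℤ)) = 1 ∨ (∏ v, ((Equiv.Perm.sign (π v) : ℤˣ) : ℤ)) = -1 := by
  have h1 : (∏ v, ((Equiv.Perm.sign (π v) : ℤˣ) : ℤ)) = ((∏ v, Equiv.Perm.sign (π v) : ℤˣ) : ℤ) := by
    rw [Units.coe_prod]
  rw [h1]
  rcases Int.units_eq_one_or (∏ v, Equiv.Perm.sign (π v)) with h | h <;> rw [h] <;> simp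

/-- two enumerations of the same edges at every vertex -/
theorem exists_perm (inc inc' : V → D → E) (hinj : ∀ v, Function.Injective (inc v))
    (hinj' : ∀ v, Function.Injective (inc' v)) (h : ∀ v i, ∃ j, inc v j = inc' v i) :
    ∃ π : V → Equiv.Perm D, ∀ v i, inc' v i = inc v (π v i) := by
  choose f hf using h
  refine ⟨fun v => Equiv.ofBijective (f v) (Finite.injective_iff_bijective.1 ?_), ?_⟩
  · intro i j hij
    apply hinj' v
    rw [← hf, ← hf, hij]
  · intro v i
    exact (hf v i).symm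

theorem NN_enum (ρ : D ≃ C) (inc inc' : V → D → E) (hinj : ∀ v, Function.Injective (inc v))
    (hinj' : ∀ v, Function.Injective (inc' v)) (h : ∀ v i, ∃ j, inc v j = inc' v i) :
    NN ρ inc' = NN ρ inc ∨ NN ρ inc' = - NN ρ inc := by
  obtain ⟨π, hπ⟩ := exists_perm inc inc' hinj hinj' h
  rw [NN_perm ρ inc inc' π hπ]
  rcases prod_sign_unit π with h1 | h1 <;> rw [h1]
  · left; ring
  · right; ring

theorem NN_index {D' : Type} [Fintype D'] (l : D' ≃ D) (ρ : D ≃ C) (inc : V → D → E) :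
    NN (l.trans ρ) (fun v i => inc v (l i)) = NN ρ inc := by
  unfold NN
  refine Finset.sum_congr rfl fun x _ => Finset.prod_congr rfl fun v _ => ?_
  exact sg_comp_equiv ρ (fun i => x (inc v i)) l

theorem sg_color {C' : Type} [Fintype C'] (ρ : D ≃ C) (r : C ≃ C') (f : D → C) :
    sg (ρ.trans r) (fun i => r (f i)) = sg ρ f := by
  by_cases h : Function.Bijective f
  · obtain ⟨e, rfl⟩ := exists_equiv f h
    have h1 : (fun i => r (e i)) = ((e.trans r : D ≃ C') : D → C') := rfl
    rw [h1, sg_equiv, sg_equiv]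
    have h2 : (e.trans r).trans (ρ.trans r).symm = e.trans ρ.symm := by
      ext i
      simp
    rw [h2]
  · have h' : ¬ Function.Bijective (fun i => r (f i)) := fun h2 => h (by
      have h3 := r.symm.bijective.comp h2
      have h4 : (r.symm ∘ fun i => r (f i)) = f := by
        funext i
        simp
      rwa [h4] at h3)
    rw [sg_of_not ρ f h, sg_of_not _ _ h']

theorem NN_color {C' : Type} [Fintype C'] (ρ : D ≃ C) (r : C ≃ C') (inc : V → D → E) :
    NN (ρ.trans r) inc = NN ρ inc := by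
  unfold NN
  let ε : (E → C) ≃ (E → C') := Equiv.arrowCongr (Equiv.refl E) r
  rw [← ε.sum_comp]
  refine Finset.sum_congr rfl fun x _ => Finset.prod_congr rfl fun v _ => ?_
  exact sg_color ρ r (fun i => x (inc v i))

theorem NN_fin (ρ : D ≃ C) (inc : V → D → E) {d : ℕ} (l : Fin d ≃ D) :
    NN (Equiv.refl (Fin d)) (fun v i => inc v (l i)) = NN ρ inc := by
  have h1 := NN_color (l.trans ρ) (l.trans ρ).symm (fun v i => inc v (l i))
  rw [NN_index l ρ inc, Equiv.self_trans_symm] at h1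
  exact h1

end

end Pool.Agent.K4H93.CY
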