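import Mathlib
set_option autoImplicit false

/-! Traces of powers of an integer matrix modulo a prime. -/

namespace Pool.Agent.K4H93.CY

open Finset Matrix

variable {ι : Type} [Fintype ι] [DecidableEq ι]

theorem trace_cast (T : Matrix ι ι ℤ) (p n : ℕ) :
    ((Matrix.trace (T ^ n) : ℤ) : ZMod p) =
      Matrix.trace ((T.map (Int.castRingHom (ZMod p))) ^ n) := by
  have h1 : (T.map (Int.castRingHom (ZMod p))) ^ n = (T ^ n).map (Int.castRingHom (ZMod p)) :=
    (map_pow (Int.castRingHom (ZMod p)).mapMatrix T n).symm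
  rw [h1, Matrix.trace, Matrix.trace, Int.cast_sum]
  rfl

theorem trace_frob (T : Matrix ι ι ℤ) (p : ℕ) [Fact p.Prime] (k n : ℕ) :
    ((Matrix.trace (T ^ (p ^ k * n)) : ℤ) : ZMod p) = ((Matrix.trace (T ^ n) : ℤ) : ZMod p) := by
  induction k with
  | zero => rw [pow_zero, one_mul]
  | succ k ih =>
    rw [← ih, trace_cast, trace_cast]
    have h1 : p ^ (k + 1) * n = (p ^ k * n) * p := by ring
    rw [h1, pow_mul, ZMod.trace_pow_card, ZMod.pow_card]

/-- The traces of the powers of an integer matrix are periodic modulo `p`, with a period which is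
prime to `p`. -/
theorem exists_period (T : Matrix ι ι ℤ) (p : ℕ) [hp : Fact p.Prime] :
    ∃ M : ℕ, 1 ≤ M ∧ M.Coprime p ∧ ∀ n : ℕ, 1 ≤ n →
      ((Matrix.trace (T ^ (n + M)) : ℤ) : ZMod p) = ((Matrix.trace (T ^ n) : ℤ) : ZMod p) := by
  classical
  set W := T.map (Int.castRingHom (ZMod p)) with hW
  obtain ⟨a, b, hab, hE⟩ : ∃ a b : ℕ, a < b ∧ W ^ a = W ^ b := by
    obtain ⟨a, b, hab, h⟩ := Finite.exists_ne_map_eq_of_infinite (fun n : ℕ => W ^ n)
    rcases lt_or_gt_of_ne hab with h1 | h1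
    · exact ⟨a, b, h1, h⟩
    · exact ⟨b, a, h1, h.symm⟩
  obtain ⟨M0, hM0⟩ : ∃ M0, M0 = b - a := ⟨_, rfl⟩
  have hper : ∀ n, a ≤ n → W ^ (n + M0) = W ^ n := by
    intro n hn
    have h1 : n + M0 = (n - a) + b := by omega
    have h2 : n = (n - a) + a := by omega
    rw [h1, pow_add, ← hE, ← pow_add, ← h2]
  have hperm : ∀ (j n : ℕ), a ≤ n → W ^ (n + j * M0) = W ^ n := by
    intro j
    induction j with
    | zero => intro n _; rw [zero_mul, add_zero]
    | succ j ih =>
      intro n hn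
      rw [← ih n hn, ← hper (n + j * M0) (by omega)]
      congr 1
      ring
  have hp1 : 1 < p := hp.out.one_lt
  -- period for all `n ≥ 1`
  have hall : ∀ (j n : ℕ), 1 ≤ n → ((Matrix.trace (T ^ (n + j * M0)) : ℤ) : ZMod p) =
      ((Matrix.trace (T ^ n) : ℤ) : ZMod p) := by
    intro j n hn
    have hk : a ≤ p ^ a * n := by
      have h1 : a < p ^ a := Nat.lt_pow_self hp1
      nlinarith
    rw [← trace_frob T p a n, ← trace_frob T p a (n + j * M0), trace_cast, trace_cast, ← hW]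
    have h1 : p ^ a * (n + j * M0) = p ^ a * n + (p ^ a * j) * M0 := by ring
    rw [h1, hperm _ _ hk]
  have hM0pos : M0 ≠ 0 := by omega
  obtain ⟨s, M, hM, hs⟩ := Nat.exists_eq_pow_mul_and_not_dvd hM0pos p hp.out.ne_one
  refine ⟨M, ?_, ?_, ?_⟩
  · rcases Nat.eq_zero_or_pos M with h | h
    · subst h
      exact absurd (dvd_zero p) hM
    · exact h
  · exact ((Nat.Prime.coprime_iff_not_dvd hp.out).2 hM).symm
  · intro n hn
    rw [← trace_frob T p s n, ← trace_frob T p s (n + M)]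
    have h1 : p ^ s * (n + M) = p ^ s * n + 1 * M0 := by rw [hs]; ring
    rw [h1]
    exact hall 1 _ (Nat.mul_pos (pow_pos (by omega) s) hn)

end Pool.Agent.K4H93.CY
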