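import Pool.Agent.K4H93.CY.ModP
set_option autoImplicit false

/-! The Skolem-Mahler-Lech theorem for traces of powers of integer matrices. -/

namespace Pool.Agent.K4H93.CY

open Finset Polynomial

/-- A function `∑ j, C(k, j) p ^ j d j` with infinitely many zeros is zero (`p` odd). -/
theorem binom_zero (p : ℕ) [hp : Fact p.Prime] (hp2 : p ≠ 2) (d u : ℕ → ℤ)
    (hu : ∀ k, u k = ∑ j ∈ range (k + 1), (k.choose j : ℤ) * (p : ℤ) ^ j * d j)
    (hinf : {k | u k = 0}.Infinite) : ∀ k, u k = 0 := by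
  intro x
  have hp1 : 1 < p := hp.out.one_lt
  have hp3 : 3 ≤ p := by
    have := hp.out.two_le
    omega
  -- it is divisible by all powers of `p`
  suffices hdiv : ∀ m : ℕ, (p : ℤ) ^ m ∣ u x by
    by_contra hne
    have h1 := hdiv (u x).natAbs
    have h2 : (u x).natAbs < p ^ (u x).natAbs := Nat.lt_pow_self hp1
    refine hne (Int.eq_zero_of_abs_lt_dvd h1 ?_)
    rw [Int.abs_eq_natAbs]
    exact_mod_cast h2
  intro m
  obtain ⟨Z, hZ, hZc⟩ := hinf.exists_subset_card_eq (2 * m)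
  obtain ⟨N, hxN, hZN⟩ : ∃ N : ℕ, x ≤ N ∧ ∀ z ∈ Z, z ≤ N :=
    ⟨max x (Z.sup id), le_max_left _ _, fun z hz => le_trans (Finset.le_sup (f := id) hz)
      (le_max_right _ _)⟩
  have hu' : ∀ k, k ≤ N → u k = ∑ j ∈ range (N + 1), (k.choose j : ℤ) * (p : ℤ) ^ j * d j := by
    intro k hk
    rw [hu k]
    refine Finset.sum_subset (Finset.range_subset_range.2 (by omega)) ?_
    intro j _ hj
    rw [mem_range, not_lt] at hj
    rw [Nat.choose_eq_zero_of_lt (by omega), Nat.cast_zero, zero_mul, zero_mul]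
  let c : ℕ → ℤ := fun j => (p : ℤ) ^ j * d j * ((N.factorial / j.factorial : ℕ) : ℤ)
  let F : ℤ[X] := ∑ j ∈ range (N + 1), c j • descPochhammer ℤ j
  let ZZ : ℤ[X] := ∏ z ∈ Z, (X - C (z : ℤ))
  have hF : ∀ k : ℕ, k ≤ N → F.eval (k : ℤ) = (N.factorial : ℤ) * u k := by
    intro k hk
    simp only [F]
    rw [eval_finsetSum, hu' k hk, Finset.mul_sum]
    refine Finset.sum_congr rfl fun j hj => ?_
    rw [mem_range] at hj
    rw [eval_smul, descPochhammer_eval_eq_descFactorial, Nat.descFactorial_eq_factorial_mul_choose,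
      smul_eq_mul]
    have h1 : (N.factorial / j.factorial) * j.factorial = N.factorial :=
      Nat.div_mul_cancel (Nat.factorial_dvd_factorial (by omega))
    have h2 : ((N.factorial / j.factorial : ℕ) : ℤ) * (j.factorial : ℤ) = (N.factorial : ℤ) := by
      exact_mod_cast h1
    simp only [c]
    rw [← h2]
    push_cast
    ring
  have hmon : ZZ.Monic := monic_prod_X_sub_C (fun z : ℕ => (z : ℤ)) Z
  have hdeg : ZZ.degree = (2 * m : ℕ) := by
    have h1 : ZZ.natDegree = 2 * m := by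
      simp only [ZZ]
      rw [natDegree_prod_of_monic _ _ (fun z _ => monic_X_sub_C _),
        Finset.sum_congr rfl (fun z _ => natDegree_X_sub_C ((z : ℕ) : ℤ)), Finset.sum_const, hZc,
        smul_eq_mul, mul_one]
    rw [degree_eq_natDegree hmon.ne_zero, h1]
  have hev : ∀ z ∈ Z, ZZ.eval (z : ℤ) = 0 := by
    intro z hz
    simp only [ZZ]
    rw [eval_prod]
    exact Finset.prod_eq_zero hz (by simp)
  have hmod : F %ₘ ZZ = 0 := by
    refine eq_zero_of_degree_lt_of_eval_finset_eq_zero (Z.image fun z : ℕ => (z : ℤ)) ?_ ?_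
    · rw [Finset.card_image_of_injective _ Nat.cast_injective, hZc, ← hdeg]
      exact degree_modByMonic_lt _ hmon
    · intro y hy
      obtain ⟨z, hz, rfl⟩ := Finset.mem_image.1 hy
      have h1 := congrArg (fun f : ℤ[X] => f.eval (z : ℤ)) (modByMonic_add_div F ZZ)
      simp only [eval_add, eval_mul, hev z hz, zero_mul, add_zero] at h1
      rw [h1, hF z (hZN z hz)]
      have h2 : u z = 0 := hZ hz
      rw [h2, mul_zero]
  have hsum : F = ∑ j ∈ range (N + 1), c j • (ZZ * (descPochhammer ℤ j /ₘ ZZ)) := by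
    have h1 : F %ₘ ZZ = ∑ j ∈ range (N + 1), c j • (descPochhammer ℤ j %ₘ ZZ) := by
      have h2 : F %ₘ ZZ = modByMonicHom ZZ F := rfl
      rw [h2]
      simp only [F]
      rw [map_sum]
      refine Finset.sum_congr rfl fun j _ => ?_
      rw [map_smul]
      rfl
    have h3 : F = ∑ j ∈ range (N + 1), c j • descPochhammer ℤ j -
        ∑ j ∈ range (N + 1), c j • (descPochhammer ℤ j %ₘ ZZ) := by
      rw [← h1, hmod, sub_zero]
    rw [h3, ← Finset.sum_sub_distrib]
    refine Finset.sum_congr rfl fun j _ => ?_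
    rw [← smul_sub]
    congr 1
    rw [sub_eq_iff_eq_add, add_comm]
    exact (modByMonic_add_div _ _).symm
  -- the valuation of the coefficients
  obtain ⟨a, ha⟩ : ∃ a, a = padicValNat p N.factorial := ⟨_, rfl⟩
  have hdvd : (p : ℤ) ^ (a + m) ∣ (N.factorial : ℤ) * u x := by
    rw [← hF x hxN, hsum, eval_finsetSum]
    refine Finset.dvd_sum fun j hj => ?_
    rw [mem_range] at hj
    rw [eval_smul, eval_mul, smul_eq_mul]
    by_cases hjm : j < 2 * m
    · have h1 : descPochhammer ℤ j /ₘ ZZ = 0 := by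
        rw [divByMonic_eq_zero_iff hmon, hdeg]
        refine lt_of_le_of_lt degree_le_natDegree ?_
        rw [descPochhammer_natDegree]
        exact_mod_cast hjm
      rw [h1, eval_zero, mul_zero, mul_zero]
      exact dvd_zero _
    · refine Dvd.dvd.mul_right ?_ _
      have hb := sub_one_mul_padicValNat_factorial (p := p) j
      obtain ⟨b, hb'⟩ : ∃ b, b = padicValNat p j.factorial := ⟨_, rfl⟩
      rw [← hb'] at hb
      have h2b : 2 * b ≤ j := by
        have h1 : 2 * b ≤ (p - 1) * b := Nat.mul_le_mul_right b (by omega)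
        omega
      have hab : padicValNat p (N.factorial / j.factorial) = a - b := by
        rw [padicValNat.div_of_dvd (Nat.factorial_dvd_factorial (by omega)), ← ha, ← hb']
      have h3 : p ^ (a - b) ∣ N.factorial / j.factorial := by
        rw [← hab]
        exact pow_padicValNat_dvd
      have h4 : (p : ℤ) ^ (a - b) ∣ ((N.factorial / j.factorial : ℕ) : ℤ) := by
        exact_mod_cast h3
      have h5 : (p : ℤ) ^ (j + (a - b)) ∣ c j := by
        rw [pow_add]
        simp only [c]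
        rw [mul_right_comm]
        exact Dvd.dvd.mul_right (mul_dvd_mul_left _ h4) _
      exact (pow_dvd_pow _ (by omega)).trans h5
  -- cancel
  have hfac : p ^ a ∣ N.factorial := by
    rw [ha]
    exact pow_padicValNat_dvd
  obtain ⟨t, ht⟩ := hfac
  have htp : ¬ p ∣ t := by
    rintro ⟨s, hs⟩
    have h1 : p ^ (a + 1) ∣ N.factorial := ⟨s, by rw [ht, hs]; ring⟩
    have h2 := (padicValNat_dvd_iff_le (p := p) (Nat.factorial_ne_zero N)).1 h1
    omega
  have h6 : (p : ℤ) ^ m ∣ (t : ℤ) * u x := by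
    have h7 : (N.factorial : ℤ) = (p : ℤ) ^ a * (t : ℤ) := by exact_mod_cast ht
    rw [h7, pow_add, mul_assoc] at hdvd
    exact (mul_dvd_mul_iff_left (pow_ne_zero a (by exact_mod_cast hp.out.ne_zero))).1 hdvd
  refine (IsCoprime.pow_left ?_).dvd_of_dvd_mul_left h6
  exact Nat.isCoprime_iff_coprime.2 ((Nat.Prime.coprime_iff_not_dvd hp.out).2 htp)

/-- A monic polynomial whose constant coefficient is prime to `p` divides some `X ^ M - 1` modulo
`p`. -/
theorem exists_pow_sub_one (p : ℕ) [hp : Fact p.Prime] (g : ℤ[X]) (hg : g.Monic)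
    (h0 : ¬ (p : ℤ) ∣ g.coeff 0) :
    ∃ (M : ℕ) (h q : ℤ[X]), 1 ≤ M ∧ (X : ℤ[X]) ^ M - 1 = C (p : ℤ) * h + g * q := by
  classical
  set g' : (ZMod p)[X] := g.map (Int.castRingHom (ZMod p)) with hg'
  have hg'm : g'.Monic := hg.map _
  have := hg'm.finite_adjoinRoot
  have hfin : Finite (AdjoinRoot g') := Module.finite_of_finite (ZMod p)
  obtain ⟨a, b, hab, hE⟩ : ∃ a b : ℕ, a < b ∧
      (AdjoinRoot.mk g' (X ^ a) : AdjoinRoot g') = AdjoinRoot.mk g' (X ^ b) := by
    obtain ⟨a, b, hab, h⟩ := Finite.exists_ne_map_eq_of_infinite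
      (fun n : ℕ => (AdjoinRoot.mk g' (X ^ n) : AdjoinRoot g'))
    rcases lt_or_gt_of_ne hab with h1 | h1
    · exact ⟨a, b, h1, h⟩
    · exact ⟨b, a, h1, h.symm⟩
  have hdvd : g' ∣ X ^ a * (X ^ (b - a) - 1) := by
    have h1 := AdjoinRoot.mk_eq_mk.1 hE.symm
    have h2 : (X : (ZMod p)[X]) ^ b - X ^ a = X ^ a * (X ^ (b - a) - 1) := by
      rw [mul_sub, ← pow_add, mul_one]
      congr 2
      omega
    rwa [h2] at h1
  have hcop : IsCoprime g' (X ^ a) := by
    refine IsCoprime.pow_right ?_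
    refine ((Irreducible.coprime_iff_not_dvd (irreducible_X)).2 ?_).symm
    rw [X_dvd_iff, hg', coeff_map]
    intro h1
    apply h0
    exact (ZMod.intCast_zmod_eq_zero_iff_dvd _ p).1 h1
  have hd2 : g' ∣ X ^ (b - a) - 1 := hcop.dvd_of_dvd_mul_left hdvd
  obtain ⟨q', hq'⟩ := hd2
  obtain ⟨q, hq⟩ := Polynomial.map_surjective (Int.castRingHom (ZMod p))
    (ZMod.ringHom_surjective _) q'
  have h3 : C (p : ℤ) ∣ (X : ℤ[X]) ^ (b - a) - 1 - g * q := by
    rw [C_dvd_iff_dvd_coeff]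
    intro i
    have h4 : ((X : ℤ[X]) ^ (b - a) - 1 - g * q).map (Int.castRingHom (ZMod p)) = 0 := by
      rw [Polynomial.map_sub, Polynomial.map_sub, Polynomial.map_pow, Polynomial.map_X,
        Polynomial.map_one, Polynomial.map_mul, hq, ← hg', hq', sub_self]
    have h5 := congrArg (fun f : (ZMod p)[X] => f.coeff i) h4
    simp only [coeff_map, coeff_zero] at h5
    exact (ZMod.intCast_zmod_eq_zero_iff_dvd _ p).1 h5
  obtain ⟨h, hh⟩ := h3
  exact ⟨b - a, h, q, by omega, by rw [← hh]; ring⟩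

section trace

open Matrix

variable {ι : Type} [Fintype ι] [DecidableEq ι]

/-- Skolem-Mahler-Lech for the traces of the powers of an integer matrix, with one modulus for all
starting points. -/
theorem sml (T : Matrix ι ι ℤ) : ∃ L : ℕ, 1 ≤ L ∧ ∀ n₀ : ℕ, 1 ≤ n₀ →
    Matrix.trace (T ^ n₀) ≠ 0 →
      {n : ℕ | n ≡ n₀ [MOD L] ∧ Matrix.trace (T ^ n) = 0}.Finite := by
  classical
  have hχ : T.charpoly ≠ 0 := (T.charpoly_monic).ne_zero
  obtain ⟨g, hg, hg0⟩ := exists_eq_pow_rootMultiplicity_mul_and_not_dvd T.charpoly hχ 0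
  rw [C_0, sub_zero] at hg hg0
  obtain ⟨s, hs⟩ : ∃ s, s = rootMultiplicity 0 T.charpoly := ⟨_, rfl⟩
  rw [← hs] at hg
  have hgm : g.Monic := by
    have h1 := T.charpoly_monic
    rw [hg] at h1
    exact (monic_X_pow s).of_mul_monic_left h1
  have hg0' : g.coeff 0 ≠ 0 := fun h => hg0 (X_dvd_iff.2 h)
  obtain ⟨p, hpN, hp⟩ := Nat.exists_infinite_primes ((g.coeff 0).natAbs + 3)
  have hpf : Fact p.Prime := ⟨hp⟩
  have hnd : ¬ (p : ℤ) ∣ g.coeff 0 := by
    intro h
    have h1 := Int.natAbs_dvd_natAbs.2 h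
    have h2 := Nat.le_of_dvd (Int.natAbs_pos.2 hg0') h1
    simp only [Int.natAbs_natCast] at h2
    omega
  obtain ⟨M, h, q, hM, hE⟩ := exists_pow_sub_one p g hgm hnd
  -- the functional
  let ℓ : ℤ[X] →+ ℤ := (Matrix.traceAddMonoidHom ι ℤ).comp (aeval T : ℤ[X] →ₐ[ℤ] _).toRingHom.toAddMonoidHom
  have hℓ : ∀ f : ℤ[X], ℓ f = Matrix.trace (aeval T f) := fun _ => rfl
  have hℓX : ∀ n : ℕ, ℓ (X ^ n) = Matrix.trace (T ^ n) := by
    intro n
    rw [hℓ, map_pow, aeval_X]
  have hℓ0 : ∀ f f' : ℤ[X], T.charpoly ∣ f - f' → ℓ f = ℓ f' := by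
    rintro f f' ⟨e, he⟩
    rw [← sub_eq_zero, ← map_sub, he, hℓ, map_mul, Matrix.aeval_self_charpoly, zero_mul,
      Matrix.trace_zero]
  have hmain : ∀ r : ℕ, s ≤ r → ∀ k : ℕ, Matrix.trace (T ^ (r + M * k)) =
      ∑ j ∈ range (k + 1), (k.choose j : ℤ) * (p : ℤ) ^ j * ℓ (X ^ r * h ^ j) := by
    intro r hr k
    have h1 : ℓ (X ^ (r + M * k)) = ℓ (∑ j ∈ range (k + 1),
        ((k.choose j : ℤ) * (p : ℤ) ^ j) • (X ^ r * h ^ j)) := by
      apply hℓ0
      have h2 : (X : ℤ[X]) ^ (r + M * k) = ∑ j ∈ range (k + 1),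
          (k.choose j : ℤ) • (X ^ r * (X ^ M - 1) ^ j) := by
        rw [pow_add, pow_mul]
        have h3 : ((X : ℤ[X]) ^ M) ^ k = ((X ^ M - 1) + 1) ^ k := by ring
        rw [h3, add_pow, Finset.mul_sum]
        refine Finset.sum_congr rfl fun j _ => ?_
        rw [one_pow, mul_one, zsmul_eq_mul]
        push_cast
        ring
      rw [h2, ← Finset.sum_sub_distrib]
      refine Finset.dvd_sum fun j _ => ?_
      have h4 : (k.choose j : ℤ) • ((X : ℤ[X]) ^ r * (X ^ M - 1) ^ j) -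
          ((k.choose j : ℤ) * (p : ℤ) ^ j) • (X ^ r * h ^ j) =
          ((k.choose j : ℤ) : ℤ[X]) * (X ^ r * ((X ^ M - 1) ^ j - (C (p : ℤ) * h) ^ j)) := by
        rw [zsmul_eq_mul, zsmul_eq_mul, mul_pow, ← C_pow]
        have h5 : (((k.choose j : ℤ) * (p : ℤ) ^ j : ℤ) : ℤ[X]) =
            ((k.choose j : ℤ) : ℤ[X]) * C ((p : ℤ) ^ j) := by
          rw [Int.cast_mul]
          rfl
        rw [h5]
        ring
      rw [h4]
      refine Dvd.dvd.mul_left ?_ _
      rw [hg]
      refine mul_dvd_mul (pow_dvd_pow _ hr) ?_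
      refine Dvd.dvd.trans ?_ (sub_dvd_pow_sub_pow _ _ j)
      rw [hE]
      exact ⟨q, by ring⟩
    rw [← hℓX, h1, map_sum]
    refine Finset.sum_congr rfl fun j _ => ?_
    rw [map_zsmul, smul_eq_mul]
  refine ⟨M, hM, ?_⟩
  intro n₀ hn₀ hne
  -- a large representative with nonzero trace
  obtain ⟨r, hr, hrn, hrne⟩ : ∃ r, s ≤ r ∧ r ≡ n₀ [MOD M] ∧ Matrix.trace (T ^ r) ≠ 0 := by
    obtain ⟨p', hp'N, hp'⟩ := Nat.exists_infinite_primes ((Matrix.trace (T ^ n₀)).natAbs + 1)
    have hpf' : Fact p'.Prime := ⟨hp'⟩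
    obtain ⟨M', hM', -, hper⟩ := exists_period T p'
    have hj : ∀ j : ℕ, ((Matrix.trace (T ^ (n₀ + j * M')) : ℤ) : ZMod p') =
        ((Matrix.trace (T ^ n₀) : ℤ) : ZMod p') := by
      intro j
      induction j with
      | zero => rw [zero_mul, add_zero]
      | succ j ih =>
        have h1 : n₀ + (j + 1) * M' = n₀ + j * M' + M' := by ring
        rw [← ih, ← hper (n₀ + j * M') (by omega), h1]
    refine ⟨n₀ + (s * M) * M', ?_, ?_, ?_⟩
    · have h1 : 1 * 1 ≤ M * M' := Nat.mul_le_mul hM hM'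
      nlinarith
    · have h1 : n₀ + s * M * M' = n₀ + M * (s * M') := by ring
      rw [h1]
      exact Nat.ModEq.symm (Nat.modEq_iff_dvd' (by omega) |>.2 ⟨s * M', by omega⟩)
    · intro h0
      have h1 := hj (s * M)
      rw [h0, Int.cast_zero] at h1
      have h2 := (ZMod.intCast_zmod_eq_zero_iff_dvd _ p').1 h1.symm
      have h3 := Int.natAbs_dvd_natAbs.2 h2
      have h4 := Nat.le_of_dvd (Int.natAbs_pos.2 hne) h3
      simp only [Int.natAbs_natCast] at h4
      omega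
  have hp2 : p ≠ 2 := by omega
  have hfin : {k : ℕ | Matrix.trace (T ^ (r + M * k)) = 0}.Finite := by
    by_contra hinf
    have h1 := binom_zero p hp2 (fun j => ℓ (X ^ r * h ^ j))
      (fun k => Matrix.trace (T ^ (r + M * k))) (hmain r hr) hinf 0
    rw [mul_zero, add_zero] at h1
    exact hrne h1
  refine ((Set.finite_Iio r).union (hfin.image fun k => r + M * k)).subset ?_
  rintro n ⟨hn1, hn2⟩
  by_cases hnr : n < r
  · exact Or.inl hnr
  · refine Or.inr ?_
    have h1 : r ≡ n [MOD M] := hrn.trans hn1.symm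
    obtain ⟨k, hk⟩ := (Nat.modEq_iff_dvd' (by omega)).1 h1
    refine ⟨k, ?_, by show r + M * k = n; omega⟩
    show Matrix.trace (T ^ (r + M * k)) = 0
    have h2 : r + M * k = n := by omega
    rw [h2, hn2]

end trace

end Pool.Agent.K4H93.CY
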