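import Pool.Agent.K4H93.CY.Trace
import Pool.Agent.K4H93.CY.SML
import Pool.Agent.W426.LE.EL
set_option autoImplicit false

/-! Periodic multigraphs and the signed numbers of their quotients. -/

namespace Pool.Agent.K4H93.CY

open Finset Pool.Agent.W426.LE

variable {B E D C : Type}

/-- The incidences of the quotient by `n ℤ` of the periodic multigraph with the incidences `inc`. -/
def qinc (inc : B → D → E × ℤ) (n : ℕ) : B × ZMod n → D → E × ZMod n :=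
  fun v i => ((inc v.1 i).1, v.2 + (((inc v.1 i).2 : ℤ) : ZMod n))

variable [Fintype B] [Fintype E] [Fintype D] [Fintype C]

theorem NN_qinc (ρ : D ≃ C) (inc : B → D → E × ℤ) :
    ∃ (σ : Type) (_ : Fintype σ) (_ : DecidableEq σ) (T : Matrix σ σ ℤ),
      ∀ (n : ℕ) [NeZero n], NN ρ (qinc inc n) = Matrix.trace (T ^ n) := by
  classical
  obtain ⟨m₀, hm₀⟩ : ∃ m₀ : ℕ, ∀ b i, ((inc b i).2).natAbs ≤ m₀ := by
    obtain ⟨m, hm⟩ := (Set.finite_range (fun q : B × D => ((inc q.1 q.2).2).natAbs)).bddAbove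
    exact ⟨m, fun b i => hm ⟨(b, i), rfl⟩⟩
  have hlt : ∀ b i, ((inc b i).2 + m₀).toNat < 2 * m₀ + 1 := by
    intro b i
    have h1 := hm₀ b i
    omega
  have hcast : ∀ b i, ((((inc b i).2 + m₀).toNat : ℕ) : ℤ) = (inc b i).2 + m₀ := by
    intro b i
    have h1 := hm₀ b i
    omega
  let w : (Fin (2 * m₀ + 1) → (E → C)) → ℤ := fun u =>
    ∏ b, sg ρ (fun i => u ⟨((inc b i).2 + m₀).toNat, hlt b i⟩ (inc b i).1)
  refine ⟨Fin (2 * m₀ + 1) → (E → C), inferInstance, inferInstance, transfer w, ?_⟩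
  intro n hn
  rw [← sum_window w n (Nat.one_le_iff_ne_zero.2 (NeZero.ne n))]
  unfold NN
  let ε : (E × ZMod n → C) ≃ (ZMod n → E → C) :=
    { toFun := fun x j e => x (e, j)
      invFun := fun y q => y q.2 q.1
      left_inv := fun x => rfl
      right_inv := fun y => rfl }
  rw [← ε.sum_comp]
  refine Finset.sum_congr (by ext x; simp) fun x _ => ?_
  rw [Fintype.prod_prod_type_right]
  refine Fintype.prod_equiv (Equiv.subRight ((m₀ : ℕ) : ZMod n)) _ _ fun j => ?_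
  simp only [w]
  refine Finset.prod_congr rfl fun b _ => ?_
  congr 1
  funext i
  show x ((inc b i).1, j + (((inc b i).2 : ℤ) : ZMod n)) =
    x ((inc b i).1, (j - ((m₀ : ℕ) : ZMod n)) + ((((inc b i).2 + m₀).toNat : ℕ) : ZMod n))
  congr 2
  have h1 : ((((inc b i).2 + m₀).toNat : ℕ) : ZMod n) = (((inc b i).2 + m₀ : ℤ) : ZMod n) := by
    rw [← hcast b i]
    push_cast
    rfl
  rw [h1]
  push_cast
  ring

/-- (1) the signed numbers are periodic modulo `p` -/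
theorem NN_period (ρ : D ≃ C) (inc : B → D → E × ℤ) (p : ℕ) (hp : p.Prime) :
    ∃ M : ℕ, 1 ≤ M ∧ M.Coprime p ∧ ∀ (k n₀ n : ℕ) [NeZero n₀] [NeZero n],
      n ≡ p ^ k * n₀ [MOD M] → (p : ℤ) ∣ NN ρ (qinc inc n) - NN ρ (qinc inc n₀) := by
  have : Fact p.Prime := ⟨hp⟩
  obtain ⟨σ, i1, i2, T, hT⟩ := NN_qinc ρ inc
  obtain ⟨M, hM, hcop, hper⟩ := exists_period T p
  have hj : ∀ n j : ℕ, 1 ≤ n → ((Matrix.trace (T ^ (n + j * M)) : ℤ) : ZMod p) =
      ((Matrix.trace (T ^ n) : ℤ) : ZMod p) := by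
    intro n j hn
    induction j with
    | zero => rw [zero_mul, add_zero]
    | succ j ih =>
      have h1 : n + (j + 1) * M = n + j * M + M := by ring
      rw [← ih, ← hper (n + j * M) (by omega), h1]
  have hmod : ∀ a b : ℕ, 1 ≤ a → 1 ≤ b → a ≡ b [MOD M] →
      ((Matrix.trace (T ^ a) : ℤ) : ZMod p) = ((Matrix.trace (T ^ b) : ℤ) : ZMod p) := by
    have hle : ∀ a b : ℕ, 1 ≤ a → a ≤ b → a ≡ b [MOD M] →
        ((Matrix.trace (T ^ a) : ℤ) : ZMod p) = ((Matrix.trace (T ^ b) : ℤ) : ZMod p) := by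
      intro a b ha hab h
      obtain ⟨j, hj'⟩ := (Nat.modEq_iff_dvd' hab).1 h
      have h1 : b = a + j * M := by rw [mul_comm]; omega
      rw [h1, hj a j ha]
    intro a b ha hb h
    rcases Nat.le_total a b with hab | hab
    · exact hle a b ha hab h
    · exact (hle b a hb hab h.symm).symm
  refine ⟨M, hM, hcop, ?_⟩
  intro k n₀ n _ _ hn
  have hn0 : 1 ≤ n₀ := Nat.one_le_iff_ne_zero.2 (NeZero.ne n₀)
  have hn1 : 1 ≤ n := Nat.one_le_iff_ne_zero.2 (NeZero.ne n)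
  rw [hT n, hT n₀, ← ZMod.intCast_zmod_eq_zero_iff_dvd, Int.cast_sub, sub_eq_zero,
    hmod n (p ^ k * n₀) hn1 (Nat.mul_pos (pow_pos hp.pos k) hn0) hn, trace_frob]

/-- (2) Skolem-Mahler-Lech -/
theorem NN_sml (ρ : D ≃ C) (inc : B → D → E × ℤ) :
    ∃ L : ℕ, 1 ≤ L ∧ ∀ (n₀ : ℕ) [NeZero n₀], NN ρ (qinc inc n₀) ≠ 0 →
      ∃ N : ℕ, ∀ (n : ℕ) [NeZero n], N ≤ n → n ≡ n₀ [MOD L] → NN ρ (qinc inc n) ≠ 0 := by
  obtain ⟨σ, i1, i2, T, hT⟩ := NN_qinc ρ inc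
  obtain ⟨L, hL, h⟩ := sml T
  refine ⟨L, hL, ?_⟩
  intro n₀ _ hne
  rw [hT n₀] at hne
  have hfin := h n₀ (Nat.one_le_iff_ne_zero.2 (NeZero.ne n₀)) hne
  obtain ⟨N, hN⟩ := hfin.bddAbove
  refine ⟨N + 1, ?_⟩
  intro n _ hn hmod h0
  have h1 : n ≤ N := hN ⟨hmod, by rw [← hT n]; exact h0⟩
  omega

/-- (3) one modulus for a nonzero signed number -/
theorem NN_progression (ρ : D ≃ C) (inc : B → D → E × ℤ) (n₀ : ℕ) [NeZero n₀]
    (hne : NN ρ (qinc inc n₀) ≠ 0) :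
    ∃ M : ℕ, 1 ≤ M ∧ ∀ (n : ℕ) [NeZero n], n ≡ n₀ [MOD M] → NN ρ (qinc inc n) ≠ 0 := by
  obtain ⟨p, hpN, hp⟩ := Nat.exists_infinite_primes ((NN ρ (qinc inc n₀)).natAbs + 1)
  obtain ⟨M, hM, -, h⟩ := NN_period ρ inc p hp
  refine ⟨M, hM, ?_⟩
  intro n _ hn h0
  have h1 := h 0 n₀ n (by rw [pow_zero, one_mul]; exact hn)
  rw [h0, zero_sub, dvd_neg] at h1
  have h2 := Int.natAbs_dvd_natAbs.2 h1
  have h3 := Nat.le_of_dvd (Int.natAbs_pos.2 hne) h2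
  simp only [Int.natAbs_natCast] at h3
  omega

end Pool.Agent.K4H93.CY
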