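import Pool.Agent.K4H93.CY.Simple
set_option autoImplicit false

/-! Quotients of periodic multigraphs. -/

namespace Pool.Agent.K4H93.CY

open Finset Pool.Agent.W426.LE

variable {B E D : Type}

/-- No loops and no parallel edges. -/
def SimpleInc {V E D : Type} (inc : V → D → E) : Prop :=
  (∀ v, Function.Injective (inc v)) ∧
    ∀ v w i i' j j', v ≠ w → inc v i = inc w j → inc v i' = inc w j' → i = i'

theorem qinc_ends (inc : B → D → E × ℤ)
    (h : ∀ e, Nat.card {q : B × D // (inc q.1 q.2).1 = e} = 2) (n : ℕ) (e : E × ZMod n) :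
    Nat.card {q : (B × ZMod n) × D // qinc inc n q.1 q.2 = e} = 2 := by
  rw [← h e.1]
  refine Nat.card_congr ?_
  refine
    { toFun := fun q => ⟨(q.1.1.1, q.1.2), congrArg Prod.fst q.2⟩
      invFun := fun q => ⟨((q.1.1, e.2 - (((inc q.1.1 q.1.2).2 : ℤ) : ZMod n)), q.1.2), ?_⟩
      left_inv := ?_
      right_inv := ?_ }
  · refine Prod.ext q.2 ?_
    show (e.2 - (((inc q.1.1 q.1.2).2 : ℤ) : ZMod n)) + (((inc q.1.1 q.1.2).2 : ℤ) : ZMod n) = e.2
    ring
  · rintro ⟨⟨⟨b, x⟩, i⟩, hq⟩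
    apply Subtype.ext
    have h1 : x + (((inc b i).2 : ℤ) : ZMod n) = e.2 := congrArg Prod.snd hq
    show ((b, e.2 - (((inc b i).2 : ℤ) : ZMod n)), i) = ((b, x), i)
    rw [← h1]
    congr 2
    ring
  · rintro ⟨⟨b, i⟩, hq⟩
    rfl

theorem simple_large [Finite B] [Finite D] (inc : B → D → E × ℤ) (h : SimpleInc (qinc inc 0)) :
    ∃ N : ℕ, ∀ n, N ≤ n → SimpleInc (qinc inc n) := by
  obtain ⟨m, hm⟩ : ∃ m : ℕ, ∀ b i, |(inc b i).2| ≤ m := by
    obtain ⟨m, hm⟩ := (Set.finite_range (fun q : B × D => ((inc q.1 q.2).2).natAbs)).bddAbove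
    refine ⟨m, fun b i => ?_⟩
    have h1 : ((inc b i).2).natAbs ≤ m := hm ⟨(b, i), rfl⟩
    rw [Int.abs_eq_natAbs]
    exact_mod_cast h1
  have hsmall : ∀ n : ℕ, 4 * m + 1 ≤ n → ∀ a b : ℤ, |a| ≤ 2 * m → |b| ≤ 2 * m →
      (a : ZMod n) = (b : ZMod n) → a = b := by
    intro n hn a b ha hb hab
    have h1 : (n : ℤ) ∣ a - b := by
      rw [← ZMod.intCast_zmod_eq_zero_iff_dvd, Int.cast_sub, hab, sub_self]
    have h2 : |a - b| < (n : ℤ) := by
      have h3 : |a - b| ≤ |a| + |b| := abs_sub a b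
      have h4 : ((4 * m + 1 : ℕ) : ℤ) ≤ (n : ℤ) := by exact_mod_cast hn
      push_cast at h4
      linarith
    have h5 := Int.eq_zero_of_abs_lt_dvd h1 h2
    linarith
  refine ⟨4 * m + 1, fun n hn => ⟨?_, ?_⟩⟩
  · rintro ⟨b, x⟩ i i' hii
    have h1 : (qinc inc n (b, x) i).1 = (qinc inc n (b, x) i').1 := congrArg Prod.fst hii
    replace h1 : (inc b i).1 = (inc b i').1 := h1
    have h2 : x + (((inc b i).2 : ℤ) : ZMod n) = x + (((inc b i').2 : ℤ) : ZMod n) :=
      congrArg Prod.snd hii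
    have h3 : (inc b i).2 = (inc b i').2 := by
      refine hsmall n hn _ _ ?_ ?_ (add_left_cancel h2)
      · have := hm b i; have := abs_nonneg (inc b i).2; linarith
      · have := hm b i'; have := abs_nonneg (inc b i').2; linarith
    apply h.1 (b, (0 : ZMod 0))
    show ((inc b i).1, (0 : ZMod 0) + _) = ((inc b i').1, (0 : ZMod 0) + _)
    rw [h1, h3]
  · rintro ⟨a, x⟩ ⟨b, y⟩ i i' j j' hne h1 h2
    have e1 : (qinc inc n (a, x) i).1 = (qinc inc n (b, y) j).1 := congrArg Prod.fst h1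
    replace e1 : (inc a i).1 = (inc b j).1 := e1
    have e2 : x + (((inc a i).2 : ℤ) : ZMod n) = y + (((inc b j).2 : ℤ) : ZMod n) :=
      congrArg Prod.snd h1
    have e3 : (qinc inc n (a, x) i').1 = (qinc inc n (b, y) j').1 := congrArg Prod.fst h2
    replace e3 : (inc a i').1 = (inc b j').1 := e3
    have e4 : x + (((inc a i').2 : ℤ) : ZMod n) = y + (((inc b j').2 : ℤ) : ZMod n) :=
      congrArg Prod.snd h2
    have e5 : (inc a i).2 - (inc b j).2 = (inc a i').2 - (inc b j').2 := by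
      refine hsmall n hn _ _ ?_ ?_ ?_
      · refine (abs_sub _ _).trans ?_
        have := hm a i; have := hm b j; linarith
      · refine (abs_sub _ _).trans ?_
        have := hm a i'; have := hm b j'; linarith
      · push_cast
        linear_combination e2 - e4
    refine h.2 (a, (0 : ZMod 0)) (b, (Int.cast ((inc a i).2 - (inc b j).2) : ZMod 0)) i i' j j' ?_ ?_ ?_
    · intro heq
      apply hne
      have f1 : a = b := congrArg Prod.fst heq
      have f2 : (0 : ZMod 0) = (Int.cast ((inc a i).2 - (inc b j).2) : ZMod 0) := congrArg Prod.snd heq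
      have f3 : ((0 : ℕ) : ℤ) ∣ (inc a i).2 - (inc b j).2 :=
        (ZMod.intCast_zmod_eq_zero_iff_dvd _ 0).1 f2.symm
      rw [Nat.cast_zero, zero_dvd_iff] at f3
      have f5 : (inc a i).2 = (inc b j).2 := sub_eq_zero.1 f3
      rw [f5] at e2
      exact Prod.ext f1 (add_right_cancel e2)
    · refine Prod.ext e1 ?_
      show (0 : ZMod 0) + (Int.cast (inc a i).2 : ZMod 0) =
        (Int.cast ((inc a i).2 - (inc b j).2) : ZMod 0) + (Int.cast (inc b j).2 : ZMod 0)
      push_cast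
      ring
    · refine Prod.ext e3 ?_
      show (0 : ZMod 0) + (Int.cast (inc a i').2 : ZMod 0) =
        (Int.cast ((inc a i).2 - (inc b j).2) : ZMod 0) + (Int.cast (inc b j').2 : ZMod 0)
      rw [e5]
      push_cast
      ring

end Pool.Agent.K4H93.CY
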