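import Pool.Agent.K4H93.CY.Per
set_option autoImplicit false

/-! From incidences to simple graphs. -/

namespace Pool.Agent.K4H93.CY

open Finset Pool.Agent.W426.LE

variable {V E D : Type}

/-- The graph of an incidence structure: two different vertices are adjacent if they have a common
edge. -/
def igraph (inc : V → D → E) : SimpleGraph V :=
  SimpleGraph.fromRel fun v w => ∃ i j, inc v i = inc w j

theorem igraph_adj (inc : V → D → E) (v w : V) :
    (igraph inc).Adj v w ↔ v ≠ w ∧ ∃ i j, inc v i = inc w j := by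
  unfold igraph
  rw [SimpleGraph.fromRel_adj]
  constructor
  · rintro ⟨h, ⟨i, j, hij⟩ | ⟨i, j, hij⟩⟩
    · exact ⟨h, i, j, hij⟩
    · exact ⟨h, j, i, hij.symm⟩
  · rintro ⟨h, i, j, hij⟩
    exact ⟨h, Or.inl ⟨i, j, hij⟩⟩

theorem exists_ends (inc : V → D → E)
    (hends : ∀ e, Nat.card {q : V × D // inc q.1 q.2 = e} = 2) (e : E) :
    ∃ q r : V × D, q ≠ r ∧ inc q.1 q.2 = e ∧ inc r.1 r.2 = e ∧
      ∀ s : V × D, inc s.1 s.2 = e → s = q ∨ s = r := by
  obtain ⟨x, y, hxy, hu⟩ := Nat.card_eq_two_iff.1 (hends e)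
  refine ⟨x.1, y.1, fun h => hxy (Subtype.ext h), x.2, y.2, ?_⟩
  intro s hs
  have h1 : (⟨s, hs⟩ : {q : V × D // inc q.1 q.2 = e}) ∈ ({x, y} : Set _) := by
    rw [hu]
    exact Set.mem_univ _
  rcases h1 with h1 | h1
  · exact Or.inl (congrArg Subtype.val h1)
  · exact Or.inr (congrArg Subtype.val h1)

section simple

variable (inc : V → D → E)
  (hends : ∀ e, Nat.card {q : V × D // inc q.1 q.2 = e} = 2)
  (hinj : ∀ v, Function.Injective (inc v))
  (hpar : ∀ v w i i' j j', v ≠ w → inc v i = inc w j → inc v i' = inc w j' → i = i')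

include hends hinj hpar

theorem exists_psi : ∃ ψ : E ≃ (igraph inc).edgeSet,
    (∀ v i, v ∈ (ψ (inc v i) : Sym2 V)) ∧ (∀ v e, v ∈ (ψ e : Sym2 V) → ∃ i, inc v i = e) := by
  choose q r hqr hq hr hall using exists_ends inc hends
  have hne : ∀ e, (q e).1 ≠ (r e).1 := by
    intro e h
    apply hqr e
    refine Prod.ext h (hinj (q e).1 ?_)
    rw [hq e]
    exact (congrArg (fun v => inc v (r e).2) h).trans (hr e) |>.symm
  let f : E → (igraph inc).edgeSet := fun e => ⟨s((q e).1, (r e).1), by
    rw [SimpleGraph.mem_edgeSet, igraph_adj]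
    exact ⟨hne e, (q e).2, (r e).2, by rw [hq, hr]⟩⟩
  have hmem : ∀ v e, v ∈ (f e : Sym2 V) ↔ ∃ i, inc v i = e := by
    intro v e
    show v ∈ s((q e).1, (r e).1) ↔ _
    rw [Sym2.mem_iff]
    constructor
    · rintro (rfl | rfl)
      · exact ⟨_, hq e⟩
      · exact ⟨_, hr e⟩
    · rintro ⟨i, hi⟩
      rcases hall e (v, i) hi with h | h
      · exact Or.inl (congrArg Prod.fst h)
      · exact Or.inr (congrArg Prod.fst h)
  have hfinj : Function.Injective f := by
    intro e e' h
    obtain ⟨i, hi⟩ := (hmem (q e).1 e').1 (by rw [← h]; exact (hmem _ e).2 ⟨_, hq e⟩)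
    obtain ⟨j, hj⟩ := (hmem (r e).1 e').1 (by rw [← h]; exact (hmem _ e).2 ⟨_, hr e⟩)
    have h1 := hpar (q e).1 (r e).1 (q e).2 i (r e).2 j (hne e) (by rw [hq, hr]) (by rw [hi, hj])
    rw [← hq e, h1, hi]
  have hfsurj : Function.Surjective f := by
    rintro ⟨e, he⟩
    induction e using Sym2.ind with
    | _ a b =>
      have h1 := he
      rw [SimpleGraph.mem_edgeSet, igraph_adj] at h1
      obtain ⟨hab, i, j, hij⟩ := h1
      refine ⟨inc a i, Subtype.ext ?_⟩
      show s((q (inc a i)).1, (r (inc a i)).1) = s(a, b)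
      have h2 := hall (inc a i) (a, i) rfl
      have h3 := hall (inc a i) (b, j) hij.symm
      rcases h2 with h2 | h2 <;> rcases h3 with h3 | h3
      · exact absurd ((congrArg Prod.fst h2).trans (congrArg Prod.fst h3).symm) hab
      · rw [← h2, ← h3]
      · rw [← h2, ← h3, Sym2.eq_swap]
      · exact absurd ((congrArg Prod.fst h2).trans (congrArg Prod.fst h3).symm) hab
  exact ⟨Equiv.ofBijective f ⟨hfinj, hfsurj⟩, fun v i => (hmem v _).2 ⟨i, rfl⟩,
    fun v e h => (hmem v e).1 h⟩

theorem igraph_EL {C : Type} [Fintype V] [Fintype E] [Fintype D] [Fintype C] (ρ : D ≃ C)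
    (hN : NN ρ inc ≠ 0) : EL.EL (igraph inc) (Fintype.card D) := by
  obtain ⟨ψ, h1, h2⟩ := exists_psi inc hends hinj hpar
  exact EL.sGRE V E D C ρ inc (igraph inc) ψ h1 h2 hinj hN

theorem igraph_deg (v : V) : ((igraph inc).neighborSet v).ncard = Nat.card D := by
  choose q r hqr hq hr hall using exists_ends inc hends
  -- the other end
  have hoth : ∀ i, ∃ w, w ≠ v ∧ ∃ j, inc w j = inc v i := by
    intro i
    have hne : (q (inc v i)).1 ≠ (r (inc v i)).1 := by
      intro h
      apply hqr (inc v i)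
      refine Prod.ext h (hinj (q (inc v i)).1 ?_)
      rw [hq]
      exact (congrArg (fun u => inc u (r (inc v i)).2) h).trans (hr _) |>.symm
    rcases hall (inc v i) (v, i) rfl with h | h
    · refine ⟨(r (inc v i)).1, ?_, _, hr _⟩
      rw [← h] at hne
      exact hne.symm
    · refine ⟨(q (inc v i)).1, ?_, _, hq _⟩
      rw [← h] at hne
      exact hne
  choose o ho j hj using hoth
  have hinjo : Function.Injective o := by
    intro i i' h
    exact hpar v (o i) i i' (j i) (j i') (ho i).symm (hj i).symm (by rw [hj i' |>.symm, h])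
  have hrange : Set.range o = (igraph inc).neighborSet v := by
    ext w
    rw [SimpleGraph.mem_neighborSet, igraph_adj]
    constructor
    · rintro ⟨i, rfl⟩
      exact ⟨(ho i).symm, i, j i, (hj i).symm⟩
    · rintro ⟨hvw, i, k, hik⟩
      refine ⟨i, ?_⟩
      have e1 := hall (inc v i) (v, i) rfl
      have e2 := hall (inc v i) (w, k) hik.symm
      have e3 := hall (inc v i) (o i, j i) (hj i)
      by_contra hne
      have hd1 : (v, i) ≠ (w, k) := fun h => hvw (congrArg Prod.fst h)
      have hd2 : (v, i) ≠ (o i, j i) := fun h => ho i (congrArg Prod.fst h).symm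
      have hd3 : (o i, j i) ≠ (w, k) := fun h => hne (congrArg Prod.fst h)
      rcases e1 with e1 | e1 <;> rcases e2 with e2 | e2 <;> rcases e3 with e3 | e3
      · exact hd1 (e1.trans e2.symm)
      · exact hd1 (e1.trans e2.symm)
      · exact hd2 (e1.trans e3.symm)
      · exact hd3 (e3.trans e2.symm)
      · exact hd3 (e3.trans e2.symm)
      · exact hd2 (e1.trans e3.symm)
      · exact hd1 (e1.trans e2.symm)
      · exact hd1 (e1.trans e2.symm)
  rw [← hrange, ← Set.image_univ, Set.ncard_image_of_injective _ hinjo, Set.ncard_univ]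

end simple

/-- the criterion for multigraphs -/
theorem crit {C : Type} [Fintype V] [Fintype E] [Fintype D] [Fintype C] (ρ : D ≃ C)
    (inc : V → D → E) (hends : ∀ e, Nat.card {q : V × D // inc q.1 q.2 = e} = 2)
    (hN : NN ρ inc ≠ 0) (L : E → Finset ℕ) (hL : ∀ e, Fintype.card D ≤ (L e).card) :
    ∃ f : E → ℕ, (∀ e, f e ∈ L e) ∧ ∀ v, Function.Injective (fun i => f (inc v i)) := by
  classical
  refine Pool.Agent.W440.LE.Crit.main Pool.Agent.W346.LE.CF.main V E D C ρ inc ?_ hN L hL
  intro e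
  rw [← hends e, Nat.card_eq_fintype_card]

end Pool.Agent.K4H93.CY
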