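import Mathlib
set_option autoImplicit false

/-! Parity identities for two commuting permutations (quadrangulations of the torus). -/

namespace Pool.Agent.K4H93.CY

open Finset

section

variable {V : Type} [Fintype V]

theorem eq_of_add : ∀ x y : ZMod 2, x + y = 0 → y = x := by decide

/-- the dual form of the exactness of the coboundary -/
theorem exists_potential (A : Equiv.Perm V) (q : V → ZMod 2)
    (h : ∀ w : V → ZMod 2, (∀ v, w (A v) = w v) → ∑ v, w v * q v = 0) :
    ∃ g : V → ZMod 2, ∀ v, g v + g (A.symm v) = q v := by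
  classical
  have : Fact (Nat.Prime 2) := ⟨Nat.prime_two⟩
  let T : (V → ZMod 2) →ₗ[ZMod 2] (V → ZMod 2) :=
    { toFun := fun g v => g v + g (A.symm v)
      map_add' := by
        intro g g'
        funext v
        simp only [Pi.add_apply]
        ring
      map_smul' := by
        intro c g
        funext v
        simp only [Pi.smul_apply, smul_eq_mul, RingHom.id_apply]
        ring }
  by_contra hne
  have hq : q ∉ LinearMap.range T := by
    rintro ⟨g, hg⟩
    exact hne ⟨g, fun v => congrFun hg v⟩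
  obtain ⟨f, hf, hf0⟩ := Submodule.exists_dual_map_eq_bot_of_notMem hq inferInstance
  have hT : ∀ g, f (T g) = 0 := by
    intro g
    have h1 : f (T g) ∈ Submodule.map f (LinearMap.range T) := ⟨T g, ⟨g, rfl⟩, rfl⟩
    rw [hf0] at h1
    exact h1
  apply hf
  rw [LinearMap.pi_apply_eq_sum_univ f q]
  have hw := h (fun i => f fun j => if i = j then 1 else 0) ?_
  · refine Eq.trans (Finset.sum_congr rfl fun v _ => ?_) hw
    rw [smul_eq_mul, mul_comm]
  · intro v
    have h1 := hT (fun j => if v = j then 1 else 0)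
    have h2 : T (fun j => if v = j then 1 else 0) =
        (fun j => if v = j then 1 else 0) + (fun j => if A v = j then 1 else 0) := by
      funext j
      show (if v = j then (1 : ZMod 2) else 0) + (if v = A.symm j then 1 else 0) = _ + _
      rw [Equiv.eq_symm_apply]
    rw [h2, map_add] at h1
    exact eq_of_add _ _ h1

theorem sum_shift {M : Type} [AddCommMonoid M] (F : V → M) (A : Equiv.Perm V) :
    ∑ v, F (A.symm v) = ∑ v, F v :=
  Equiv.sum_comp A.symm F

theorem sum_shift' {M : Type} [AddCommMonoid M] (F : V → M) (A : Equiv.Perm V) :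
    ∑ v, F (A v) = ∑ v, F v :=
  Equiv.sum_comp A F

/-- the only common invariant functions are the constants -/
def Trans (A B : Equiv.Perm V) : Prop :=
  ∀ W : V → ZMod 2, (∀ v, W (A v) = W v) → (∀ v, W (B v) = W v) → ∀ u v, W u = W v

/-- orthogonality to the invariant functions -/
theorem orth (A B : Equiv.Perm V) (hAB : ∀ v, A (B v) = B (A v)) (htr : Trans A B)
    (g s : ℕ) (hg : Odd g) (hgs : ∀ v, (B ^ g) v = (A ^ s) v) (p q : V → ZMod 2)
    (h : ∀ v, p v + p (A.symm v) + q v + q (B.symm v) = 0)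
    (hq : ∑ v, q v = 0) (w : V → ZMod 2) (hw : ∀ v, w (A v) = w v) : ∑ v, w v * q v = 0 := by
  have two : ∀ x : ZMod 2, x + x = 0 := by decide
  have key : ∀ w : V → ZMod 2, (∀ v, w (A v) = w v) →
      ∑ v, w (B v) * q v = ∑ v, w v * q v := by
    intro w hw
    have h1 : ∑ v, w v * (p v + p (A.symm v) + q v + q (B.symm v)) = 0 := by
      refine Finset.sum_eq_zero fun v _ => ?_
      rw [h, mul_zero]
    simp only [mul_add, Finset.sum_add_distrib] at h1
    have h2 : ∑ v, w v * p (A.symm v) = ∑ v, w v * p v := by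
      rw [← sum_shift (fun v => w v * p v) A]
      refine Finset.sum_congr rfl fun v _ => ?_
      have h3 := hw (A.symm v)
      rw [Equiv.apply_symm_apply] at h3
      rw [h3]
    have h3 : ∑ v, w v * q (B.symm v) = ∑ v, w (B v) * q v := by
      rw [← sum_shift (fun v => w (B v) * q v) B]
      refine Finset.sum_congr rfl fun v _ => ?_
      rw [Equiv.apply_symm_apply]
    rw [h2, two, zero_add, h3] at h1
    exact eq_of_add _ _ h1
  have hcomm : ∀ (j : ℕ) (v : V), (B ^ j) (A v) = A ((B ^ j) v) := by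
    intro j
    induction j with
    | zero => intro v; rfl
    | succ j ih =>
      intro v
      rw [pow_succ', Equiv.Perm.mul_apply, Equiv.Perm.mul_apply, ih, hAB]
  have key2 : ∀ j : ℕ, ∑ v, w ((B ^ j) v) * q v = ∑ v, w v * q v := by
    intro j
    induction j with
    | zero => rfl
    | succ j ih =>
      rw [← ih, ← key (fun v => w ((B ^ j) v))]
      · refine Finset.sum_congr rfl fun v _ => ?_
        show w ((B ^ (j + 1)) v) * q v = w ((B ^ j) (B v)) * q v
        rw [pow_succ, Equiv.Perm.mul_apply]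
      · intro v
        show w ((B ^ j) (A v)) = w ((B ^ j) v)
        rw [hcomm, hw]
  let W : V → ZMod 2 := fun v => ∑ j ∈ range g, w ((B ^ j) v)
  have hWa : ∀ v, W (A v) = W v := by
    intro v
    refine Finset.sum_congr rfl fun j _ => ?_
    rw [hcomm, hw]
  have hws : ∀ s : ℕ, ∀ v, w ((A ^ s) v) = w v := by
    intro s
    induction s with
    | zero => intro v; rfl
    | succ s ih =>
      intro v
      rw [pow_succ', Equiv.Perm.mul_apply, hw, ih]
  have hWb : ∀ v, W (B v) = W v := by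
    intro v
    have h1 : W (B v) = ∑ j ∈ range g, w ((B ^ (j + 1)) v) := by
      refine Finset.sum_congr rfl fun j _ => ?_
      rw [pow_succ, Equiv.Perm.mul_apply]
    have h2 := Finset.sum_range_succ' (fun j => w ((B ^ j) v)) g
    have h3 := Finset.sum_range_succ (fun j => w ((B ^ j) v)) g
    rw [h1]
    rw [h2] at h3
    have h4 : w ((B ^ g) v) = w v := by rw [hgs]; exact hws s v
    rw [h4] at h3
    exact add_right_cancel h3
  have hsum : ∑ v, W v * q v = (g : ZMod 2) * ∑ v, w v * q v := by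
    have h1 : ∑ v, W v * q v = ∑ j ∈ range g, ∑ v, w ((B ^ j) v) * q v := by
      rw [Finset.sum_comm]
      refine Finset.sum_congr rfl fun v _ => ?_
      rw [Finset.sum_mul]
    rw [h1, Finset.sum_congr rfl fun j _ => key2 j, Finset.sum_const, card_range, nsmul_eq_mul]
  have hsum2 : ∑ v, W v * q v = 0 := by
    rcases isEmpty_or_nonempty V with hV | ⟨⟨v0⟩⟩
    · simp
    · rw [Finset.sum_congr rfl fun v _ => by rw [htr W hWa hWb v v0], ← Finset.mul_sum, hq, mul_zero]
  have hg1 : (g : ZMod 2) = 1 := by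
    obtain ⟨k, rfl⟩ := hg
    push_cast
    have h2 : (2 : ZMod 2) = 0 := rfl
    rw [h2]
    ring
  rw [hsum, hg1, one_mul] at hsum2
  exact hsum2

/-- a colour class has an even number of edges in the direction `B` -/
theorem even_class (A B : Equiv.Perm V) (e : V → ℤ) (he : ∀ v, e (A v) = 1 - e v)
    (he' : ∀ v, e (B v) = e v) (R U : V → ℤ)
    (h : ∀ v, R v + R (A.symm v) + U v + U (B.symm v) = 1) :
    ∑ v, U v = 2 * ∑ v, e v * U v := by
  have h1 : ∑ v, e v * (R v + R (A.symm v) + U v + U (B.symm v)) = ∑ v, e v := by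
    refine Finset.sum_congr rfl fun v _ => ?_
    rw [h, mul_one]
  have h2 : ∑ v, (R v + R (A.symm v) + U v + U (B.symm v)) = ∑ _v : V, (1 : ℤ) :=
    Finset.sum_congr rfl fun v _ => h v
  simp only [mul_add, Finset.sum_add_distrib] at h1 h2
  rw [sum_shift R A, sum_shift U B] at h2
  have h3 : ∑ v, e v * R (A.symm v) = ∑ v, R v - ∑ v, e v * R v := by
    rw [← sum_shift' (fun v => e v * R (A.symm v)) A, ← Finset.sum_sub_distrib]
    refine Finset.sum_congr rfl fun v _ => ?_
    rw [Equiv.symm_apply_apply, he]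
    ring
  have h4 : ∑ v, e v * U (B.symm v) = ∑ v, e v * U v := by
    rw [← sum_shift' (fun v => e v * U (B.symm v)) B]
    refine Finset.sum_congr rfl fun v _ => ?_
    rw [Equiv.symm_apply_apply, he']
  have h5 : ∑ v, e v = ∑ _v : V, (1 : ℤ) - ∑ v, e v := by
    rw [← Finset.sum_sub_distrib, ← sum_shift' e A]
    exact Finset.sum_congr rfl fun v _ => he v
  rw [h3, h4] at h1
  linarith

/-- telescoping -/
theorem sum_tel (F : V → ZMod 2) (A : Equiv.Perm V) : ∑ v, (F v + F (A.symm v)) = 0 := by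
  have two : ∀ x : ZMod 2, x + x = 0 := by decide
  rw [Finset.sum_add_distrib, sum_shift, two]

/-- the bilinear form of the signs -/
def al (s t s' t' : ZMod 2) : ZMod 2 := s * s' + t * t' + s * t'

/-- the main identity: `h` is a potential of `q` and `κ` the remainder -/
theorem main_id (A B : Equiv.Perm V) (hAB : ∀ v, B.symm (A.symm v) = A.symm (B.symm v))
    (e : V → ZMod 2) (he : ∀ v, e (A.symm v) = 1 + e v)
    (he' : ∀ v, e (B.symm v) = e v) (h₁ h₂ κ₁ κ₂ : V → ZMod 2) (hκ₁ : ∀ v, κ₁ (A.symm v) = κ₁ v)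
    (hκ₂ : ∀ v, κ₂ (A.symm v) = κ₂ v) :
    ∑ v, (al (h₁ (A.symm v) + h₁ (B.symm v) + κ₁ v) (h₂ (A.symm v) + h₂ (B.symm v) + κ₂ v)
        (h₁ v + h₁ (A.symm (B.symm v)) + κ₁ v) (h₂ v + h₂ (A.symm (B.symm v)) + κ₂ v) +
      e v * ((h₁ v + h₁ (A.symm (B.symm v)) + κ₁ v) * (h₂ (A.symm v) + h₂ (B.symm v) + κ₂ v) +
        (h₂ v + h₂ (A.symm (B.symm v)) + κ₂ v) * (h₁ (A.symm v) + h₁ (B.symm v) + κ₁ v)) +
      (h₁ v + h₁ (A.symm v)) * (h₂ v + h₂ (A.symm v))) = 0 := by
  -- the functions whose differences telescope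
  let G1 : V → ZMod 2 := fun v => al (h₁ v) (h₂ v) (h₁ (B.symm v)) (h₂ (B.symm v))
  let G2 : V → ZMod 2 := fun v => al (h₁ v) (h₂ v) (h₁ (A.symm v)) (h₂ (A.symm v))
  let G3 : V → ZMod 2 := fun v => al (h₁ v) (h₂ v) (κ₁ v) (κ₂ v)
  let G4 : V → ZMod 2 := fun v => al (κ₁ v) (κ₂ v) (h₁ (B.symm v)) (h₂ (B.symm v))
  let G5 : V → ZMod 2 := fun v => e v * (h₁ v * h₂ (A.symm v) + h₂ v * h₁ (A.symm v))
  let G6 : V → ZMod 2 := fun v => (e v + 1) * (h₁ v * h₂ (B.symm v) + h₂ v * h₁ (B.symm v))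
  let G8 : V → ZMod 2 := fun v => (e v + 1) * ((h₁ v + h₁ (B.symm v)) * κ₂ v +
    (h₂ v + h₂ (B.symm v)) * κ₁ v)
  let G10 : V → ZMod 2 := fun v => e v * al (κ₁ v) (κ₂ v) (κ₁ v) (κ₂ v)
  let G11 : V → ZMod 2 := fun v => h₁ v * h₂ v
  have hpt : ∀ v, (al (h₁ (A.symm v) + h₁ (B.symm v) + κ₁ v) (h₂ (A.symm v) + h₂ (B.symm v) + κ₂ v)
        (h₁ v + h₁ (A.symm (B.symm v)) + κ₁ v) (h₂ v + h₂ (A.symm (B.symm v)) + κ₂ v) +
      e v * ((h₁ v + h₁ (A.symm (B.symm v)) + κ₁ v) * (h₂ (A.symm v) + h₂ (B.symm v) + κ₂ v) +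
        (h₂ v + h₂ (A.symm (B.symm v)) + κ₂ v) * (h₁ (A.symm v) + h₁ (B.symm v) + κ₁ v)) +
      (h₁ v + h₁ (A.symm v)) * (h₂ v + h₂ (A.symm v))) =
      (G1 v + G1 (A.symm v)) + (G2 v + G2 (B.symm v)) + (G3 v + G3 (A.symm v)) +
        (G4 v + G4 (A.symm v)) + (G5 v + G5 (B.symm v)) + (G6 v + G6 (A.symm v)) +
        (G8 v + G8 (A.symm v)) + (G10 v + G10 (A.symm v)) + (G11 v + G11 (A.symm v)) := by
    intro v
    simp only [G1, G2, G3, G4, G5, G6, G8, G10, G11, al, hAB, he, he', hκ₁, hκ₂]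
    generalize h₁ v = x1
    generalize h₂ v = x2
    generalize h₁ (A.symm v) = y1
    generalize h₂ (A.symm v) = y2
    generalize h₁ (B.symm v) = z1
    generalize h₂ (B.symm v) = z2
    generalize h₁ (A.symm (B.symm v)) = w1
    generalize h₂ (A.symm (B.symm v)) = w2
    generalize κ₁ v = k1
    generalize κ₂ v = k2
    generalize e v = f
    ring_nf
    reduce_mod_char
  rw [Finset.sum_congr rfl fun v _ => hpt v]
  rw [Finset.sum_add_distrib, Finset.sum_add_distrib, Finset.sum_add_distrib,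
    Finset.sum_add_distrib, Finset.sum_add_distrib, Finset.sum_add_distrib,
    Finset.sum_add_distrib, Finset.sum_add_distrib]
  rw [sum_tel G1, sum_tel G2, sum_tel G3, sum_tel G4, sum_tel G5, sum_tel G6, sum_tel G8,
    sum_tel G10, sum_tel G11]
  simp

end

end Pool.Agent.K4H93.CY
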