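import Pool.Agent.K4H93.CY.TorA
set_option autoImplicit false

/-! The signs of the 4-edge-colourings of the Cayley graphs of abelian groups with two generators. -/

namespace Pool.Agent.K4H93.CY

open Finset

/-- sign of the difference -/
def sd (x y : Fin 4) : ℤ := if x = y then 0 else if x < y then 1 else -1

/-- the sign of a sequence of four colours -/
def s4 (a b c d : Fin 4) : ℤ := sd a b * sd a c * sd a d * sd b c * sd b d * sd c d

/-- the first bit of a colour -/
def u1 (x : Fin 4) : ZMod 2 := if x = 1 ∨ x = 3 then 1 else 0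

/-- the second bit of a colour -/
def u2 (x : Fin 4) : ZMod 2 := if x = 2 ∨ x = 3 then 1 else 0

/-- the character of `ZMod 2` -/
def chi (x : ZMod 2) : ℤ := if x = 0 then 1 else -1

theorem chi_add : ∀ x y : ZMod 2, chi (x + y) = chi x * chi y := by decide

theorem chi_ne : ∀ x : ZMod 2, chi x ≠ 0 := by decide

theorem chi_sum {ι : Type} (s : Finset ι) (F : ι → ZMod 2) : ∏ v ∈ s, chi (F v) = chi (∑ v ∈ s, F v) := by
  classical
  induction s using Finset.induction_on with
  | empty => rfl
  | insert v s hv ih => rw [Finset.prod_insert hv, Finset.sum_insert hv, ih, chi_add]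

theorem col_facts : ∀ R L U D : Fin 4, s4 R L U D ≠ 0 →
    u1 R + u1 L + u1 U + u1 D = 0 ∧ u2 R + u2 L + u2 U + u2 D = 0 ∧
    (u1 L + u1 U) * (u2 R + u2 U) + (u2 L + u2 U) * (u1 R + u1 U) = 1 ∧
    s4 R L U D = chi (al (u1 R + u1 U) (u2 R + u2 U) (u1 L + u1 U) (u2 L + u2 U) + 1) ∧
    ∀ i : Fin 4, (if R = i then (1 : ℤ) else 0) + (if L = i then 1 else 0) + (if U = i then 1 else 0) +
      (if D = i then 1 else 0) = 1 := by
  decide +kernel

section

variable {V : Type} [Fintype V]

/-- **All 4-edge-colourings have the same sign.** `p v` and `q v` are the colours of the edges from `v`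
to `A v` and to `B v`. -/
theorem sign_const (A B : Equiv.Perm V) (hAB : ∀ v, A (B v) = B (A v)) (htr : Trans A B)
    (g s : ℕ) (hg : Odd g) (hgs : ∀ v, (B ^ g) v = (A ^ s) v) (φ : V → ZMod 2)
    (ha : ∀ v, φ (A v) = φ v + 1) (hb : ∀ v, φ (B v) = φ v) (p q : V → Fin 4)
    (h : ∀ v, s4 (p v) (p (A.symm v)) (q v) (q (B.symm v)) ≠ 0) :
    ∏ v, s4 (p v) (p (A.symm v)) (q v) (q (B.symm v)) = chi (∑ v, φ v) := by
  have two : ∀ x : ZMod 2, x + x = 0 := by decide
  have hab : ∀ v, B.symm (A.symm v) = A.symm (B.symm v) := by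
    intro v
    rw [Equiv.symm_apply_eq, Equiv.symm_apply_eq, hAB, Equiv.apply_symm_apply,
      Equiv.apply_symm_apply]
  have ha' : ∀ v, φ (A.symm v) = 1 + φ v := by
    intro v
    have h1 := ha (A.symm v)
    rw [Equiv.apply_symm_apply] at h1
    rw [h1]
    generalize φ (A.symm v) = x
    revert x
    decide
  have hb' : ∀ v, φ (B.symm v) = φ v := by
    intro v
    have h1 := hb (B.symm v)
    rw [Equiv.apply_symm_apply] at h1
    exact h1.symm
  -- the colour classes
  have hcls : ∀ i : Fin 4, ((∑ v, (if q v = i then (1 : ℤ) else 0) : ℤ) : ZMod 2) = 0 := by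
    intro i
    have h01 : ∀ x : ZMod 2, (if x + 1 = 0 then (1 : ℤ) else 0) = 1 - (if x = 0 then 1 else 0) := by
      decide
    have h1 := even_class A B (fun v => if φ v = 0 then (1 : ℤ) else 0) ?_ ?_
      (fun v => if p v = i then (1 : ℤ) else 0) (fun v => if q v = i then (1 : ℤ) else 0)
      (fun v => (col_facts _ _ _ _ (h v)).2.2.2.2 i)
    · rw [h1]
      push_cast
      have h2 : (2 : ZMod 2) = 0 := rfl
      rw [h2, zero_mul]
    · intro v
      simp only [ha]
      exact h01 _
    · intro v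
      simp only [hb]
  have hbit1 : ∀ x : Fin 4, u1 x = ((if x = 1 then (1 : ℤ) else 0 : ℤ) : ZMod 2) +
      ((if x = 3 then (1 : ℤ) else 0 : ℤ) : ZMod 2) := by decide
  have hbit2 : ∀ x : Fin 4, u2 x = ((if x = 2 then (1 : ℤ) else 0 : ℤ) : ZMod 2) +
      ((if x = 3 then (1 : ℤ) else 0 : ℤ) : ZMod 2) := by decide
  have hbit3 : ∀ x : Fin 4, u1 x * u2 x = ((if x = 3 then (1 : ℤ) else 0 : ℤ) : ZMod 2) := by decide
  have hcls' : ∀ i : Fin 4, ∑ v, ((if q v = i then (1 : ℤ) else 0 : ℤ) : ZMod 2) = 0 := by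
    intro i
    rw [← hcls i]
    push_cast
    rfl
  have hs1 : ∑ v, u1 (q v) = 0 := by
    rw [Finset.sum_congr rfl fun v _ => hbit1 (q v), Finset.sum_add_distrib, hcls', hcls', add_zero]
  have hs2 : ∑ v, u2 (q v) = 0 := by
    rw [Finset.sum_congr rfl fun v _ => hbit2 (q v), Finset.sum_add_distrib, hcls', hcls', add_zero]
  have hs3 : ∑ v, u1 (q v) * u2 (q v) = 0 := by
    rw [Finset.sum_congr rfl fun v _ => hbit3 (q v), hcls']
  -- potentials
  obtain ⟨h₁, hh₁⟩ := exists_potential A (fun v => u1 (q v)) (orth A B hAB htr g s hg hgs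
    (fun v => u1 (p v)) (fun v => u1 (q v)) (fun v => (col_facts _ _ _ _ (h v)).1) hs1)
  obtain ⟨h₂, hh₂⟩ := exists_potential A (fun v => u2 (q v)) (orth A B hAB htr g s hg hgs
    (fun v => u2 (p v)) (fun v => u2 (q v)) (fun v => (col_facts _ _ _ _ (h v)).2.1) hs2)
  -- the remainders
  have hrem : ∀ (P Q H : V → ZMod 2), (∀ v, P v + P (A.symm v) + Q v + Q (B.symm v) = 0) →
      (∀ v, H v + H (A.symm v) = Q v) →
      (∀ v, (P (A.symm v) + H (A.symm v) + H (B.symm (A.symm v))) = (P v + H v + H (B.symm v))) ∧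
      (∀ v, H (A.symm v) + H (B.symm v) + (P v + H v + H (B.symm v)) = P v + Q v) ∧
      (∀ v, H v + H (A.symm (B.symm v)) + (P v + H v + H (B.symm v)) = P (A.symm v) + Q v) := by
    intro P Q H h1 h2
    have h3 : ∀ v, P v + P (A.symm v) + (H v + H (A.symm v)) +
        (H (B.symm v) + H (A.symm (B.symm v))) = 0 := by
      intro v
      rw [h2, h2]
      exact h1 v
    refine ⟨fun v => ?_, fun v => ?_, fun v => ?_⟩
    · have h4 := h3 v
      rw [hab]
      generalize P v = x1 at *
      generalize P (A.symm v) = x2 at *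
      generalize H v = x3 at *
      generalize H (A.symm v) = x4 at *
      generalize H (B.symm v) = x5 at *
      generalize H (A.symm (B.symm v)) = x6 at *
      clear h1 h2 h3
      revert x1 x2 x3 x4 x5 x6
      decide
    · rw [← h2 v]
      generalize P v = x1
      generalize H v = x3
      generalize H (A.symm v) = x4
      generalize H (B.symm v) = x5
      ring_nf
      reduce_mod_char
    · rw [← h2 v]
      have h4 := h3 v
      generalize P v = x1 at *
      generalize P (A.symm v) = x2 at *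
      generalize H v = x3 at *
      generalize H (A.symm v) = x4 at *
      generalize H (B.symm v) = x5 at *
      generalize H (A.symm (B.symm v)) = x6 at *
      clear h1 h2 h3
      revert x1 x2 x3 x4 x5 x6
      decide
  obtain ⟨k1, k2, k3⟩ := hrem (fun v => u1 (p v)) (fun v => u1 (q v)) h₁
    (fun v => (col_facts _ _ _ _ (h v)).1) hh₁
  obtain ⟨l1, l2, l3⟩ := hrem (fun v => u2 (p v)) (fun v => u2 (q v)) h₂
    (fun v => (col_facts _ _ _ _ (h v)).2.1) hh₂
  have hm := main_id A B hab φ ha' hb' h₁ h₂ (fun v => u1 (p v) + h₁ v + h₁ (B.symm v))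
    (fun v => u2 (p v) + h₂ v + h₂ (B.symm v)) k1 l1
  simp only [k2, k3, l2, l3, hh₁, hh₂] at hm
  simp only [(col_facts _ _ _ _ (h _)).2.2.1, mul_one] at hm
  rw [Finset.sum_add_distrib, hs3, add_zero, Finset.sum_add_distrib] at hm
  have hone : ∑ _v : V, (1 : ZMod 2) = 0 := by
    have h1 := sum_tel φ A
    rw [← h1]
    refine Finset.sum_congr rfl fun v _ => ?_
    rw [ha']
    generalize φ v = x
    revert x
    decide
  rw [Finset.prod_congr rfl fun v _ => (col_facts _ _ _ _ (h v)).2.2.2.1, chi_sum,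
    Finset.sum_add_distrib, hone, add_zero, eq_of_add _ _ hm]

end

end Pool.Agent.K4H93.CY
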