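import Pool.Agent.K4H93.CY.TorB
import Pool.Agent.K4H93.CY.Circ
set_option autoImplicit false

/-! The Alon-Tarsi condition for the Cayley graphs of abelian groups with two generators. -/

namespace Pool.Agent.K4H93.CY

open Finset Pool.Agent.W426.LE

/-- reference numbering of the four ends at a vertex -/
def rho4 : Bool × Bool ≃ Fin 4 where
  toFun q := match q with
    | (true, true) => 0
    | (true, false) => 1
    | (false, true) => 2
    | (false, false) => 3
  invFun x := if x = 0 then (true, true) else if x = 1 then (true, false) else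
    if x = 2 then (false, true) else (false, false)
  left_inv q := by
    rcases q with ⟨_ | _, _ | _⟩ <;> rfl
  right_inv x := by
    fin_cases x <;> rfl

theorem sign_s4 : ∀ κ : Equiv.Perm (Fin 4),
    ((Equiv.Perm.sign κ : ℤˣ) : ℤ) = s4 (κ 0) (κ 1) (κ 2) (κ 3) := by
  decide +kernel

theorem s4_zero : ∀ a b c d : Fin 4, (a = b ∨ a = c ∨ a = d ∨ b = c ∨ b = d ∨ c = d) →
    s4 a b c d = 0 := by
  decide +kernel

theorem sg_s4 (f : Bool × Bool → Fin 4) :
    sg rho4 f = s4 (f (true, true)) (f (true, false)) (f (false, true)) (f (false, false)) := by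
  classical
  by_cases h : Function.Bijective f
  · obtain ⟨e, rfl⟩ := exists_equiv f h
    rw [sg_equiv]
    have h1 := sign_s4 (rho4.symm.trans e)
    have h2 := Equiv.Perm.sign_symm_trans_trans (e.trans rho4.symm : Equiv.Perm (Bool × Bool)) rho4
    have h3 : (rho4.symm.trans ((e.trans rho4.symm : Equiv.Perm (Bool × Bool)))).trans rho4 =
        rho4.symm.trans e := by
      ext x
      simp
    rw [h3] at h2
    have hs' : ∀ (i1 i2 : DecidableEq (Bool × Bool)) (τ : Equiv.Perm (Bool × Bool)),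
        ((@Equiv.Perm.sign _ i1 _ τ : ℤˣ) : ℤ) = ((@Equiv.Perm.sign _ i2 _ τ : ℤˣ) : ℤ) :=
      fun i1 i2 τ => by rw [Subsingleton.elim i1 i2]
    rw [hs' _ (inferInstance : DecidableEq (Bool × Bool)), ← h2, h1]
    rfl
  · rw [sg_of_not _ _ h]
    symm
    apply s4_zero
    by_contra hne
    push Not at hne
    obtain ⟨h1, h2, h3, h4, h5, h6⟩ := hne
    apply h
    have hinj : Function.Injective f := by
      rintro ⟨_ | _, _ | _⟩ ⟨_ | _, _ | _⟩ hab
      · rfl
      · exact (h6 hab.symm).elim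
      · exact (h5 hab.symm).elim
      · exact (h3 hab.symm).elim
      · exact (h6 hab).elim
      · rfl
      · exact (h4 hab.symm).elim
      · exact (h2 hab.symm).elim
      · exact (h5 hab).elim
      · exact (h4 hab).elim
      · rfl
      · exact (h1 hab.symm).elim
      · exact (h3 hab).elim
      · exact (h2 hab).elim
      · exact (h1 hab).elim
      · rfl
    refine ⟨hinj, ?_⟩
    exact (Finite.injective_iff_surjective_of_equiv rho4).1 hinj

section

variable {V : Type}

/-- the edge `(true, v)` joins `v` and `A v`, the edge `(false, v)` joins `v` and `B v` -/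
def tinc (A B : Equiv.Perm V) : V → Bool × Bool → Bool × V := fun v q =>
  (q.1, if q.2 = true then v else (if q.1 = true then A.symm v else B.symm v))

/-- the neighbours -/
def tdir (A B : Equiv.Perm V) (v : V) (q : Bool × Bool) : V :=
  if q.1 = true then (if q.2 = true then A v else A.symm v) else
    (if q.2 = true then B v else B.symm v)

theorem tinc_eq_iff (A B : Equiv.Perm V) (v w : V) (i j : Bool × Bool) :
    tinc A B v i = tinc A B w j ↔ (i = j ∧ v = w) ∨ (i.1 = j.1 ∧ i.2 ≠ j.2 ∧ w = tdir A B v i) := by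
  obtain ⟨s, t⟩ := i
  obtain ⟨s', t'⟩ := j
  unfold tinc tdir
  cases s <;> cases t <;> cases s' <;> cases t' <;>
    simp [Equiv.eq_symm_apply, eq_comm]

theorem tdir_ne (A B : Equiv.Perm V) (v : V) (hd : Function.Injective (tdir A B v))
    (i : Bool × Bool) : tdir A B v i ≠ v := by
  intro h
  have h1 : tdir A B v (i.1, !i.2) = v := by
    obtain ⟨s, t⟩ := i
    cases s <;> cases t <;> simp [tdir, Equiv.symm_apply_eq] at h ⊢ <;> exact h.symm
  have h2 := hd (h1.trans h.symm)
  obtain ⟨s, t⟩ := i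
  cases t <;> simp at h2

theorem tinc_simple (A B : Equiv.Perm V) (hd : ∀ v, Function.Injective (tdir A B v)) :
    SimpleInc (tinc A B) := by
  refine ⟨?_, ?_⟩
  · intro v i j hij
    rcases (tinc_eq_iff A B v v i j).1 hij with ⟨h, -⟩ | ⟨-, -, h⟩
    · exact h
    · exact absurd h.symm (tdir_ne A B v (hd v) i)
  · intro v w i i' j j' hne h h'
    rcases (tinc_eq_iff A B v w i j).1 h with ⟨-, h1⟩ | ⟨-, -, h1⟩
    · exact absurd h1 hne
    · rcases (tinc_eq_iff A B v w i' j').1 h' with ⟨-, h2⟩ | ⟨-, -, h2⟩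
      · exact absurd h2 hne
      · rw [h1] at h2
        exact hd v h2

theorem tinc_ends (A B : Equiv.Perm V) (e : Bool × V) :
    Nat.card {q : V × (Bool × Bool) // tinc A B q.1 q.2 = e} = 2 := by
  have h1 : Nat.card {q : V × (Bool × Bool) // tinc A B q.1 q.2 = e} = Nat.card Bool := by
    refine Nat.card_congr
      { toFun := fun q => q.1.2.2
        invFun := fun t => ⟨(if t = true then e.2 else (if e.1 = true then A e.2 else B e.2), (e.1, t)), ?_⟩
        left_inv := ?_
        right_inv := fun b => rfl }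
    · refine Prod.ext rfl ?_
      obtain ⟨s, x⟩ := e
      cases t <;> cases s <;> simp [tinc]
    · rintro ⟨⟨v, s, t⟩, hq⟩
      subst hq
      cases t <;> cases s <;> simp [tinc]
  rw [h1, Nat.card_eq_fintype_card, Fintype.card_bool]

theorem igraph_tinc (A B : Equiv.Perm V) (v w : V) :
    (igraph (tinc A B)).Adj v w ↔ v ≠ w ∧ ∃ i, w = tdir A B v i := by
  rw [igraph_adj]
  refine and_congr_right fun hne => ?_
  constructor
  · rintro ⟨i, j, hij⟩
    rcases (tinc_eq_iff A B v w i j).1 hij with ⟨-, h⟩ | ⟨-, -, h⟩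
    · exact absurd h hne
    · exact ⟨i, h⟩
  · rintro ⟨i, hi⟩
    exact ⟨i, (i.1, !i.2), (tinc_eq_iff A B v w _ _).2 (Or.inr ⟨rfl, by simp, hi⟩)⟩

theorem NN_tinc [Fintype V] (A B : Equiv.Perm V) (hAB : ∀ v, A (B v) = B (A v)) (htr : Trans A B)
    (g s : ℕ) (hg : Odd g) (hgs : ∀ v, (B ^ g) v = (A ^ s) v) (φ : V → ZMod 2)
    (ha : ∀ v, φ (A v) = φ v + 1) (hb : ∀ v, φ (B v) = φ v) (x₀ : Bool × V → Fin 4)
    (hx₀ : ∀ v, sg rho4 (fun i => x₀ (tinc A B v i)) ≠ 0) : NN rho4 (tinc A B) ≠ 0 := by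
  classical
  have hval : ∀ (x : Bool × V → Fin 4) (v : V), sg rho4 (fun i => x (tinc A B v i)) =
      s4 (x (true, v)) (x (true, A.symm v)) (x (false, v)) (x (false, B.symm v)) :=
    fun x v => sg_s4 _
  have hterm : ∀ x : Bool × V → Fin 4, (∀ v, sg rho4 (fun i => x (tinc A B v i)) ≠ 0) →
      ∏ v, sg rho4 (fun i => x (tinc A B v i)) = chi (∑ v, φ v) := by
    intro x hx
    rw [Finset.prod_congr rfl fun v _ => hval x v]
    exact sign_const A B hAB htr g s hg hgs φ ha hb (fun v => x (true, v)) (fun v => x (false, v))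
      (fun v => by rw [← hval]; exact hx v)
  have h1 : NN rho4 (tinc A B) = ∑ x : Bool × V → Fin 4,
      if (∀ v, sg rho4 (fun i => x (tinc A B v i)) ≠ 0) then chi (∑ v, φ v) else 0 := by
    unfold NN
    refine Finset.sum_congr (Finset.ext fun x => by simp) fun x _ => ?_
    split_ifs with h
    · exact hterm x h
    · push Not at h
      obtain ⟨v, hv⟩ := h
      exact Finset.prod_eq_zero (Finset.mem_univ v) hv
  rw [h1, ← Finset.sum_filter, Finset.sum_const, nsmul_eq_mul]
  refine mul_ne_zero ?_ (chi_ne _)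
  rw [Nat.cast_ne_zero, ← Nat.pos_iff_ne_zero, Finset.card_pos]
  exact ⟨x₀, Finset.mem_filter.2 ⟨Finset.mem_univ _, hx₀⟩⟩

/-- a colouring with four colours -/
theorem exists_col (A B : Equiv.Perm V) (hAB : ∀ v, A (B v) = B (A v)) (φ : V → ZMod 2)
    (ha : ∀ v, φ (A v) = φ v + 1) (hb : ∀ v, φ (B v) = φ v) (c : V → Fin 3)
    (hc : ∀ v, c v ≠ c (B.symm v)) :
    ∃ x₀ : Bool × V → Fin 4, ∀ v, sg rho4 (fun i => x₀ (tinc A B v i)) ≠ 0 := by
  have hab : ∀ v, A.symm (B.symm v) = B.symm (A.symm v) := by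
    intro v
    rw [Equiv.symm_apply_eq, Equiv.symm_apply_eq, ← hAB, Equiv.apply_symm_apply,
      Equiv.apply_symm_apply]
  have ha' : ∀ v, φ (A.symm v) = φ v + 1 := by
    intro v
    have h1 := ha (A.symm v)
    rw [Equiv.apply_symm_apply] at h1
    rw [h1]
    generalize φ (A.symm v) = x
    revert x
    decide
  have hb' : ∀ v, φ (B.symm v) = φ v := by
    intro v
    have h1 := hb (B.symm v)
    rw [Equiv.apply_symm_apply] at h1
    exact h1.symm
  have h01 : ∀ x : ZMod 2, x = 0 ∨ x = 1 := by decide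
  have hdec : ∀ s t : Fin 3, s ≠ t → s4 (Fin.succ (-(s + t))) 0 (Fin.succ s) (Fin.succ t) ≠ 0 ∧
      s4 0 (Fin.succ (-(s + t))) (Fin.succ s) (Fin.succ t) ≠ 0 := by
    decide
  refine ⟨fun e => if e.1 = true then (if φ e.2 = 0 then Fin.succ (-(c e.2 + c (B.symm e.2))) else 0)
    else (if φ e.2 = 0 then Fin.succ (c e.2) else Fin.succ (c (A.symm e.2))), fun v => ?_⟩
  rw [sg_s4]
  show s4 (if φ v = 0 then Fin.succ (-(c v + c (B.symm v))) else 0)
    (if φ (A.symm v) = 0 then Fin.succ (-(c (A.symm v) + c (B.symm (A.symm v)))) else 0)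
    (if φ v = 0 then Fin.succ (c v) else Fin.succ (c (A.symm v)))
    (if φ (B.symm v) = 0 then Fin.succ (c (B.symm v)) else Fin.succ (c (A.symm (B.symm v)))) ≠ 0
  rcases h01 (φ v) with h | h
  · rw [if_pos h, if_neg (by rw [ha', h]; decide), if_pos h, if_pos (by rw [hb', h])]
    exact (hdec _ _ (hc v)).1
  · rw [if_neg (by rw [h]; decide), if_pos (by rw [ha', h]; decide), if_neg (by rw [h]; decide),
      if_neg (by rw [hb', h]; decide), hab]
    exact (hdec _ _ (hc (A.symm v))).2

end

end Pool.Agent.K4H93.CY
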