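import Pool.Agent.K4H93.CY.TorC
import Pool.Agent.K4H76.LR.Levels
set_option autoImplicit false

/-! Quadrangulations of the torus: the Alon-Tarsi condition and Galvin's theorem. -/

namespace Pool.Agent.K4H93.CY

open Finset Pool.Agent.W426.LE

/-- the cycles of a permutation without fixed points can be coloured with three colours -/
theorem exists_three {V : Type} [Finite V] (B : Equiv.Perm V) (hB : ∀ v, B v ≠ v) :
    ∃ c : V → Fin 3, ∀ v, c v ≠ c (B.symm v) := by
  classical
  let σ := Equiv.Perm.SameCycle.setoid B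
  let r : V → V := fun v => Quotient.out (Quotient.mk σ v)
  have hr : ∀ v, ∃ k : ℕ, (B ^ k) (r v) = v := by
    intro v
    have h1 : B.SameCycle (r v) v := Quotient.exact (Quotient.out_eq (Quotient.mk σ v))
    exact h1.exists_nat_pow_eq
  have hrb : ∀ v, r (B.symm v) = r v := by
    intro v
    have h1 : Quotient.mk σ (B.symm v) = Quotient.mk σ v := by
      apply Quotient.sound
      exact ⟨1, by simp⟩
    show Quotient.out (Quotient.mk σ (B.symm v)) = _
    rw [h1]
  let j : V → ℕ := fun v => Nat.find (hr v)
  have hj : ∀ v, (B ^ j v) (r v) = v := fun v => Nat.find_spec (hr v)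
  have hmin : ∀ v k, (B ^ k) (r v) = v → j v ≤ k := fun v k h => Nat.find_min' (hr v) h
  have hstep : ∀ v, v ≠ r v → j v = j (B.symm v) + 1 := by
    intro v hv
    have h0 : j v ≠ 0 := by
      intro h
      have h1 := hj v
      rw [h, pow_zero, Equiv.Perm.one_apply] at h1
      exact hv h1.symm
    obtain ⟨m, hm⟩ := Nat.exists_eq_succ_of_ne_zero h0
    have h1 : j (B.symm v) ≤ m := by
      apply hmin
      have h2 := hj v
      rw [hm, Nat.succ_eq_add_one, pow_succ', Equiv.Perm.mul_apply] at h2
      rw [hrb, Equiv.eq_symm_apply]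
      exact h2
    have h3 : j v ≤ j (B.symm v) + 1 := by
      apply hmin
      have h2 := hj (B.symm v)
      rw [hrb] at h2
      rw [pow_succ', Equiv.Perm.mul_apply, h2, Equiv.apply_symm_apply]
    omega
  refine ⟨fun v => if B v = r v then 2 else (if j v % 2 = 0 then 0 else 1), fun v => ?_⟩
  by_cases h1 : v = r v
  · have h2 : B (B.symm v) = r (B.symm v) := by
      rw [hrb, Equiv.apply_symm_apply]
      exact h1
    have h3 : B v ≠ r v := by
      rw [← h1]
      exact hB v
    simp only [h2, if_true, h3, if_false]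
    split_ifs <;> decide
  · have h2 : B (B.symm v) ≠ r (B.symm v) := by
      rw [hrb, Equiv.apply_symm_apply]
      exact h1
    have h4 := hstep v h1
    simp only [h2, if_false]
    by_cases h3 : B v = r v
    · simp only [h3, if_true]
      split_ifs <;> decide
    · simp only [h3, if_false]
      have h5 : (j v % 2 = 0) ↔ ¬ (j (B.symm v) % 2 = 0) := by omega
      by_cases h6 : j (B.symm v) % 2 = 0
      · have h7 : ¬ (j v % 2 = 0) := fun h => (h5.1 h) h6
        simp only [h6, h7, if_true, if_false]
        decide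
      · have h7 : j v % 2 = 0 := h5.2 h6
        simp only [h6, h7, if_true, if_false]
        decide

/-- the Alon-Tarsi condition in the non-bipartite case -/
theorem tor_ATC {V : Type} [Fintype V] (A B : Equiv.Perm V) (hAB : ∀ v, A (B v) = B (A v))
    (htr : Trans A B) (hd : ∀ v, Function.Injective (tdir A B v))
    (g s : ℕ) (hg : Odd g) (hgs : ∀ v, (B ^ g) v = (A ^ s) v) (φ : V → ZMod 2)
    (ha : ∀ v, φ (A v) = φ v + 1) (hb : ∀ v, φ (B v) = φ v) : ATC (igraph (tinc A B)) 4 := by
  have hB : ∀ v, B v ≠ v := fun v => tdir_ne A B v (hd v) (false, true)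
  obtain ⟨c, hc⟩ := exists_three B hB
  obtain ⟨x₀, hx₀⟩ := exists_col A B hAB φ ha hb c hc
  refine ATC_igraph ?_ rho4 (tinc A B) (tinc_ends A B) (tinc_simple A B hd)
    (NN_tinc A B hAB htr g s hg hgs φ ha hb x₀ hx₀)
  simp

end Pool.Agent.K4H93.CY
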