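import Pool.Agent.K4H93.CY.TorD
set_option autoImplicit false

/-! List colourings: bipartite graphs and disjoint unions. -/

namespace Pool.Agent.K4H93.CY

open Finset Pool.Agent.W426.LE

open Pool.Agent.H162R2.Sparse in
/-- Galvin's theorem for list colourings of the edge set -/
theorem bip_EL {V : Type} [Finite V] (G : SimpleGraph V) (side : V → Bool)
    (hs : ∀ a b, G.Adj a b → side a ≠ side b) (d : ℕ)
    (hdeg : ∀ v, (G.neighborSet v).ncard ≤ d) : EL.EL G d := by
  classical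
  have := Fintype.ofFinite V
  intro L hL
  let L' : V → V → Finset ℕ := fun a b => if h : G.Adj a b then L ⟨s(a, b), h⟩ else ∅
  have hadj : ∀ a b (h : G.Adj a b), L' a b = L ⟨s(a, b), h⟩ := fun a b h => dif_pos h
  have hsym : ∀ a b, L' a b = L' b a := by
    intro a b
    by_cases h : G.Adj a b
    · rw [hadj a b h, hadj b a h.symm]
      congr 1
      exact Subtype.ext Sym2.eq_swap
    · have h' : ¬ G.Adj b a := fun h1 => h h1.symm
      show dite _ _ _ = dite _ _ _
      rw [dif_neg h, dif_neg h']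
  have hnb : ∀ v, (nb G v : Set V) = G.neighborSet v := by
    intro v
    ext w
    rw [Finset.mem_coe, mem_nb, SimpleGraph.mem_neighborSet]
  obtain ⟨f, hf1, hf2, hf3⟩ := Pool.Agent.K4H76.LR.galvin G side hs d (fun v => by
    have h1 := hdeg v
    rw [← hnb, Set.ncard_coe_finset] at h1
    exact h1) L' hsym (fun a b h => by rw [hadj a b h]; exact hL _)
  let g : G.edgeSet → ℕ := fun e => f (Quot.out (e : Sym2 V)).1 (Quot.out (e : Sym2 V)).2
  have hg : ∀ a b (h : G.Adj a b), g ⟨s(a, b), h⟩ = f a b := by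
    intro a b h
    have ho : s((Quot.out s(a, b)).1, (Quot.out s(a, b)).2) = s(a, b) := Quot.out_eq _
    show f (Quot.out s(a, b)).1 (Quot.out s(a, b)).2 = f a b
    rw [Sym2.eq_iff] at ho
    rcases ho with ⟨h1, h2⟩ | ⟨h1, h2⟩
    · rw [h1, h2]
    · rw [h1, h2]
      exact (hf1 a b h).symm
  refine ⟨g, ?_, ?_⟩
  · rintro ⟨e, he⟩
    induction e using Sym2.ind with
    | _ a b =>
      rw [hg a b he, ← hadj a b he]
      exact hf2 a b he
  · rintro ⟨e, he⟩ ⟨e', he'⟩ hadj'
    rw [SimpleGraph.lineGraph_adj_iff_exists] at hadj'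
    obtain ⟨hne, v, hv, hv'⟩ := hadj'
    obtain ⟨w, rfl⟩ := Sym2.mem_iff_exists.1 hv
    obtain ⟨w', rfl⟩ := Sym2.mem_iff_exists.1 hv'
    rw [hg v w he, hg v w' he']
    refine hf3 v w w' he he' ?_
    rintro rfl
    exact hne rfl

/-- disjoint unions of subgraphs of `K` -/
theorem comp_EL {V W I : Type} (G : SimpleGraph V) (K : SimpleGraph W) (κ : V → I) (π : V → W)
    (ι : I → W → V) (h1 : ∀ v, ι (κ v) (π v) = v)
    (h2 : ∀ v w, G.Adj v w → κ v = κ w ∧ K.Adj (π v) (π w)) (d : ℕ) (hK : EL.EL K d) :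
    EL.EL G d := by
  classical
  intro L hL
  have hF : ∀ i : I, ∃ f : K.edgeSet → ℕ, (∀ e : K.edgeSet, f e ∈
      (if h : Sym2.map (ι i) (e : Sym2 W) ∈ G.edgeSet then L ⟨_, h⟩ else range d)) ∧
      ∀ e e', K.lineGraph.Adj e e' → f e ≠ f e' := by
    intro i
    refine hK _ fun e => ?_
    split_ifs with h
    · exact hL _
    · simp
  choose F hF1 hF2 using hF
  have hmem : ∀ e : G.edgeSet, Sym2.map π (e : Sym2 V) ∈ K.edgeSet := by
    rintro ⟨e, he⟩
    induction e using Sym2.ind with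
    | _ a b => exact (h2 a b he).2
  have hκ : ∀ (e : G.edgeSet) (v : V), v ∈ (e : Sym2 V) → ∀ w, w ∈ (e : Sym2 V) → κ v = κ w := by
    rintro ⟨e, he⟩ v hv w hw
    obtain ⟨x, rfl⟩ := Sym2.mem_iff_exists.1 hv
    rcases Sym2.mem_iff.1 hw with h | h
    · rw [h]
    · rw [h]
      exact (h2 v x he).1
  let g : G.edgeSet → ℕ := fun e => F (κ (Quot.out (e : Sym2 V)).1) ⟨_, hmem e⟩
  have hout : ∀ e : G.edgeSet, (Quot.out (e : Sym2 V)).1 ∈ (e : Sym2 V) := by
    intro e
    exact Sym2.out_fst_mem _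
  have hg : ∀ (e : G.edgeSet) (v : V), v ∈ (e : Sym2 V) → g e = F (κ v) ⟨_, hmem e⟩ := by
    intro e v hv
    show F (κ (Quot.out (e : Sym2 V)).1) _ = _
    rw [hκ e _ (hout e) v hv]
  have hback : ∀ (e : G.edgeSet) (v : V), v ∈ (e : Sym2 V) →
      Sym2.map (ι (κ v)) (Sym2.map π (e : Sym2 V)) = e := by
    rintro ⟨e, he⟩ v hv
    obtain ⟨x, rfl⟩ := Sym2.mem_iff_exists.1 hv
    show s(ι (κ v) (π v), ι (κ v) (π x)) = s(v, x)
    rw [h1, (h2 v x he).1, h1]
  refine ⟨g, ?_, ?_⟩
  · intro e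
    have h3 := hF1 (κ (Quot.out (e : Sym2 V)).1) ⟨_, hmem e⟩
    have h4 := hback e _ (hout e)
    have h5 : Sym2.map (ι (κ (Quot.out (e : Sym2 V)).1)) (Sym2.map π (e : Sym2 V)) ∈ G.edgeSet := by
      rw [h4]
      exact e.2
    rw [dif_pos h5] at h3
    have h6 : (⟨_, h5⟩ : G.edgeSet) = e := Subtype.ext h4
    rw [h6] at h3
    exact h3
  · intro e e' hadj
    have hadj' := hadj
    rw [SimpleGraph.lineGraph_adj_iff_exists] at hadj'
    obtain ⟨hne, v, hv, hv'⟩ := hadj'
    rw [hg e v hv, hg e' v hv']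
    refine hF2 _ _ _ ?_
    rw [SimpleGraph.lineGraph_adj_iff_exists]
    refine ⟨fun h => hne ?_, π v, Sym2.mem_map.2 ⟨v, hv, rfl⟩, Sym2.mem_map.2 ⟨v, hv', rfl⟩⟩
    apply Subtype.ext
    have h3 : Sym2.map π (e : Sym2 V) = Sym2.map π (e' : Sym2 V) := congrArg Subtype.val h
    rw [← hback e v hv, ← hback e' v hv', h3]

/-- the Cayley graph of the group generated by the connection set -/
theorem cayley_comp {Γ : Type} [AddCommGroup Γ] (S : Set Γ) (H : AddSubgroup Γ) (hS : S ⊆ H)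
    (d : ℕ) (h : EL.EL (SimpleGraph.circulantGraph ((fun x : H => (x : Γ)) ⁻¹' S)) d) :
    EL.EL (SimpleGraph.circulantGraph S) d := by
  classical
  let r : Γ → Γ := fun v => Quotient.out (QuotientAddGroup.mk v : Γ ⧸ H)
  have hr : ∀ v, v - r v ∈ H := by
    intro v
    have h1 : (QuotientAddGroup.mk (r v) : Γ ⧸ H) = QuotientAddGroup.mk v := Quotient.out_eq _
    rw [QuotientAddGroup.eq] at h1
    rwa [neg_add_eq_sub] at h1
  have hrr : ∀ v w, w - v ∈ H → r v = r w := by
    intro v w hvw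
    show Quotient.out (QuotientAddGroup.mk v : Γ ⧸ H) = Quotient.out (QuotientAddGroup.mk w : Γ ⧸ H)
    have h1 : (QuotientAddGroup.mk v : Γ ⧸ H) = QuotientAddGroup.mk w := by
      rw [QuotientAddGroup.eq, neg_add_eq_sub]
      exact hvw
    rw [h1]
  refine comp_EL _ _ r (fun v => (⟨v - r v, hr v⟩ : H)) (fun i x => i + x) ?_ ?_ d h
  · intro v
    show r v + (v - r v) = v
    abel
  · intro v w hvw
    rw [SimpleGraph.circulantGraph, SimpleGraph.fromRel_adj] at hvw
    have h1 : w - v ∈ H := by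
      rcases hvw.2 with h2 | h2
      · have h3 := H.neg_mem (hS h2)
        rwa [neg_sub] at h3
      · exact hS h2
    refine ⟨hrr v w h1, ?_⟩
    rw [SimpleGraph.circulantGraph, SimpleGraph.fromRel_adj]
    refine ⟨fun h2 => hvw.1 ?_, ?_⟩
    · have h3 : v - r v = w - r w := congrArg Subtype.val h2
      rw [hrr v w h1] at h3
      exact sub_left_injective h3
    · rcases hvw.2 with h2 | h2
      · left
        show (v - r v) - (w - r w) ∈ S
        rw [hrr v w h1, sub_sub_sub_cancel_right]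
        exact h2
      · right
        show (w - r w) - (v - r v) ∈ S
        rw [hrr v w h1, sub_sub_sub_cancel_right]
        exact h2

end Pool.Agent.K4H93.CY
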