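import Pool.Agent.K4H93.CY.TorE
set_option autoImplicit false

/-! Cayley graphs of abelian groups with two generators. -/

namespace Pool.Agent.K4H93.CY

open Finset Pool.Agent.W426.LE

section

variable {Γ : Type} [AddCommGroup Γ]

theorem index_two (K : AddSubgroup Γ) (s : Γ) (hs : s ∉ K) (h2 : ∀ v, v ∈ K ∨ v - s ∈ K) (v : Γ) :
    v ∈ K ↔ v + s ∉ K := by
  constructor
  · intro h h'
    apply hs
    have h3 := K.sub_mem h' h
    rwa [add_sub_cancel_left] at h3
  · intro h
    rcases h2 (v + s) with h3 | h3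
    · exact absurd h3 h
    · rwa [add_sub_cancel_right] at h3

/-- the character with the kernel `K` -/
noncomputable def kap (K : AddSubgroup Γ) (v : Γ) : ZMod 2 := by
  classical
  exact if v ∈ K then 0 else 1

theorem kap_add_of_mem (K : AddSubgroup Γ) (v s : Γ) (hs : s ∈ K) : kap K (v + s) = kap K v := by
  unfold kap
  rw [K.add_mem_cancel_right hs]

theorem kap_add_of_not (K : AddSubgroup Γ) (s : Γ) (hs : s ∉ K) (h2 : ∀ v, v ∈ K ∨ v - s ∈ K)
    (v : Γ) : kap K (v + s) = kap K v + 1 := by
  have h := index_two K s hs h2 v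
  unfold kap
  by_cases h1 : v ∈ K
  · rw [if_neg (h.1 h1), if_pos h1, zero_add]
  · have h3 : v + s ∈ K := by
      by_contra h3
      exact h1 (h.2 h3)
    rw [if_pos h3, if_neg h1]
    rfl

/-- a subgroup of index two without elements of the connection set: Galvin's theorem -/
theorem bip_cayley [Finite Γ] (S : Set Γ) (K : AddSubgroup Γ) (s : Γ) (hs : s ∉ K)
    (h2 : ∀ v, v ∈ K ∨ v - s ∈ K) (hS : ∀ x ∈ S, x ∉ K) (d : ℕ)
    (hdeg : ∀ v, ((SimpleGraph.circulantGraph S).neighborSet v).ncard ≤ d) :
    EL.EL (SimpleGraph.circulantGraph S) d := by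
  classical
  have key : ∀ v x, x ∉ K → (v ∈ K ↔ v + x ∉ K) := by
    intro v x hx
    constructor
    · intro h h'
      apply hx
      have h3 := K.sub_mem h' h
      rwa [add_sub_cancel_left] at h3
    · intro h
      by_contra hv
      apply h
      have h3 : v - s ∈ K := (h2 v).resolve_left hv
      have h4 : x - s ∈ K := (h2 x).resolve_left hx
      have h5 : s + s ∈ K := by
        rcases h2 (s + s) with h5 | h5
        · exact h5
        · rw [add_sub_cancel_right] at h5
          exact absurd h5 hs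
      have h6 := K.add_mem (K.add_mem h3 h4) h5
      have h7 : v - s + (x - s) + (s + s) = v + x := by abel
      rwa [h7] at h6
  refine bip_EL _ (fun v => decide (v ∈ K)) ?_ d hdeg
  intro v w hvw heq
  rw [SimpleGraph.circulantGraph, SimpleGraph.fromRel_adj] at hvw
  have heq' : v ∈ K ↔ w ∈ K := by simpa using heq
  rcases hvw.2 with h | h
  · have h1 := key w _ (hS _ h)
    have h3 : w + (v - w) = v := by abel
    rw [h3] at h1
    tauto
  · have h1 := key v _ (hS _ h)
    have h3 : v + (w - v) = w := by abel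
    rw [h3] at h1
    tauto

theorem exists_nat_smul [Finite Γ] (a : Γ) (z : ℤ) : ∃ s : ℕ, s • a = z • a := by
  have h1 : z • a ∈ AddSubgroup.zmultiples a := ⟨z, rfl⟩
  rw [← mem_multiples_iff_mem_zmultiples] at h1
  obtain ⟨s, hs⟩ := h1
  exact ⟨s, hs⟩

/-- odd multiples in a group of even order -/
theorem odd_smul [Finite Γ] (heven : Even (Nat.card Γ)) (D : ℤ) (hD : Odd D)
    (h : ∀ v : Γ, D • v = 0) : False := by
  have : Fact (Nat.Prime 2) := ⟨Nat.prime_two⟩
  obtain ⟨x, hx⟩ := exists_prime_addOrderOf_dvd_card' (G := Γ) 2 (even_iff_two_dvd.1 heven)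
  have h1 : (2 : ℤ) ∣ D := by
    have h2 := addOrderOf_dvd_iff_zsmul_eq_zero.2 (h x)
    rw [hx] at h2
    exact_mod_cast h2
  obtain ⟨k, hk⟩ := hD
  omega

theorem trans_add (a b : Γ) [Fintype Γ] (hgen : AddSubgroup.closure {a, b} = ⊤) :
    Trans (Equiv.addRight a : Equiv.Perm Γ) (Equiv.addRight b) := by
  intro W hWa hWb
  have hWa' : ∀ v, W (v + a) = W v := hWa
  have hWb' : ∀ v, W (v + b) = W v := hWb
  have hWc : ∀ u : Γ, ∀ v, W (v + u) = W v := by
    intro u
    have hu : u ∈ AddSubgroup.closure ({a, b} : Set Γ) := by rw [hgen]; trivial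
    induction hu using AddSubgroup.closure_induction with
    | mem x hx =>
      intro v
      rcases hx with rfl | hx
      · exact hWa' v
      · rw [Set.mem_singleton_iff] at hx
        subst hx
        exact hWb' v
    | zero => intro v; rw [add_zero]
    | add x y _ _ hx hy => intro v; rw [← add_assoc, hy, hx]
    | neg x _ hx =>
      intro v
      have h1 := hx (v + -x)
      rw [neg_add_cancel_right] at h1
      exact h1.symm
  intro u v
  have h1 := hWc (u - v) v
  rwa [add_sub_cancel] at h1

theorem pow_addRight (b : Γ) (g : ℕ) (v : Γ) : ((Equiv.addRight b : Equiv.Perm Γ) ^ g) v = v + g • b := by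
  induction g with
  | zero => simp
  | succ g ih =>
    rw [pow_succ', Equiv.Perm.mul_apply, ih, succ_nsmul]
    show v + g • b + b = _
    rw [add_assoc]

end

end Pool.Agent.K4H93.CY
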