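import Pool.Agent.K4H93.CY.TorF
set_option autoImplicit false

/-! The 4-edge-colourings of the products of Moebius ladders with an edge. -/

namespace Pool.Agent.K4H93.CY

open Finset Pool.Agent.W426.LE

/-- one row -/
theorem row_id (m : ℕ) (hm : Even m) (x y e : ℕ → ZMod 2) (η θ : ZMod 2)
    (he : ∀ j, e (j + 1) = e j + 1) (hx : ∀ j, x (m + j) = x j + η) (hy : ∀ j, y (m + j) = y j + θ) :
    ∑ j ∈ range (m + m), (al (x j) (y j) (x (j + 1)) (y (j + 1)) +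
      e (j + 1) * (x (j + 1) * y j + y (j + 1) * x j)) = al η θ η θ := by
  have hem : ∀ j i, e (j + i) = e j + i := by
    intro j i
    induction i with
    | zero => simp
    | succ i ih => rw [← add_assoc, he, ih]; push_cast; ring
  have hm0 : (m : ZMod 2) = 0 := by
    obtain ⟨k, rfl⟩ := hm
    push_cast
    have two : ∀ x : ZMod 2, x + x = 0 := by decide
    exact two _
  have hem' : ∀ j, e (m + j) = e j := by
    intro j
    rw [add_comm, hem, hm0, add_zero]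
  let G : ℕ → ZMod 2 := fun j => e j * (x j * θ + y j * η) + al (x j) (y j) η θ + (x j * θ + y j * η)
  have hpt : ∀ j, (al (x j) (y j) (x (j + 1)) (y (j + 1)) +
      e (j + 1) * (x (j + 1) * y j + y (j + 1) * x j)) +
      (al (x (m + j)) (y (m + j)) (x (m + j + 1)) (y (m + j + 1)) +
      e (m + j + 1) * (x (m + j + 1) * y (m + j) + y (m + j + 1) * x (m + j))) =
      (G (j + 1) - G j) + al η θ η θ := by
    intro j
    simp only [G, al, add_assoc m j 1, hx, hy, hem', he]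
    generalize x j = x0
    generalize x (j + 1) = x1
    generalize y j = y0
    generalize y (j + 1) = y1
    generalize e j = e0
    ring_nf
    reduce_mod_char
  rw [Finset.sum_range_add, ← Finset.sum_add_distrib, Finset.sum_congr rfl fun j _ => hpt j,
    Finset.sum_add_distrib, Finset.sum_range_sub, Finset.sum_const, card_range, nsmul_eq_mul, hm0,
    zero_mul, add_zero]
  have hx0 := hx 0
  have hy0 := hy 0
  have he0 := hem' 0
  rw [add_zero] at hx0 hy0 he0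
  simp only [G, al, hx0, hy0, he0]
  generalize x 0 = x0
  generalize y 0 = y0
  generalize e 0 = e0
  ring_nf
  reduce_mod_char

section

variable {V : Type} [Fintype V]

/-- the main identity -/
theorem main_id' (A : Equiv.Perm V) (e : V → ZMod 2) (he : ∀ v, e (A.symm v) = 1 + e v)
    (h₁ h₂ k₁ k₂ κ₁ κ₂ : V → ZMod 2) (hκ₁ : ∀ v, κ₁ (A.symm v) = κ₁ v)
    (hκ₂ : ∀ v, κ₂ (A.symm v) = κ₂ v) :
    ∑ v, (al (k₁ v + h₁ (A.symm v) + κ₁ v) (k₂ v + h₂ (A.symm v) + κ₂ v)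
        (h₁ v + k₁ (A.symm v) + κ₁ v) (h₂ v + k₂ (A.symm v) + κ₂ v) +
      e v * ((h₁ v + k₁ (A.symm v) + κ₁ v) * (k₂ v + h₂ (A.symm v) + κ₂ v) +
        (h₂ v + k₂ (A.symm v) + κ₂ v) * (k₁ v + h₁ (A.symm v) + κ₁ v)) +
      (al (h₁ (A.symm v)) (h₂ (A.symm v)) (h₁ v) (h₂ v) +
        e v * (h₁ v * h₂ (A.symm v) + h₂ v * h₁ (A.symm v))) +
      (al (k₁ v) (k₂ v) (k₁ (A.symm v)) (k₂ (A.symm v)) +
        e v * (k₁ v * k₂ (A.symm v) + k₂ v * k₁ (A.symm v)))) = 0 := by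
  let G1 : V → ZMod 2 := fun v => al (h₁ v) (h₂ v) (k₁ v) (k₂ v)
  let G2 : V → ZMod 2 := fun v => (e v + 1) * (h₁ v * k₂ v + h₂ v * k₁ v)
  let G3 : V → ZMod 2 := fun v => al (κ₁ v) (κ₂ v) (k₁ v) (k₂ v)
  let G4 : V → ZMod 2 := fun v => al (h₁ v) (h₂ v) (κ₁ v) (κ₂ v)
  let G5 : V → ZMod 2 := fun v => e v * al (κ₁ v) (κ₂ v) (κ₁ v) (κ₂ v)
  let G6 : V → ZMod 2 := fun v => (e v + 1) * ((h₁ v + k₁ v) * κ₂ v + (h₂ v + k₂ v) * κ₁ v)
  have hpt : ∀ v, (al (k₁ v + h₁ (A.symm v) + κ₁ v) (k₂ v + h₂ (A.symm v) + κ₂ v)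
        (h₁ v + k₁ (A.symm v) + κ₁ v) (h₂ v + k₂ (A.symm v) + κ₂ v) +
      e v * ((h₁ v + k₁ (A.symm v) + κ₁ v) * (k₂ v + h₂ (A.symm v) + κ₂ v) +
        (h₂ v + k₂ (A.symm v) + κ₂ v) * (k₁ v + h₁ (A.symm v) + κ₁ v)) +
      (al (h₁ (A.symm v)) (h₂ (A.symm v)) (h₁ v) (h₂ v) +
        e v * (h₁ v * h₂ (A.symm v) + h₂ v * h₁ (A.symm v))) +
      (al (k₁ v) (k₂ v) (k₁ (A.symm v)) (k₂ (A.symm v)) +
        e v * (k₁ v * k₂ (A.symm v) + k₂ v * k₁ (A.symm v)))) =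
      (G1 v + G1 (A.symm v)) + (G2 v + G2 (A.symm v)) + (G3 v + G3 (A.symm v)) +
        (G4 v + G4 (A.symm v)) + (G5 v + G5 (A.symm v)) + (G6 v + G6 (A.symm v)) := by
    intro v
    simp only [G1, G2, G3, G4, G5, G6, al, he, hκ₁, hκ₂]
    generalize h₁ v = x1
    generalize h₂ v = x2
    generalize h₁ (A.symm v) = y1
    generalize h₂ (A.symm v) = y2
    generalize k₁ v = z1
    generalize k₂ v = z2
    generalize k₁ (A.symm v) = w1
    generalize k₂ (A.symm v) = w2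
    generalize κ₁ v = c1
    generalize κ₂ v = c2
    generalize e v = f
    ring_nf
    reduce_mod_char
  rw [Finset.sum_congr rfl fun v _ => hpt v]
  rw [Finset.sum_add_distrib, Finset.sum_add_distrib, Finset.sum_add_distrib,
    Finset.sum_add_distrib, Finset.sum_add_distrib]
  rw [sum_tel G1, sum_tel G2, sum_tel G3, sum_tel G4, sum_tel G5, sum_tel G6]
  simp

end

end Pool.Agent.K4H93.CY
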