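import Pool.Agent.K4H93.CY.TorG
set_option autoImplicit false

/-! The 4-edge-colourings of the products of Moebius ladders with an edge: the sign. -/

namespace Pool.Agent.K4H93.CY

open Finset Pool.Agent.W426.LE

section

variable {V : Type}

theorem pow_succ_app (A : Equiv.Perm V) (j : ℕ) (v : V) : (A ^ (j + 1)) v = A ((A ^ j) v) := by
  rw [pow_succ', Equiv.Perm.mul_apply]

theorem symm_pow_succ (A : Equiv.Perm V) (j : ℕ) (v : V) : A.symm ((A ^ (j + 1)) v) = (A ^ j) v := by
  rw [pow_succ_app, Equiv.symm_apply_apply]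

/-- sums over one period -/
theorem row_shift {M : Type} [AddCommGroup M] (A : Equiv.Perm V) (n : ℕ) (v : V)
    (hper : (A ^ n) v = v) (F : V → M) :
    ∑ j ∈ range n, F ((A ^ (j + 1)) v) = ∑ j ∈ range n, F ((A ^ j) v) := by
  have h1 := Finset.sum_range_succ' (fun j => F ((A ^ j) v)) n
  rw [Finset.sum_range_succ, hper] at h1
  simp only [pow_zero, Equiv.Perm.one_apply] at h1
  exact (add_right_cancel h1).symm

theorem row_half (A : Equiv.Perm V) (m : ℕ) (v : V) (q : V → ZMod 2)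
    (hq : ∀ v, q ((A ^ m) v) = q v) : ∑ j ∈ range (m + m), q ((A ^ j) v) = 0 := by
  have two : ∀ x : ZMod 2, x + x = 0 := by decide
  rw [Finset.sum_range_add]
  have h1 : ∑ j ∈ range m, q ((A ^ (m + j)) v) = ∑ j ∈ range m, q ((A ^ j) v) := by
    refine Finset.sum_congr rfl fun j _ => ?_
    rw [pow_add, Equiv.Perm.mul_apply, hq]
  rw [h1, two]

/-- the potential of a function with the half period `m` -/
theorem row_eta (A : Equiv.Perm V) (m : ℕ) (v : V) (h q : V → ZMod 2)
    (hh : ∀ v, h v + h (A.symm v) = q v) (hq : ∀ v, q ((A ^ m) v) = q v) (j : ℕ) :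
    h ((A ^ (m + j)) v) = h ((A ^ j) v) + ∑ i ∈ range m, q ((A ^ (i + 1)) v) := by
  have hstep : ∀ j, h ((A ^ (j + 1)) v) = h ((A ^ j) v) + q ((A ^ (j + 1)) v) := by
    intro j
    have h1 := hh ((A ^ (j + 1)) v)
    rw [symm_pow_succ] at h1
    rw [← h1]
    generalize h ((A ^ (j + 1)) v) = x
    generalize h ((A ^ j) v) = y
    revert x y
    decide
  induction j with
  | zero =>
    have h2 : ∀ i, h ((A ^ i) v) = h v + ∑ l ∈ range i, q ((A ^ (l + 1)) v) := by
      intro i
      induction i with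
      | zero => simp
      | succ i ih => rw [hstep, ih, Finset.sum_range_succ, add_assoc]
    rw [add_zero, h2 m, pow_zero, Equiv.Perm.one_apply]
  | succ j ih =>
    rw [← add_assoc, hstep (m + j), ih, hstep j]
    have h3 : q ((A ^ (m + j + 1)) v) = q ((A ^ (j + 1)) v) := by
      rw [add_assoc, pow_add, Equiv.Perm.mul_apply, hq]
    rw [h3]
    ring

end

section

variable {V : Type} [Fintype V]

/-- **All 4-edge-colourings have the same sign** (Klein bottle type). -/
theorem sign_const' (A T : Equiv.Perm V) (hAT : ∀ v, A (T v) = T (A v)) (hTT : ∀ v, T (T v) = v)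
    (m : ℕ) (hm : Even m) (hper : ∀ v, (A ^ (m + m)) v = v) (v₀ : V)
    (hsum : ∀ (M : Type) [AddCommMonoid M] (F : V → M), ∑ v, F v =
      ∑ j ∈ range (m + m), (F ((A ^ j) v₀) + F ((A ^ j) (T v₀))))
    (e : V → ZMod 2) (he : ∀ v, e (A v) = e v + 1) (heT : ∀ v, e (T v) = e v)
    (θ : V → ZMod 2) (hθ : ∀ v, θ (A v) = θ v) (hθT : ∀ v, θ (T v) = θ v + 1)
    (p r s : V → Fin 4) (hr : ∀ v, r ((A ^ m) v) = r v) (hs : ∀ v, s (T v) = s v)
    (h : ∀ v, s4 (p v) (p (A.symm v)) (r v) (s v) ≠ 0) :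
    ∏ v, s4 (p v) (p (A.symm v)) (r v) (s v) = 1 := by
  have two : ∀ x : ZMod 2, x + x = 0 := by decide
  have hTA : ∀ (j : ℕ) (v : V), (A ^ j) (T v) = T ((A ^ j) v) := by
    intro j v
    induction j with
    | zero => rfl
    | succ j ih => rw [pow_succ_app, ih, hAT, ← pow_succ_app]
  have hTs : ∀ v, A.symm (T v) = T (A.symm v) := by
    intro v
    rw [Equiv.symm_apply_eq, hAT, Equiv.apply_symm_apply]
  have hsT : ∀ (F : V → ZMod 2), (∀ v, F (T v) = F v) → ∑ v, F v = 0 := by
    intro F hF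
    rw [hsum]
    refine Finset.sum_eq_zero fun j _ => ?_
    rw [hTA, hF, two]
  have he' : ∀ v, e (A.symm v) = 1 + e v := by
    intro v
    have h1 := he (A.symm v)
    rw [Equiv.apply_symm_apply] at h1
    rw [h1]
    generalize e (A.symm v) = x
    revert x
    decide
  have hθ' : ∀ v, θ (A.symm v) = θ v := by
    intro v
    have h1 := hθ (A.symm v)
    rw [Equiv.apply_symm_apply] at h1
    exact h1.symm
  have hinv : ∀ (w : V → ZMod 2), (∀ v, w (A v) = w v) → ∀ (j : ℕ) (v : V), w ((A ^ j) v) = w v := by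
    intro w hw j v
    induction j with
    | zero => rfl
    | succ j ih => rw [pow_succ_app, hw, ih]
  -- the existence of potentials
  have hpot : ∀ q : V → ZMod 2, (∀ v, ∑ j ∈ range (m + m), q ((A ^ j) v) = 0) →
      ∃ g : V → ZMod 2, ∀ v, g v + g (A.symm v) = q v := by
    intro q hq
    refine exists_potential A q fun w hw => ?_
    rw [hsum, Finset.sum_add_distrib]
    have h1 : ∀ v, ∑ j ∈ range (m + m), w ((A ^ j) v) * q ((A ^ j) v) = 0 := by
      intro v
      rw [Finset.sum_congr rfl fun j _ => by rw [hinv w hw j v], ← Finset.mul_sum, hq, mul_zero]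
    rw [h1, h1, add_zero]
  -- for every bit
  have hbit : ∀ u : Fin 4 → ZMod 2,
      (∀ v, u (p v) + u (p (A.symm v)) + u (r v) + u (s v) = 0) →
      ∃ H K : V → ZMod 2, (∀ v, H v + H (A.symm v) = u (r v)) ∧
        (∀ v, K v + K (A.symm v) = u (s v)) ∧ (∀ v, K (T v) = K v) ∧
        (∀ v, u (p (A.symm v)) + H (A.symm v) + K (A.symm v) = u (p v) + H v + K v) ∧
        (∀ v, K v + H (A.symm v) + (u (p v) + H v + K v) = u (p v) + u (r v)) ∧
        (∀ v, H v + K (A.symm v) + (u (p v) + H v + K v) = u (p (A.symm v)) + u (r v)) := by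
    intro u hu
    obtain ⟨H, hH⟩ := hpot (fun v => u (r v)) (fun v => row_half A m v (fun v => u (r v)) fun v => by rw [hr])
    obtain ⟨K0, hK0⟩ := hpot (fun v => u (s v)) (fun v => by
      have h1 : ∑ j ∈ range (m + m), (u (p ((A ^ j) v)) + u (p (A.symm ((A ^ j) v))) +
          u (r ((A ^ j) v)) + u (s ((A ^ j) v))) = 0 := Finset.sum_eq_zero fun j _ => hu _
      rw [Finset.sum_add_distrib, Finset.sum_add_distrib, Finset.sum_add_distrib] at h1
      have h2 := row_shift A (m + m) v (hper v) (fun v => u (p (A.symm v)))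
      simp only [symm_pow_succ] at h2
      rw [← h2, two, zero_add, row_half A m v (fun v => u (r v)) (fun v => by rw [hr]), zero_add] at h1
      exact h1)
    have hK1 : ∀ v, (θ v * K0 v + (1 + θ v) * K0 (T v)) +
        (θ (A.symm v) * K0 (A.symm v) + (1 + θ (A.symm v)) * K0 (T (A.symm v))) = u (s v) := by
      intro v
      have h1 := hK0 v
      have h2 := hK0 (T v)
      rw [hs, hTs] at h2
      rw [hθ']
      have h3 : θ v * K0 v + (1 + θ v) * K0 (T v) +
          (θ v * K0 (A.symm v) + (1 + θ v) * K0 (T (A.symm v))) =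
          θ v * (K0 v + K0 (A.symm v)) + (1 + θ v) * (K0 (T v) + K0 (T (A.symm v))) := by ring
      rw [h3, h1, h2]
      generalize θ v = x
      generalize u (s v) = y
      revert x y
      decide
    refine ⟨H, fun v => θ v * K0 v + (1 + θ v) * K0 (T v), hH, hK1, ?_, ?_, ?_, ?_⟩
    · intro v
      show θ (T v) * K0 (T v) + (1 + θ (T v)) * K0 (T (T v)) = θ v * K0 v + (1 + θ v) * K0 (T v)
      rw [hθT, hTT]
      generalize θ v = x
      generalize K0 v = y
      generalize K0 (T v) = z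
      revert x y z
      decide
    all_goals
      intro v
      have h1 := hu v
      have h2 := hH v
      have h3 := hK1 v
      show _ = _
      simp only []
      revert h1 h2 h3
      generalize (θ v * K0 v + (1 + θ v) * K0 (T v)) = x1
      generalize (θ (A.symm v) * K0 (A.symm v) + (1 + θ (A.symm v)) * K0 (T (A.symm v))) = x2
      generalize H v = x3
      generalize H (A.symm v) = x4
      generalize u (p v) = x5
      generalize u (p (A.symm v)) = x6
      generalize u (r v) = x7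
      generalize u (s v) = x8
      revert x1 x2 x3 x4 x5 x6 x7 x8
      decide +kernel
  obtain ⟨h₁, k₁, a1, a2, a3, a4, a5, a6⟩ := hbit u1 (fun v => (col_facts _ _ _ _ (h v)).1)
  obtain ⟨h₂, k₂, b1, b2, b3, b4, b5, b6⟩ := hbit u2 (fun v => (col_facts _ _ _ _ (h v)).2.1)
  have hmain := main_id' A e he' h₁ h₂ k₁ k₂ (fun v => u1 (p v) + h₁ v + k₁ v)
    (fun v => u2 (p v) + h₂ v + k₂ v) a4 b4
  simp only [a5, a6, b5, b6] at hmain
  simp only [(col_facts _ _ _ _ (h _)).2.2.1, mul_one] at hmain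
  rw [Finset.sum_add_distrib, Finset.sum_add_distrib, Finset.sum_add_distrib] at hmain
  rw [hsT e heT, add_zero] at hmain
  have hQ2 : ∑ v, (al (k₁ v) (k₂ v) (k₁ (A.symm v)) (k₂ (A.symm v)) +
        e v * (k₁ v * k₂ (A.symm v) + k₂ v * k₁ (A.symm v))) = 0 := by
    refine hsT _ fun v => ?_
    rw [hTs, a3, a3, b3, b3, heT]
  rw [hQ2, add_zero] at hmain
  -- the rows
  obtain ⟨Q1, hQ1d⟩ : ∃ Q1 : V → ZMod 2, ∀ v, Q1 v =
      al (h₁ (A.symm v)) (h₂ (A.symm v)) (h₁ v) (h₂ v) +
        e v * (h₁ v * h₂ (A.symm v) + h₂ v * h₁ (A.symm v)) := ⟨_, fun _ => rfl⟩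
  have hrow : ∀ v, ∑ j ∈ range (m + m), Q1 ((A ^ j) v) =
      al (∑ i ∈ range m, u1 (r ((A ^ (i + 1)) v))) (∑ i ∈ range m, u2 (r ((A ^ (i + 1)) v)))
        (∑ i ∈ range m, u1 (r ((A ^ (i + 1)) v))) (∑ i ∈ range m, u2 (r ((A ^ (i + 1)) v))) := by
    intro v
    rw [← row_shift A (m + m) v (hper v) Q1]
    rw [← row_id m hm (fun j => h₁ ((A ^ j) v)) (fun j => h₂ ((A ^ j) v)) (fun j => e ((A ^ j) v))
      _ _ (fun j => by rw [pow_succ_app, he])
      (fun j => row_eta A m v h₁ (fun v => u1 (r v)) a1 (fun v => by rw [hr]) j)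
      (fun j => row_eta A m v h₂ (fun v => u2 (r v)) b1 (fun v => by rw [hr]) j)]
    refine Finset.sum_congr rfl fun j _ => ?_
    rw [hQ1d, symm_pow_succ]
  -- the parities in the two rows
  let δ : V → ℤ := fun v => if e v = 0 then 1 else -1
  have hδ : ∀ v, δ (A v) = - δ v := by
    intro v
    show (if e (A v) = 0 then (1 : ℤ) else -1) = - (if e v = 0 then 1 else -1)
    rw [he]
    generalize e v = x
    revert x
    decide
  have hδT : ∀ v, δ (T v) = δ v := fun v => by
    show (if e (T v) = 0 then (1 : ℤ) else -1) = (if e v = 0 then 1 else -1)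
    rw [heT]
  have hδ2 : ∀ v, ((δ v : ℤ) : ZMod 2) = 1 := by
    intro v
    show (((if e v = 0 then (1 : ℤ) else -1) : ℤ) : ZMod 2) = 1
    split_ifs <;> rfl
  have hδm : ∀ v, δ ((A ^ m) v) = δ v := by
    intro v
    obtain ⟨k, rfl⟩ := hm
    have h1 : ∀ k : ℕ, ∀ v, δ ((A ^ (k + k)) v) = δ v := by
      intro k
      induction k with
      | zero => intro v; rfl
      | succ k ih =>
        intro v
        have h2 : k + 1 + (k + 1) = (k + k) + 1 + 1 := by ring
        rw [h2, pow_succ_app, pow_succ_app, hδ, hδ, neg_neg, ih]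
    exact h1 k v
  have hpar : ∀ i : Fin 4, ((∑ j ∈ range m, (if r ((A ^ (j + 1)) v₀) = i then (1 : ℤ) else 0) : ℤ) : ZMod 2)
      = ((∑ j ∈ range m, (if r ((A ^ (j + 1)) (T v₀)) = i then (1 : ℤ) else 0) : ℤ) : ZMod 2) := by
    intro i
    let fR : V → ℤ := fun v => if p v = i then 1 else 0
    let fr : V → ℤ := fun v => if r v = i then 1 else 0
    let fs : V → ℤ := fun v => if s v = i then 1 else 0
    have hone : ∀ v, fR v + fR (A.symm v) + fr v + fs v = 1 := fun v =>
      (col_facts _ _ _ _ (h v)).2.2.2.2 i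
    have hzero : ∀ v, ∑ j ∈ range (m + m), δ ((A ^ j) v) = 0 := by
      intro v
      have h1 := row_shift A (m + m) v (hper v) δ
      have h2 : ∑ j ∈ range (m + m), δ ((A ^ (j + 1)) v) = - ∑ j ∈ range (m + m), δ ((A ^ j) v) := by
        rw [← Finset.sum_neg_distrib]
        exact Finset.sum_congr rfl fun j _ => by rw [pow_succ_app, hδ]
      linarith
    have hbase : ∀ v, ∑ j ∈ range (m + m), δ ((A ^ j) v) * fr ((A ^ j) v) +
        ∑ j ∈ range (m + m), δ ((A ^ j) v) * fs ((A ^ j) v) = 0 := by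
      intro v
      have h1 : ∑ j ∈ range (m + m), δ ((A ^ j) v) * (fR ((A ^ j) v) + fR (A.symm ((A ^ j) v)) +
          fr ((A ^ j) v) + fs ((A ^ j) v)) = 0 := by
        rw [← hzero v]
        exact Finset.sum_congr rfl fun j _ => by rw [hone, mul_one]
      simp only [mul_add, Finset.sum_add_distrib] at h1
      have h2 := row_shift A (m + m) v (hper v) (fun v => δ v * fR (A.symm v))
      simp only [symm_pow_succ] at h2
      have h3 : ∑ j ∈ range (m + m), δ ((A ^ (j + 1)) v) * fR ((A ^ j) v) =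
          - ∑ j ∈ range (m + m), δ ((A ^ j) v) * fR ((A ^ j) v) := by
        rw [← Finset.sum_neg_distrib]
        exact Finset.sum_congr rfl fun j _ => by rw [pow_succ_app, hδ]; ring
      linarith
    have hsT' : ∑ j ∈ range (m + m), δ ((A ^ j) (T v₀)) * fs ((A ^ j) (T v₀)) =
        ∑ j ∈ range (m + m), δ ((A ^ j) v₀) * fs ((A ^ j) v₀) := by
      refine Finset.sum_congr rfl fun j _ => ?_
      rw [hTA, hδT]
      show δ ((A ^ j) v₀) * (if s (T ((A ^ j) v₀)) = i then 1 else 0) = _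
      rw [hs]
    have hhalf : ∀ v, ∑ j ∈ range (m + m), δ ((A ^ j) v) * fr ((A ^ j) v) =
        2 * ∑ j ∈ range m, δ ((A ^ (j + 1)) v) * fr ((A ^ (j + 1)) v) := by
      intro v
      rw [← row_shift A (m + m) v (hper v) (fun v => δ v * fr v), Finset.sum_range_add, two_mul]
      congr 1
      refine Finset.sum_congr rfl fun j _ => ?_
      have h1 : (A ^ (m + j + 1)) v = (A ^ m) ((A ^ (j + 1)) v) := by
        rw [add_assoc, pow_add, Equiv.Perm.mul_apply]
      show δ ((A ^ (m + j + 1)) v) * (if r ((A ^ (m + j + 1)) v) = i then 1 else 0) = _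
      rw [h1, hδm, hr]
    have e1 := hbase v₀
    have e2 := hbase (T v₀)
    rw [hsT'] at e2
    rw [hhalf] at e1 e2
    have e3 : ∑ j ∈ range m, δ ((A ^ (j + 1)) v₀) * fr ((A ^ (j + 1)) v₀) =
        ∑ j ∈ range m, δ ((A ^ (j + 1)) (T v₀)) * fr ((A ^ (j + 1)) (T v₀)) := by linarith
    have e4 := congrArg (fun z : ℤ => (z : ZMod 2)) e3
    push_cast at e4 ⊢
    simp only [hδ2, one_mul] at e4
    have hcast : ∀ v, ((fr v : ℤ) : ZMod 2) = if r v = i then 1 else 0 := by
      intro v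
      show (((if r v = i then (1 : ℤ) else 0) : ℤ) : ZMod 2) = _
      split_ifs <;> simp
    simp only [hcast] at e4
    exact e4
  have hbit1 : ∀ x : Fin 4, u1 x = ((if x = 1 then (1 : ℤ) else 0 : ℤ) : ZMod 2) +
      ((if x = 3 then (1 : ℤ) else 0 : ℤ) : ZMod 2) := by decide
  have hbit2 : ∀ x : Fin 4, u2 x = ((if x = 2 then (1 : ℤ) else 0 : ℤ) : ZMod 2) +
      ((if x = 3 then (1 : ℤ) else 0 : ℤ) : ZMod 2) := by decide
  have hη1 : ∑ j ∈ range m, u1 (r ((A ^ (j + 1)) v₀)) = ∑ j ∈ range m, u1 (r ((A ^ (j + 1)) (T v₀))) := by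
    simp only [hbit1, Finset.sum_add_distrib]
    have h1 := hpar 1
    have h3 := hpar 3
    push_cast at h1 h3 ⊢
    rw [h1, h3]
  have hη2 : ∑ j ∈ range m, u2 (r ((A ^ (j + 1)) v₀)) = ∑ j ∈ range m, u2 (r ((A ^ (j + 1)) (T v₀))) := by
    simp only [hbit2, Finset.sum_add_distrib]
    have h1 := hpar 2
    have h3 := hpar 3
    push_cast at h1 h3 ⊢
    rw [h1, h3]
  have hQ1 : ∑ v, (al (h₁ (A.symm v)) (h₂ (A.symm v)) (h₁ v) (h₂ v) +
        e v * (h₁ v * h₂ (A.symm v) + h₂ v * h₁ (A.symm v))) = 0 := by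
    rw [← Finset.sum_congr rfl fun v _ => hQ1d v]
    rw [hsum, Finset.sum_add_distrib, hrow v₀, hrow (T v₀), hη1, hη2, two]
  rw [hQ1, add_zero] at hmain
  have hone : ∑ _v : V, (1 : ZMod 2) = 0 := hsT (fun _ => 1) (fun _ => rfl)
  rw [Finset.prod_congr rfl fun v _ => (col_facts _ _ _ _ (h v)).2.2.2.1, chi_sum,
    Finset.sum_add_distrib, hone, add_zero, hmain]
  rfl

end

end Pool.Agent.K4H93.CY
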