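import Pool.Agent.K4H93.CY.TorH
set_option autoImplicit false

/-! Graphs given by directions. -/

namespace Pool.Agent.K4H93.CY

open Finset Pool.Agent.W426.LE
open scoped Classical

section

variable {V D : Type}

/-- the edges at the vertices in the different directions -/
def dinc (G : SimpleGraph V) (dir : V → D → V) (h : ∀ v i, G.Adj v (dir v i)) : V → D → G.edgeSet :=
  fun v i => ⟨s(v, dir v i), h v i⟩

theorem dinc_mem (G : SimpleGraph V) (dir : V → D → V) (h : ∀ v i, G.Adj v (dir v i)) (v : V)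
    (i : D) : v ∈ (dinc G dir h v i : Sym2 V) := Sym2.mem_mk_left _ _

theorem dinc_all (G : SimpleGraph V) (dir : V → D → V) (h : ∀ v i, G.Adj v (dir v i))
    (hall : ∀ v w, G.Adj v w → ∃ i, w = dir v i) (v : V) (e : G.edgeSet) (hv : v ∈ (e : Sym2 V)) :
    ∃ i, dinc G dir h v i = e := by
  obtain ⟨e, he⟩ := e
  obtain ⟨w, rfl⟩ := Sym2.mem_iff_exists.1 hv
  obtain ⟨i, hi⟩ := hall v w he
  subst hi
  exact ⟨i, rfl⟩

theorem dinc_inj (G : SimpleGraph V) (dir : V → D → V) (h : ∀ v i, G.Adj v (dir v i))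
    (hinj : ∀ v, Function.Injective (dir v)) (v : V) : Function.Injective (dinc G dir h v) := by
  intro i j hij
  have h1 : s(v, dir v i) = s(v, dir v j) := congrArg Subtype.val hij
  exact hinj v (Sym2.congr_right.1 h1)

/-- All proper edge colourings with `d` colours have the same sign: if the colourings `x` and `y`
differ at the vertex `v` by the permutation `π v` of the colours then the product of the signs of these
permutations is `1`. -/
def SameSign (G : SimpleGraph V) (d : ℕ) : Prop :=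
  ∀ x y : G.edgeSet → Fin d, (∀ e e', G.lineGraph.Adj e e' → x e ≠ x e') →
    (∀ e e', G.lineGraph.Adj e e' → y e ≠ y e') → ∀ π : V → Equiv.Perm (Fin d),
      (∀ v (e : G.edgeSet), v ∈ (e : Sym2 V) → y e = π v (x e)) →
        ∏ᶠ v, Equiv.Perm.sign (π v) = 1

theorem sg_ne_of_proper [Fintype D] {d : ℕ} (ρ : D ≃ Fin d) (G : SimpleGraph V)
    (inc : V → D → G.edgeSet) (hmem : ∀ v i, v ∈ (inc v i : Sym2 V))
    (hinj : ∀ v, Function.Injective (inc v)) (x : G.edgeSet → Fin d)
    (hx : ∀ e e', G.lineGraph.Adj e e' → x e ≠ x e') (v : V) :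
    sg ρ (fun i => x (inc v i)) ≠ 0 := by
  rw [sg_ne_zero_iff]
  have h1 : Function.Injective (fun i => x (inc v i)) := by
    intro i j hij
    by_contra hne
    refine hx (inc v i) (inc v j) ?_ hij
    rw [SimpleGraph.lineGraph_adj_iff_exists]
    exact ⟨fun h => hne (hinj v h), v, hmem v i, hmem v j⟩
  exact ⟨h1, (Finite.injective_iff_surjective_of_equiv ρ).1 h1⟩

theorem sameSign_of [Fintype V] [Fintype D] {d : ℕ} (ρ : D ≃ Fin d) (G : SimpleGraph V)
    (inc : V → D → G.edgeSet) (hmem : ∀ v i, v ∈ (inc v i : Sym2 V))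
    (hinj : ∀ v, Function.Injective (inc v)) (c : ℤ) (hc : c ≠ 0)
    (hprod : ∀ x : G.edgeSet → Fin d, (∀ v, sg ρ (fun i => x (inc v i)) ≠ 0) →
      ∏ v, sg ρ (fun i => x (inc v i)) = c) : SameSign G d := by
  intro x y hx hy π hπ
  have hs' : ∀ (i1 i2 : DecidableEq (Fin d)) (τ : Equiv.Perm (Fin d)),
      ((@Equiv.Perm.sign _ i1 _ τ : ℤˣ) : ℤ) = ((@Equiv.Perm.sign _ i2 _ τ : ℤˣ) : ℤ) :=
    fun i1 i2 τ => by rw [Subsingleton.elim i1 i2]
  have h1 := hprod x (sg_ne_of_proper ρ G inc hmem hinj x hx)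
  have h2 := hprod y (sg_ne_of_proper ρ G inc hmem hinj y hy)
  have h3 : ∀ v, sg ρ (fun i => y (inc v i)) = ((Equiv.Perm.sign (π v) : ℤˣ) : ℤ) *
      sg ρ (fun i => x (inc v i)) := by
    intro v
    have h4 := sg_perm_comp ρ (fun i => x (inc v i)) (π v)
    have h5 : (fun i => y (inc v i)) = (fun i => π v (x (inc v i))) := by
      funext i
      exact hπ v _ (hmem v i)
    rw [h5]
    refine h4.trans ?_
    rw [hs' _ (instDecidableEqFin d)]
  rw [Finset.prod_congr rfl fun v _ => h3 v, Finset.prod_mul_distrib, h1] at h2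
  have h4 : (∏ v, ((Equiv.Perm.sign (π v) : ℤˣ) : ℤ)) = 1 := by
    have h5 : (∏ v, ((Equiv.Perm.sign (π v) : ℤˣ) : ℤ)) * c = 1 * c := by rw [h2, one_mul]
    exact mul_right_cancel₀ hc h5
  rw [finprod_eq_prod_of_fintype]
  apply Units.ext
  rw [Units.coe_prod, Units.val_one]
  exact h4

theorem ATC_of_same [Fintype V] [Fintype D] {d : ℕ} (ρ : D ≃ Fin d) (G : SimpleGraph V)
    (inc : V → D → G.edgeSet) (hmem : ∀ v i, v ∈ (inc v i : Sym2 V))
    (hall : ∀ v (e : G.edgeSet), v ∈ (e : Sym2 V) → ∃ i, inc v i = e)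
    (hinj : ∀ v, Function.Injective (inc v)) (c : ℤ) (hc : c ≠ 0)
    (hprod : ∀ x : G.edgeSet → Fin d, (∀ v, sg ρ (fun i => x (inc v i)) ≠ 0) →
      ∏ v, sg ρ (fun i => x (inc v i)) = c)
    (x₀ : G.edgeSet → Fin d) (hx₀ : ∀ v, sg ρ (fun i => x₀ (inc v i)) ≠ 0) : ATC G d := by
  have hN : NN ρ inc ≠ 0 := by
    have h1 : NN ρ inc = ∑ x : G.edgeSet → Fin d,
        if (∀ v, sg ρ (fun i => x (inc v i)) ≠ 0) then c else 0 := by
      unfold NN
      refine Finset.sum_congr (Finset.ext fun x => by simp) fun x _ => ?_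
      split_ifs with h
      · exact hprod x h
      · push Not at h
        obtain ⟨v, hv⟩ := h
        exact Finset.prod_eq_zero (Finset.mem_univ v) hv
    rw [h1, ← Finset.sum_filter, Finset.sum_const, nsmul_eq_mul]
    refine mul_ne_zero ?_ hc
    rw [Nat.cast_ne_zero, ← Nat.pos_iff_ne_zero, Finset.card_pos]
    exact ⟨x₀, Finset.mem_filter.2 ⟨Finset.mem_univ _, hx₀⟩⟩
  exact ATC_of_psi (by rw [Fintype.card_congr ρ, Fintype.card_fin]) ρ inc G (Equiv.refl _) hmem
    hall hinj hN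

/-- a colouring from the list colouring property -/
theorem exists_proper (G : SimpleGraph V) (d : ℕ) (h : EL.EL G d) :
    ∃ x : G.edgeSet → Fin d, ∀ e e', G.lineGraph.Adj e e' → x e ≠ x e' := by
  obtain ⟨f, hf1, hf2⟩ := h (fun _ => range d) (fun e => by simp)
  exact ⟨fun e => ⟨f e, by simpa using hf1 e⟩, fun e e' hadj he => hf2 e e' hadj (congrArg Fin.val he)⟩

end

section

variable {V : Type} [Fintype V]

/-- the signs for two commuting permutations -/
theorem tor_prod (G : SimpleGraph V) (A B : Equiv.Perm V) (hG : ∀ v i, G.Adj v (tdir A B v i))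
    (hAB : ∀ v, A (B v) = B (A v)) (htr : Trans A B)
    (g s : ℕ) (hg : Odd g) (hgs : ∀ v, (B ^ g) v = (A ^ s) v) (φ : V → ZMod 2)
    (ha : ∀ v, φ (A v) = φ v + 1) (hb : ∀ v, φ (B v) = φ v) (x : G.edgeSet → Fin 4)
    (hx : ∀ v, sg rho4 (fun i => x (dinc G (tdir A B) hG v i)) ≠ 0) :
    ∏ v, sg rho4 (fun i => x (dinc G (tdir A B) hG v i)) = chi (∑ v, φ v) := by
  have hp : ∀ v, x (dinc G (tdir A B) hG (A.symm v) (true, true)) =
      x (dinc G (tdir A B) hG v (true, false)) := by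
    intro v
    congr 1
    apply Subtype.ext
    show s(A.symm v, A (A.symm v)) = s(v, A.symm v)
    rw [Equiv.apply_symm_apply, Sym2.eq_swap]
  have hq : ∀ v, x (dinc G (tdir A B) hG (B.symm v) (false, true)) =
      x (dinc G (tdir A B) hG v (false, false)) := by
    intro v
    congr 1
    apply Subtype.ext
    show s(B.symm v, B (B.symm v)) = s(v, B.symm v)
    rw [Equiv.apply_symm_apply, Sym2.eq_swap]
  have hval : ∀ v, sg rho4 (fun i => x (dinc G (tdir A B) hG v i)) =
      s4 (x (dinc G (tdir A B) hG v (true, true))) (x (dinc G (tdir A B) hG (A.symm v) (true, true)))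
        (x (dinc G (tdir A B) hG v (false, true)))
        (x (dinc G (tdir A B) hG (B.symm v) (false, true))) := by
    intro v
    rw [hp, hq]
    exact sg_s4 _
  rw [Finset.prod_congr rfl fun v _ => hval v]
  exact sign_const A B hAB htr g s hg hgs φ ha hb (fun v => x (dinc G (tdir A B) hG v (true, true)))
    (fun v => x (dinc G (tdir A B) hG v (false, true))) (fun v => by rw [← hval]; exact hx v)

/-- quadrangulations of the torus that are not bipartite -/
theorem tor_all (G : SimpleGraph V) (A B : Equiv.Perm V)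
    (hG : ∀ v w, G.Adj v w ↔ v ≠ w ∧ ∃ i, w = tdir A B v i)
    (hAB : ∀ v, A (B v) = B (A v)) (htr : Trans A B) (hd : ∀ v, Function.Injective (tdir A B v))
    (g s : ℕ) (hg : Odd g) (hgs : ∀ v, (B ^ g) v = (A ^ s) v) (φ : V → ZMod 2)
    (ha : ∀ v, φ (A v) = φ v + 1) (hb : ∀ v, φ (B v) = φ v) :
    ATC G 4 ∧ SameSign G 4 := by
  have hadj : ∀ v i, G.Adj v (tdir A B v i) := fun v i =>
    (hG v _).2 ⟨(tdir_ne A B v (hd v) i).symm, i, rfl⟩
  have hgr : igraph (tinc A B) = G := by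
    ext v w
    rw [igraph_tinc, hG]
  refine ⟨hgr ▸ tor_ATC A B hAB htr hd g s hg hgs φ ha hb, ?_⟩
  exact sameSign_of rho4 G (dinc G (tdir A B) hadj) (dinc_mem G _ hadj) (dinc_inj G _ hadj hd)
    (chi (∑ v, φ v)) (chi_ne _) (tor_prod G A B hadj hAB htr g s hg hgs φ ha hb)

end

end Pool.Agent.K4H93.CY
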