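import Pool.Agent.K4H93.CY.TorI
set_option autoImplicit false

/-! Graphs of the Klein bottle type. -/

namespace Pool.Agent.K4H93.CY

open Finset Pool.Agent.W426.LE
open scoped Classical

/-- the neighbours -/
def kdir {V : Type} (A R T : Equiv.Perm V) (v : V) (q : Bool × Bool) : V :=
  if q.1 = true then (if q.2 = true then A v else A.symm v) else
    (if q.2 = true then R v else T v)

theorem klein_all {V : Type} [Fintype V] (G : SimpleGraph V) (A T : Equiv.Perm V) (m : ℕ)
    (hG : ∀ v w, G.Adj v w ↔ v ≠ w ∧ ∃ i, w = kdir A (A ^ m) T v i)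
    (hd : ∀ v, Function.Injective (kdir A (A ^ m) T v)) (hne : ∀ v i, kdir A (A ^ m) T v i ≠ v)
    (hAT : ∀ v, A (T v) = T (A v)) (hTT : ∀ v, T (T v) = v)
    (hm : Even m) (hper : ∀ v, (A ^ (m + m)) v = v) (v₀ : V)
    (hsum : ∀ (M : Type) [AddCommMonoid M] (F : V → M), ∑ v, F v =
      ∑ j ∈ range (m + m), (F ((A ^ j) v₀) + F ((A ^ j) (T v₀))))
    (e : V → ZMod 2) (he : ∀ v, e (A v) = e v + 1) (heT : ∀ v, e (T v) = e v)
    (θ : V → ZMod 2) (hθ : ∀ v, θ (A v) = θ v) (hθT : ∀ v, θ (T v) = θ v + 1) :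
    ATC G 4 ∧ SameSign G 4 := by
  have hadj : ∀ v i, G.Adj v (kdir A (A ^ m) T v i) := fun v i => (hG v _).2 ⟨(hne v i).symm, i, rfl⟩
  have hRR : ∀ v, (A ^ m) ((A ^ m) v) = v := by
    intro v
    rw [← Equiv.Perm.mul_apply, ← pow_add, hper]
  have d1 : ∀ v, A v ≠ (A ^ m) v := fun v h => by
    have h1 := hd v (a₁ := (true, true)) (a₂ := (false, true)) h
    simp at h1
  have d2 : ∀ v, A v ≠ T v := fun v h => by
    have h1 := hd v (a₁ := (true, true)) (a₂ := (false, false)) h
    simp at h1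
  have d3 : ∀ v, T v ≠ (A ^ m) v := fun v h => by
    have h1 := hd v (a₁ := (false, false)) (a₂ := (false, true)) h
    simp at h1
  have d4 : ∀ v, A v ≠ A.symm v := fun v h => by
    have h1 := hd v (a₁ := (true, true)) (a₂ := (true, false)) h
    simp at h1
  have hprod : ∀ x : G.edgeSet → Fin 4,
      (∀ v, sg rho4 (fun i => x (dinc G (kdir A (A ^ m) T) hadj v i)) ≠ 0) →
      ∏ v, sg rho4 (fun i => x (dinc G (kdir A (A ^ m) T) hadj v i)) = 1 := by
    intro x hx
    have hp : ∀ v, x (dinc G (kdir A (A ^ m) T) hadj (A.symm v) (true, true)) =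
        x (dinc G (kdir A (A ^ m) T) hadj v (true, false)) := by
      intro v
      congr 1
      apply Subtype.ext
      show s(A.symm v, A (A.symm v)) = s(v, A.symm v)
      rw [Equiv.apply_symm_apply, Sym2.eq_swap]
    have hr : ∀ v, x (dinc G (kdir A (A ^ m) T) hadj ((A ^ m) v) (false, true)) =
        x (dinc G (kdir A (A ^ m) T) hadj v (false, true)) := by
      intro v
      congr 1
      apply Subtype.ext
      show s((A ^ m) v, (A ^ m) ((A ^ m) v)) = s(v, (A ^ m) v)
      rw [hRR, Sym2.eq_swap]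
    have hs : ∀ v, x (dinc G (kdir A (A ^ m) T) hadj (T v) (false, false)) =
        x (dinc G (kdir A (A ^ m) T) hadj v (false, false)) := by
      intro v
      congr 1
      apply Subtype.ext
      show s(T v, T (T v)) = s(v, T v)
      rw [hTT, Sym2.eq_swap]
    have hval : ∀ v, sg rho4 (fun i => x (dinc G (kdir A (A ^ m) T) hadj v i)) =
        s4 (x (dinc G (kdir A (A ^ m) T) hadj v (true, true)))
          (x (dinc G (kdir A (A ^ m) T) hadj (A.symm v) (true, true)))
          (x (dinc G (kdir A (A ^ m) T) hadj v (false, true)))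
          (x (dinc G (kdir A (A ^ m) T) hadj v (false, false))) := by
      intro v
      rw [hp]
      exact sg_s4 _
    rw [Finset.prod_congr rfl fun v _ => hval v]
    exact sign_const' A T hAT hTT m hm hper v₀ hsum e he heT θ hθ hθT
      (fun v => x (dinc G (kdir A (A ^ m) T) hadj v (true, true)))
      (fun v => x (dinc G (kdir A (A ^ m) T) hadj v (false, true)))
      (fun v => x (dinc G (kdir A (A ^ m) T) hadj v (false, false))) hr hs
      (fun v => by rw [← hval]; exact hx v)
  have hall : ∀ v w, G.Adj v w → ∃ i, w = kdir A (A ^ m) T v i := fun v w h => ((hG v w).1 h).2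
  refine ⟨?_, sameSign_of rho4 G (dinc G _ hadj) (dinc_mem G _ hadj) (dinc_inj G _ hadj hd) 1
    one_ne_zero hprod⟩
  -- a colouring
  let x₀ : G.edgeSet → Fin 4 := fun ed =>
    if ∃ w, (ed : Sym2 V) = s(w, (A ^ m) w) then 2 else
      if ∃ w, (ed : Sym2 V) = s(w, T w) then 3 else
        if ∃ w, (ed : Sym2 V) = s(w, A w) ∧ e w = 0 then 0 else 1
  have x1 : ∀ v, x₀ (dinc G (kdir A (A ^ m) T) hadj v (false, true)) = 2 := by
    intro v
    exact if_pos ⟨v, rfl⟩
  have x2 : ∀ v, x₀ (dinc G (kdir A (A ^ m) T) hadj v (false, false)) = 3 := by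
    intro v
    refine (if_neg ?_).trans (if_pos ⟨v, rfl⟩)
    rintro ⟨w, hw⟩
    change s(v, T v) = s(w, (A ^ m) w) at hw
    rw [Sym2.eq_iff] at hw
    rcases hw with ⟨h1, h2⟩ | ⟨h1, h2⟩
    · rw [← h1] at h2
      exact d3 v h2
    · rw [← h2] at h1
      apply d3 v
      rw [h1, hRR, ← h1]
  have x3 : ∀ v, x₀ (dinc G (kdir A (A ^ m) T) hadj v (true, true)) = if e v = 0 then 0 else 1 := by
    intro v
    refine (if_neg ?_).trans ((if_neg ?_).trans ?_)
    · rintro ⟨w, hw⟩
      change s(v, A v) = s(w, (A ^ m) w) at hw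
      rw [Sym2.eq_iff] at hw
      rcases hw with ⟨h1, h2⟩ | ⟨h1, h2⟩
      · rw [← h1] at h2
        exact d1 v h2
      · rw [← h2] at h1
        have h3 := congrArg (fun z => (A ^ m) z) h1
        simp only [hRR] at h3
        exact d1 v h3.symm
    · rintro ⟨w, hw⟩
      change s(v, A v) = s(w, T w) at hw
      rw [Sym2.eq_iff] at hw
      rcases hw with ⟨h1, h2⟩ | ⟨h1, h2⟩
      · rw [← h1] at h2
        exact d2 v h2
      · rw [← h2] at h1
        have h3 := congrArg (fun z => T z) h1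
        simp only [hTT] at h3
        exact d2 v h3.symm
    · by_cases h0 : e v = 0
      · rw [if_pos h0]
        exact if_pos ⟨v, rfl, h0⟩
      · rw [if_neg h0]
        refine if_neg ?_
        rintro ⟨w, hw, hw0⟩
        change s(v, A v) = s(w, A w) at hw
        rw [Sym2.eq_iff] at hw
        rcases hw with ⟨h1, h2⟩ | ⟨h1, h2⟩
        · rw [← h1] at hw0
          exact h0 hw0
        · apply d4 v
          rw [Equiv.eq_symm_apply, h2]
          exact h1.symm
  have x4 : ∀ v, x₀ (dinc G (kdir A (A ^ m) T) hadj v (true, false)) =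
      if e (A.symm v) = 0 then 0 else 1 := by
    intro v
    rw [← x3]
    congr 1
    apply Subtype.ext
    show s(v, A.symm v) = s(A.symm v, A (A.symm v))
    rw [Equiv.apply_symm_apply, Sym2.eq_swap]
  refine ATC_of_same rho4 G (dinc G _ hadj) (dinc_mem G _ hadj) (dinc_all G _ hadj hall)
    (dinc_inj G _ hadj hd) 1 one_ne_zero hprod x₀ fun v => ?_
  rw [sg_s4, x1, x2, x3, x4]
  have h1 := he (A.symm v)
  rw [Equiv.apply_symm_apply] at h1
  rw [h1]
  generalize e (A.symm v) = y
  revert y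
  decide

end Pool.Agent.K4H93.CY
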