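import Pool.Agent.K4H93.CY.TorJ
set_option autoImplicit false

/-! Cayley graphs of abelian groups with two generators. -/

namespace Pool.Agent.K4H93.CY

open Finset Pool.Agent.W426.LE

section

variable {Γ : Type} [AddCommGroup Γ]

/-- a subgroup of index two without elements of the connection set -/
theorem bip_side (S : Set Γ) (K : AddSubgroup Γ) (s : Γ) (hs : s ∉ K)
    (h2 : ∀ v, v ∈ K ∨ v - s ∈ K) (hS : ∀ x ∈ S, x ∉ K) :
    ∃ side : Γ → Bool, ∀ v w, (SimpleGraph.circulantGraph S).Adj v w → side v ≠ side w := by
  classical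
  have key : ∀ v x, x ∉ K → (v ∈ K ↔ v + x ∉ K) := by
    intro v x hx
    constructor
    · intro h h'
      apply hx
      have h3 := K.sub_mem h' h
      rwa [add_sub_cancel_left] at h3
    · intro h
      by_contra hv
      apply h
      have h3 : v - s ∈ K := (h2 v).resolve_left hv
      have h4 : x - s ∈ K := (h2 x).resolve_left hx
      have h5 : s + s ∈ K := by
        rcases h2 (s + s) with h5 | h5
        · exact h5
        · rw [add_sub_cancel_right] at h5
          exact absurd h5 hs
      have h6 := K.add_mem (K.add_mem h3 h4) h5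
      have h7 : v - s + (x - s) + (s + s) = v + x := by abel
      rwa [h7] at h6
  refine ⟨fun v => decide (v ∈ K), ?_⟩
  intro v w hvw heq
  rw [SimpleGraph.circulantGraph, SimpleGraph.fromRel_adj] at hvw
  have heq' : v ∈ K ↔ w ∈ K := by simpa using heq
  rcases hvw.2 with h | h
  · have h1 := key w _ (hS _ h)
    have h3 : w + (v - w) = v := by abel
    rw [h3] at h1
    tauto
  · have h1 := key v _ (hS _ h)
    have h3 : v + (w - v) = w := by abel
    rw [h3] at h1
    tauto

/-- the case in which `b` has an odd multiple in the group generated by `a` -/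
theorem two_gen_aux [Finite Γ] (a b : Γ) (hgen : AddSubgroup.closure {a, b} = ⊤)
    (heven : Even (Nat.card Γ)) (h1 : a ≠ -a) (h2 : b ≠ -b) (h3 : a ≠ b) (h4 : a ≠ -b)
    (i j : ℤ) (hi : Even i) (hj : Odd j) (hij : i • a + j • b = 0) :
    ATC (SimpleGraph.circulantGraph {a, b}) 4 ∧ SameSign (SimpleGraph.circulantGraph {a, b}) 4 := by
  classical
  have := Fintype.ofFinite Γ
  have hrep : ∀ v : Γ, ∃ m n : ℤ, m • a + n • b = v := by
    intro v
    have h : v ∈ AddSubgroup.closure ({a, b} : Set Γ) := by rw [hgen]; trivial
    exact AddSubgroup.mem_closure_pair.1 h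
  -- the odd multiple
  obtain ⟨g, s, hg, hgs⟩ : ∃ g s : ℕ, Odd g ∧ g • b = s • a := by
    rcases Int.natAbs_eq j with h | h
    · obtain ⟨s, hs⟩ := exists_nat_smul a (-i)
      refine ⟨j.natAbs, s, Int.natAbs_odd.2 hj, ?_⟩
      rw [hs, ← natCast_zsmul, ← h, neg_smul]
      exact eq_neg_of_add_eq_zero_right hij
    · obtain ⟨s, hs⟩ := exists_nat_smul a i
      refine ⟨j.natAbs, s, Int.natAbs_odd.2 hj, ?_⟩
      have h5 : ((j.natAbs : ℕ) : ℤ) = -j := by omega
      rw [hs, ← natCast_zsmul, h5, neg_smul]
      exact (eq_neg_of_add_eq_zero_left hij).symm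
  -- the subgroup
  let K : AddSubgroup Γ := AddSubgroup.closure {a + a, b}
  have haK : a ∉ K := by
    intro h
    obtain ⟨m, n, hmn⟩ := AddSubgroup.mem_closure_pair.1 h
    have e1 : (2 * m - 1) • a + n • b = 0 := by
      rw [sub_smul, mul_comm, mul_smul, two_smul, one_smul]
      rw [smul_add] at hmn
      rw [← sub_eq_zero] at hmn
      rw [← hmn, smul_add]
      abel
    have hD : Odd ((2 * m - 1) * j - i * n) := by
      have h5 : Odd (2 * m - 1) := ⟨m - 1, by ring⟩
      have h6 : Even (i * n) := hi.mul_right n
      exact (h5.mul hj).sub_even h6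
    have ea : ((2 * m - 1) * j - i * n) • a = 0 := by
      have h5 : ((2 * m - 1) * j - i * n) • a = j • ((2 * m - 1) • a + n • b) -
          n • (i • a + j • b) := by
        module
      rw [h5, e1, hij, smul_zero, smul_zero, sub_zero]
    have eb : ((2 * m - 1) * j - i * n) • b = 0 := by
      have h5 : ((2 * m - 1) * j - i * n) • b = (2 * m - 1) • (i • a + j • b) -
          i • ((2 * m - 1) • a + n • b) := by
        module
      rw [h5, e1, hij, smul_zero, smul_zero, sub_zero]
    refine odd_smul heven _ hD fun v => ?_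
    obtain ⟨x, y, rfl⟩ := hrep v
    rw [smul_add, smul_comm _ x, smul_comm _ y, ea, eb, smul_zero, smul_zero, add_zero]
  have hbK : b ∈ K := AddSubgroup.subset_closure (by simp)
  have haa : a + a ∈ K := AddSubgroup.subset_closure (by simp)
  have hK2 : ∀ v, v ∈ K ∨ v - a ∈ K := by
    intro v
    obtain ⟨m, n, rfl⟩ := hrep v
    rcases Int.even_or_odd' m with ⟨k, hk | hk⟩
    · left
      have h5 : m • a + n • b = k • (a + a) + n • b := by
        rw [hk]
        module
      rw [h5]
      exact K.add_mem (K.zsmul_mem haa _) (K.zsmul_mem hbK _)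
    · right
      have h5 : m • a + n • b - a = k • (a + a) + n • b := by
        rw [hk]
        module
      rw [h5]
      exact K.add_mem (K.zsmul_mem haa _) (K.zsmul_mem hbK _)
  let A : Equiv.Perm Γ := Equiv.addRight a
  let B : Equiv.Perm Γ := Equiv.addRight b
  have hA : ∀ v, A v = v + a := fun v => rfl
  have hB : ∀ v, B v = v + b := fun v => rfl
  have hA' : ∀ v, A.symm v = v - a := fun v => (sub_eq_add_neg v a).symm
  have hB' : ∀ v, B.symm v = v - b := fun v => (sub_eq_add_neg v b).symm
  have hd : ∀ v, Function.Injective (tdir A B v) := by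
    intro v
    have e1 : v + a ≠ v - a := fun h => h1 (by rw [sub_eq_add_neg] at h; exact add_left_cancel h)
    have e2 : v + b ≠ v - b := fun h => h2 (by rw [sub_eq_add_neg] at h; exact add_left_cancel h)
    have e3 : v + a ≠ v + b := fun h => h3 (add_left_cancel h)
    have e4 : v + a ≠ v - b := fun h => h4 (by rw [sub_eq_add_neg] at h; exact add_left_cancel h)
    have e5 : v - a ≠ v + b := fun h => h4 (by
      rw [sub_eq_add_neg] at h
      have h5 := add_left_cancel h
      rw [← h5, neg_neg])
    have e6 : v - a ≠ v - b := fun h => h3 (by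
      rw [sub_eq_add_neg, sub_eq_add_neg] at h
      exact neg_injective (add_left_cancel h))
    rintro ⟨_ | _, _ | _⟩ ⟨_ | _, _ | _⟩ h <;> simp only [tdir, if_true, if_false, Bool.false_eq_true, hA, hB, hA', hB'] at h
    all_goals first
      | rfl
      | exact absurd h (by assumption)
      | exact absurd h.symm (by assumption)
  refine tor_all _ A B ?_ (fun v => by rw [hA, hB, hA, hB]; abel) (trans_add a b hgen) hd g s hg
    (fun v => by rw [pow_addRight, pow_addRight, hgs]) (kap K)
    (fun v => kap_add_of_not K a haK hK2 v) (fun v => kap_add_of_mem K v b hbK)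
  intro v w
  rw [SimpleGraph.circulantGraph, SimpleGraph.fromRel_adj]
  refine and_congr_right fun hne => ?_
  constructor
  · rintro ((h | h) | (h | h))
    · refine ⟨(true, false), ?_⟩
      show w = A.symm v
      rw [hA', ← h]; abel
    · refine ⟨(false, false), ?_⟩
      replace h : v - w = b := h
      show w = B.symm v
      rw [hB', ← h]; abel
    · refine ⟨(true, true), ?_⟩
      show w = A v
      rw [hA, ← h]; abel
    · refine ⟨(false, true), ?_⟩
      replace h : w - v = b := h
      show w = B v
      rw [hB, ← h]; abel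
  · rintro ⟨⟨_ | _, _ | _⟩, h⟩ <;> simp only [tdir, if_true, if_false, Bool.false_eq_true, hA, hB, hA', hB'] at h <;> subst h
    · left; right; show v - (v - b) = b; abel
    · right; right; show v + b - v = b; abel
    · left; left; show v - (v - a) = a; abel
    · right; left; show v + a - v = a; abel

/-- the result for a generating set -/
def Res (S : Set Γ) : Prop :=
  (∃ side : Γ → Bool, ∀ v w, (SimpleGraph.circulantGraph S).Adj v w → side v ≠ side w) ∨
    (ATC (SimpleGraph.circulantGraph S) 4 ∧ SameSign (SimpleGraph.circulantGraph S) 4)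

/-- two generators -/
theorem two_gen [Finite Γ] (a b : Γ) (hgen : AddSubgroup.closure {a, b} = ⊤)
    (heven : Even (Nat.card Γ)) (h1 : a ≠ -a) (h2 : b ≠ -b) (h3 : a ≠ b) (h4 : a ≠ -b) :
    Res {a, b} := by
  have hrep : ∀ v : Γ, ∃ m n : ℤ, m • a + n • b = v := by
    intro v
    have h : v ∈ AddSubgroup.closure ({a, b} : Set Γ) := by rw [hgen]; trivial
    exact AddSubgroup.mem_closure_pair.1 h
  let K : AddSubgroup Γ := AddSubgroup.closure {a + b, a - b}
  have k1 : a + b ∈ K := AddSubgroup.subset_closure (by simp)
  have k2 : a - b ∈ K := AddSubgroup.subset_closure (by simp)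
  by_cases haK : a ∈ K
  · right
    obtain ⟨m, n, hmn⟩ := AddSubgroup.mem_closure_pair.1 haK
    have hrel : (m + n - 1) • a + (m - n) • b = 0 := by
      have h5 : (m + n - 1) • a + (m - n) • b = (m • (a + b) + n • (a - b)) - a := by module
      rw [h5, hmn, sub_self]
    rcases Int.even_or_odd (m - n) with hj | hj
    · have hi : Odd (m + n - 1) := by
        obtain ⟨k, hk⟩ := hj
        exact ⟨n + k - 1, by omega⟩
      have h5 := two_gen_aux b a (by rw [Set.pair_comm]; exact hgen) heven h2 h1 h3.symm
        (fun h => h4 (by rw [h, neg_neg])) (m - n) (m + n - 1) hj hi (by rw [add_comm]; exact hrel)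
      rw [Set.pair_comm] at h5
      exact h5
    · have hi : Even (m + n - 1) := by
        obtain ⟨k, hk⟩ := hj
        exact ⟨n + k, by omega⟩
      exact two_gen_aux a b hgen heven h1 h2 h3 h4 _ _ hi hj hrel
  · left
    refine bip_side {a, b} K a haK ?_ ?_
    · intro v
      obtain ⟨m, n, rfl⟩ := hrep v
      rcases Int.even_or_odd' (m - n) with ⟨k, hk | hk⟩
      · left
        have h5 : m • a + n • b = (n + k) • (a + b) + k • (a - b) := by
          have h6 : m = n + 2 * k := by omega
          rw [h6]
          module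
        rw [h5]
        exact K.add_mem (K.zsmul_mem k1 _) (K.zsmul_mem k2 _)
      · right
        have h5 : m • a + n • b - a = (n + k) • (a + b) + k • (a - b) := by
          have h6 : m = n + 2 * k + 1 := by omega
          rw [h6]
          module
        rw [h5]
        exact K.add_mem (K.zsmul_mem k1 _) (K.zsmul_mem k2 _)
    · rintro x (rfl | hx)
      · exact haK
      · rw [Set.mem_singleton_iff] at hx
        subst hx
        intro hb
        have h5 := K.sub_mem k1 hb
        rw [add_sub_cancel_right] at h5
        exact haK h5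

end

end Pool.Agent.K4H93.CY
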