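import Pool.Agent.K4H93.CY.TorK
set_option autoImplicit false

/-! Cayley graphs of abelian groups with involutions: the twisted torus. -/

namespace Pool.Agent.K4H93.CY

open Finset Pool.Agent.W426.LE

section

variable {Γ : Type} [AddCommGroup Γ]

theorem rep3 (x y z v : Γ) (h : v ∈ AddSubgroup.closure ({x, y, z} : Set Γ)) :
    ∃ i j l : ℤ, i • x + j • y + l • z = v := by
  induction h using AddSubgroup.closure_induction with
  | mem w hw =>
    rcases hw with rfl | rfl | hw
    · exact ⟨1, 0, 0, by module⟩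
    · exact ⟨0, 1, 0, by module⟩
    · rw [Set.mem_singleton_iff] at hw
      subst hw
      exact ⟨0, 0, 1, by module⟩
  | zero => exact ⟨0, 0, 0, by module⟩
  | add u w _ _ hu hw =>
    obtain ⟨i, j, l, rfl⟩ := hu
    obtain ⟨i', j', l', rfl⟩ := hw
    exact ⟨i + i', j + j', l + l', by module⟩
  | neg u _ hu =>
    obtain ⟨i, j, l, rfl⟩ := hu
    exact ⟨-i, -j, -l, by module⟩

theorem ev_smul (t : Γ) (ht : t + t = 0) (n : ℤ) (hn : Even n) : n • t = 0 := by
  obtain ⟨k, rfl⟩ := hn
  have h1 : (k + k) • t = k • (t + t) := by module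
  rw [h1, ht, smul_zero]

theorem od_smul (t : Γ) (ht : t + t = 0) (n : ℤ) (hn : Odd n) : n • t = t := by
  obtain ⟨k, rfl⟩ := hn
  have h1 : (2 * k + 1) • t = k • (t + t) + t := by module
  rw [h1, ht, smul_zero, zero_add]

theorem idx_key (K : AddSubgroup Γ) (s : Γ) (hs : s ∉ K) (h2 : ∀ v, v ∈ K ∨ v - s ∈ K) (v x : Γ)
    (hx : x ∉ K) : v ∈ K ↔ v + x ∉ K := by
  constructor
  · intro h h'
    apply hx
    have h3 := K.sub_mem h' h
    rwa [add_sub_cancel_left] at h3
  · intro h
    by_contra hv
    apply h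
    have h3 : v - s ∈ K := (h2 v).resolve_left hv
    have h4 : x - s ∈ K := (h2 x).resolve_left hx
    have h5 : s + s ∈ K := by
      rcases h2 (s + s) with h5 | h5
      · exact h5
      · rw [add_sub_cancel_right] at h5
        exact absurd h5 hs
    have h6 := K.add_mem (K.add_mem h3 h4) h5
    have h7 : v - s + (x - s) + (s + s) = v + x := by abel
    rwa [h7] at h6

theorem kap_add_not (K : AddSubgroup Γ) (s : Γ) (hs : s ∉ K) (h2 : ∀ v, v ∈ K ∨ v - s ∈ K)
    (v x : Γ) (hx : x ∉ K) : kap K (v + x) = kap K v + 1 := by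
  have h := idx_key K s hs h2 v x hx
  unfold kap
  by_cases h1 : v ∈ K
  · rw [if_neg (h.1 h1), if_pos h1, zero_add]
  · have h3 : v + x ∈ K := by
      by_contra h3
      exact h1 (h.2 h3)
    rw [if_pos h3, if_neg h1]
    rfl

theorem const_of_inv {M : Type} (S : Set Γ) (hgen : AddSubgroup.closure S = ⊤) (W : Γ → M)
    (h : ∀ s ∈ S, ∀ v, W (v + s) = W v) (u v : Γ) : W u = W v := by
  have hWc : ∀ u : Γ, ∀ v, W (v + u) = W v := by
    intro u
    have hu : u ∈ AddSubgroup.closure S := by rw [hgen]; trivial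
    induction hu using AddSubgroup.closure_induction with
    | mem x hx => exact h x hx
    | zero => intro v; rw [add_zero]
    | add x y _ _ hx hy => intro v; rw [← add_assoc, hy, hx]
    | neg x _ hx =>
      intro v
      have h1 := hx (v + -x)
      rw [neg_add_cancel_right] at h1
      exact h1.symm
  have h1 := hWc (u - v) v
  rwa [add_sub_cancel] at h1

open scoped Classical in
/-- the twisted translation -/
noncomputable def tw (K : AddSubgroup Γ) (p q : Γ) (hp : p + p = 0) (hq : q + q = 0)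
    (h2 : ∀ v, v ∈ K ∨ v - p ∈ K) (hpK : p ∉ K) (hqK : q ∉ K) : Equiv.Perm Γ where
  toFun v := if v ∈ K then v + p else v + q
  invFun v := if v ∈ K then v + q else v + p
  left_inv v := by
    by_cases h : v ∈ K
    · simp only [h, if_true, (idx_key K p hpK h2 v p hpK).1 h, if_false]
      rw [add_assoc, hp, add_zero]
    · have h1 : v + q ∈ K := by
        by_contra h1
        exact h ((idx_key K p hpK h2 v q hqK).2 h1)
      simp only [h, if_false, h1, if_true]
      rw [add_assoc, hq, add_zero]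
  right_inv v := by
    by_cases h : v ∈ K
    · simp only [h, if_true, (idx_key K p hpK h2 v q hqK).1 h, if_false]
      rw [add_assoc, hq, add_zero]
    · have h1 : v + p ∈ K := by
        by_contra h1
        exact h ((idx_key K p hpK h2 v p hpK).2 h1)
      simp only [h, if_false, h1, if_true]
      rw [add_assoc, hp, add_zero]

section tw

variable (K : AddSubgroup Γ) (p q : Γ) (hp : p + p = 0) (hq : q + q = 0)
    (h2 : ∀ v, v ∈ K ∨ v - p ∈ K) (hpK : p ∉ K) (hqK : q ∉ K)

theorem tw_mem (v : Γ) (h : v ∈ K) : tw K p q hp hq h2 hpK hqK v = v + p := by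
  unfold tw
  simp only [Equiv.coe_fn_mk, h, if_true]

theorem tw_not (v : Γ) (h : v ∉ K) : tw K p q hp hq h2 hpK hqK v = v + q := by
  unfold tw
  simp only [Equiv.coe_fn_mk, h, if_false]

theorem tws_mem (v : Γ) (h : v ∈ K) : (tw K p q hp hq h2 hpK hqK).symm v = v + q := by
  unfold tw
  simp only [Equiv.coe_fn_symm_mk, h, if_true]

theorem tws_not (v : Γ) (h : v ∉ K) : (tw K p q hp hq h2 hpK hqK).symm v = v + p := by
  unfold tw
  simp only [Equiv.coe_fn_symm_mk, h, if_false]

theorem tw_two (v : Γ) : ((tw K p q hp hq h2 hpK hqK) ^ 2) v = v + (p + q) := by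
  rw [pow_two, Equiv.Perm.mul_apply]
  by_cases h : v ∈ K
  · rw [tw_mem K p q hp hq h2 hpK hqK v h,
      tw_not K p q hp hq h2 hpK hqK _ ((idx_key K p hpK h2 v p hpK).1 h)]
    abel
  · have h1 : v + q ∈ K := by
      by_contra h1
      exact h ((idx_key K p hpK h2 v q hqK).2 h1)
    rw [tw_not K p q hp hq h2 hpK hqK v h, tw_mem K p q hp hq h2 hpK hqK _ h1]
    abel

theorem tw_kap (v : Γ) : kap K (tw K p q hp hq h2 hpK hqK v) = kap K v + 1 := by
  by_cases h : v ∈ K
  · rw [tw_mem K p q hp hq h2 hpK hqK v h, kap_add_not K p hpK h2 v p hpK]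
  · rw [tw_not K p q hp hq h2 hpK hqK v h, kap_add_not K p hpK h2 v q hqK]

theorem tw_add (v a : Γ) (ha : a ∈ K) :
    tw K p q hp hq h2 hpK hqK (v + a) = tw K p q hp hq h2 hpK hqK v + a := by
  by_cases h : v ∈ K
  · rw [tw_mem K p q hp hq h2 hpK hqK v h, tw_mem K p q hp hq h2 hpK hqK _ (K.add_mem h ha)]
    abel
  · have h1 : v + a ∉ K := fun h1 => h ((K.add_mem_cancel_right ha).1 h1)
    rw [tw_not K p q hp hq h2 hpK hqK v h, tw_not K p q hp hq h2 hpK hqK _ h1]
    abel

/-- the two neighbours -/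
theorem tw_pair (v w : Γ) : (w = tw K p q hp hq h2 hpK hqK v ∨
    w = (tw K p q hp hq h2 hpK hqK).symm v) ↔ (w = v + p ∨ w = v + q) := by
  by_cases h : v ∈ K
  · rw [tw_mem K p q hp hq h2 hpK hqK v h, tws_mem K p q hp hq h2 hpK hqK v h]
  · rw [tw_not K p q hp hq h2 hpK hqK v h, tws_not K p q hp hq h2 hpK hqK v h, or_comm]

theorem tw_ne (hpq : p ≠ q) (v : Γ) : tw K p q hp hq h2 hpK hqK v ≠
    (tw K p q hp hq h2 hpK hqK).symm v := by
  by_cases h : v ∈ K
  · rw [tw_mem K p q hp hq h2 hpK hqK v h, tws_mem K p q hp hq h2 hpK hqK v h]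
    exact fun h => hpq (add_left_cancel h)
  · rw [tw_not K p q hp hq h2 hpK hqK v h, tws_not K p q hp hq h2 hpK hqK v h]
    exact fun h => hpq (add_left_cancel h).symm

theorem tw_W {M : Type} (W : Γ → M) (hW : ∀ v, W (tw K p q hp hq h2 hpK hqK v) = W v) (v : Γ) :
    W (v + p) = W v ∧ W (v + q) = W v := by
  have hW' : ∀ v, W ((tw K p q hp hq h2 hpK hqK).symm v) = W v := by
    intro v
    have h1 := hW ((tw K p q hp hq h2 hpK hqK).symm v)
    rw [Equiv.apply_symm_apply] at h1
    exact h1.symm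
  by_cases h : v ∈ K
  · rw [← tw_mem K p q hp hq h2 hpK hqK v h, ← tws_mem K p q hp hq h2 hpK hqK v h]
    exact ⟨hW v, hW' v⟩
  · rw [← tw_not K p q hp hq h2 hpK hqK v h, ← tws_not K p q hp hq h2 hpK hqK v h]
    exact ⟨hW' v, hW v⟩

end tw

theorem circ_adj3 (S : Set Γ) (v w : Γ) : (SimpleGraph.circulantGraph S).Adj v w ↔
    v ≠ w ∧ ∃ s ∈ S, w = v + s ∨ w = v - s := by
  rw [SimpleGraph.circulantGraph, SimpleGraph.fromRel_adj]
  refine and_congr_right fun _ => ?_
  constructor
  · rintro (h | h)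
    · exact ⟨_, h, Or.inr (by abel)⟩
    · exact ⟨_, h, Or.inl (by abel)⟩
  · rintro ⟨s, hs, rfl | rfl⟩
    · right
      rw [add_sub_cancel_left]
      exact hs
    · left
      have h1 : v - (v - s) = s := by abel
      rw [h1]
      exact hs

/-- the twisted torus -/
theorem tw_case [Finite Γ] (a t u : Γ) (ha : a ≠ -a) (ht : t + t = 0) (hu : u + u = 0)
    (ht0 : t ≠ 0) (hu0 : u ≠ 0) (htu : t ≠ u) (hgen : AddSubgroup.closure {a, t, u} = ⊤)
    (g : ℕ) (hg : Odd g) (hga : g • a = 0 ∨ g • a = t + u) :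
    ATC (SimpleGraph.circulantGraph {a, t, u}) 4 ∧ SameSign (SimpleGraph.circulantGraph {a, t, u}) 4 := by
  classical
  have := Fintype.ofFinite Γ
  have hrep : ∀ v : Γ, ∃ i j l : ℤ, i • a + j • t + l • u = v := fun v =>
    rep3 a t u v (by rw [hgen]; trivial)
  let K : AddSubgroup Γ := AddSubgroup.closure {a, t + u}
  have haK : a ∈ K := AddSubgroup.subset_closure (by simp)
  have htuK : t + u ∈ K := AddSubgroup.subset_closure (by simp)
  have hsum0 : (t + u) + (t + u) = 0 := by
    have h1 : (t + u) + (t + u) = (t + t) + (u + u) := by abel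
    rw [h1, ht, hu, add_zero]
  have htK : t ∉ K := by
    intro h
    obtain ⟨i, j, hij⟩ := AddSubgroup.mem_closure_pair.1 h
    have h1 : t = i • (g • a) + j • (t + u) := by
      have hgo : Odd (g : ℤ) := by exact_mod_cast hg
      have e1 : (g : ℤ) • t = (g : ℤ) • (i • a + j • (t + u)) := by rw [hij]
      have e2 : (g : ℤ) • (i • a + j • (t + u)) = i • ((g : ℤ) • a) + j • ((g : ℤ) • (t + u)) := by
        module
      rw [od_smul t ht g hgo, e2, od_smul _ hsum0 g hgo, natCast_zsmul] at e1
      exact e1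
    have h3 : ∃ l : ℤ, t = l • (t + u) := by
      rcases hga with h4 | h4
      · rw [h4, smul_zero, zero_add] at h1
        exact ⟨j, h1⟩
      · rw [h4] at h1
        exact ⟨i + j, by rw [add_smul]; exact h1⟩
    obtain ⟨l, hl⟩ := h3
    rcases Int.even_or_odd l with h4 | h4
    · rw [ev_smul _ hsum0 l h4] at hl
      exact ht0 hl
    · rw [od_smul _ hsum0 l h4] at hl
      exact hu0 (left_eq_add.1 hl)
  have huK : u ∉ K := by
    intro h
    have h1 := K.sub_mem htuK h
    rw [add_sub_cancel_right] at h1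
    exact htK h1
  have h2 : ∀ v, v ∈ K ∨ v - t ∈ K := by
    intro v
    obtain ⟨i, j, l, rfl⟩ := hrep v
    rcases Int.even_or_odd (j - l) with h | h
    · left
      have h3 : i • a + j • t + l • u = i • a + l • (t + u) + (j - l) • t := by module
      rw [h3, ev_smul t ht _ h, add_zero]
      exact K.add_mem (K.zsmul_mem haK _) (K.zsmul_mem htuK _)
    · right
      have h3 : i • a + j • t + l • u - t = i • a + l • (t + u) + ((j - l) • t - t) := by module
      rw [h3, od_smul t ht _ h, sub_self, add_zero]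
      exact K.add_mem (K.zsmul_mem haK _) (K.zsmul_mem htuK _)
  let A : Equiv.Perm Γ := tw K t u ht hu h2 htK huK
  let B : Equiv.Perm Γ := Equiv.addRight a
  have hB : ∀ v, B v = v + a := fun v => rfl
  have hB' : ∀ v, B.symm v = v - a := fun v => (sub_eq_add_neg v a).symm
  have ne1 : t ≠ a := fun h => ha (by rw [← h]; exact eq_neg_of_add_eq_zero_left ht)
  have ne2 : u ≠ a := fun h => ha (by rw [← h]; exact eq_neg_of_add_eq_zero_left hu)
  have ne3 : t ≠ -a := fun h => by
    have h3 : -t = t := neg_eq_of_add_eq_zero_left ht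
    apply ne1
    rw [← h3, h, neg_neg]
  have ne4 : u ≠ -a := fun h => by
    have h3 : -u = u := neg_eq_of_add_eq_zero_left hu
    apply ne2
    rw [← h3, h, neg_neg]
  have hpair : ∀ v w, (w = A v ∨ w = A.symm v) ↔ (w = v + t ∨ w = v + u) :=
    tw_pair K t u ht hu h2 htK huK
  have hAv : ∀ v, A v = v + t ∨ A v = v + u := fun v => (hpair v _).1 (Or.inl rfl)
  have hAv' : ∀ v, A.symm v = v + t ∨ A.symm v = v + u := fun v => (hpair v _).1 (Or.inr rfl)
  have hAA : ∀ v, A v ≠ A.symm v := tw_ne K t u ht hu h2 htK huK htu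
  have hq1 : ∀ v x, (x = v + t ∨ x = v + u) → x ≠ v + a := by
    rintro v x (rfl | rfl) h
    · exact ne1 (add_left_cancel h)
    · exact ne2 (add_left_cancel h)
  have hq2 : ∀ v x, (x = v + t ∨ x = v + u) → x ≠ v - a := by
    rintro v x (rfl | rfl) h
    · rw [sub_eq_add_neg] at h
      exact ne3 (add_left_cancel h)
    · rw [sub_eq_add_neg] at h
      exact ne4 (add_left_cancel h)
  have hd : ∀ v, Function.Injective (tdir A B v) := by
    intro v
    have e0 : v + a ≠ v - a := fun h => ha (by rw [sub_eq_add_neg] at h; exact add_left_cancel h)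
    have e1 := hAA v
    have e2 := hq1 v _ (hAv v)
    have e3 := hq1 v _ (hAv' v)
    have e4 := hq2 v _ (hAv v)
    have e5 := hq2 v _ (hAv' v)
    rintro ⟨_ | _, _ | _⟩ ⟨_ | _, _ | _⟩ h <;> simp only [tdir, if_true, if_false, Bool.false_eq_true, hB, hB'] at h
    all_goals first
      | rfl
      | exact absurd h (by assumption)
      | exact absurd h.symm (by assumption)
  refine tor_all _ A B ?_ ?_ ?_ hd g (if g • a = 0 then 0 else 2) hg ?_ (kap K)
    (tw_kap K t u ht hu h2 htK huK) (fun v => kap_add_of_mem K v a haK)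
  · intro v w
    rw [circ_adj3]
    refine and_congr_right fun hne => ?_
    constructor
    · rintro ⟨s, hs, hw⟩
      rcases hs with rfl | rfl | hs
      · rcases hw with hw | hw
        · exact ⟨(false, true), hw⟩
        · exact ⟨(false, false), by rw [hw]; exact (hB' v).symm⟩
      · have h3 : w = v + s := by
          rcases hw with hw | hw
          · exact hw
          · rw [hw, sub_eq_add_neg, neg_eq_of_add_eq_zero_left ht]
        rcases (hpair v w).2 (Or.inl h3) with h4 | h4
        · exact ⟨(true, true), h4⟩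
        · exact ⟨(true, false), h4⟩
      · rw [Set.mem_singleton_iff] at hs
        subst hs
        have h3 : w = v + s := by
          rcases hw with hw | hw
          · exact hw
          · rw [hw, sub_eq_add_neg, neg_eq_of_add_eq_zero_left hu]
        rcases (hpair v w).2 (Or.inr h3) with h4 | h4
        · exact ⟨(true, true), h4⟩
        · exact ⟨(true, false), h4⟩
    · rintro ⟨⟨_ | _, _ | _⟩, h⟩
      · exact ⟨a, by simp, Or.inr (by rw [← hB']; exact h)⟩
      · exact ⟨a, by simp, Or.inl h⟩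
      · rcases (hpair v w).1 (Or.inr h) with h4 | h4
        · exact ⟨t, by simp, Or.inl h4⟩
        · exact ⟨u, by simp, Or.inl h4⟩
      · rcases (hpair v w).1 (Or.inl h) with h4 | h4
        · exact ⟨t, by simp, Or.inl h4⟩
        · exact ⟨u, by simp, Or.inl h4⟩
  · intro v
    exact tw_add K t u ht hu h2 htK huK v a haK
  · intro W hWA hWB
    refine const_of_inv {a, t, u} hgen W ?_
    rintro s (rfl | rfl | hs) v
    · exact hWB v
    · exact (tw_W K s u ht hu h2 htK huK W hWA v).1
    · rw [Set.mem_singleton_iff] at hs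
      subst hs
      exact (tw_W K t s ht hu h2 htK huK W hWA v).2
  · intro v
    rw [pow_addRight]
    split_ifs with h3
    · rw [h3, add_zero]
      rfl
    · rw [hga.resolve_left h3]
      exact (tw_two K t u ht hu h2 htK huK v).symm

end

end Pool.Agent.K4H93.CY
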