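import Pool.Agent.K4H93.CY.TorL
set_option autoImplicit false

/-! Cayley graphs of abelian groups with involutions: the exceptional cases. -/

namespace Pool.Agent.K4H93.CY

open Finset Pool.Agent.W426.LE

/-- the vertices in two rows -/
theorem hsum_gen {V : Type} [Fintype V] (A T : Equiv.Perm V) (n : ℕ) (hn : 0 < n)
    (hAn : ∀ v, (A ^ n) v = v) (hAT : ∀ v, A (T v) = T (A v)) (hTT : ∀ v, T (T v) = v)
    (θ : V → ZMod 2) (hθ : ∀ v, θ (A v) = θ v) (hθT : ∀ v, θ (T v) = θ v + 1)
    (hfree : ∀ j, 0 < j → j < n → ∀ v, (A ^ j) v ≠ v)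
    (htr : ∀ W : V → Prop, (∀ v, W (A v) = W v) → (∀ v, W (T v) = W v) → ∀ u v, W u = W v) (v₀ : V)
    (M : Type) [AddCommMonoid M] (F : V → M) :
    ∑ v, F v = ∑ j ∈ range n, (F ((A ^ j) v₀) + F ((A ^ j) (T v₀))) := by
  classical
  let g : Fin n × Bool → V := fun q => (A ^ (q.1 : ℕ)) (if q.2 = true then T v₀ else v₀)
  have hinv : ∀ (j : ℕ) (v : V), θ ((A ^ j) v) = θ v := by
    intro j v
    induction j with
    | zero => rfl
    | succ j ih => rw [pow_succ_app, hθ, ih]
  have hTA : ∀ (j : ℕ) (v : V), (A ^ j) (T v) = T ((A ^ j) v) := by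
    intro j v
    induction j with
    | zero => rfl
    | succ j ih => rw [pow_succ_app, ih, hAT, ← pow_succ_app]
  have hmod : ∀ (j : ℕ) (v : V), (A ^ (j % n)) v = (A ^ j) v := by
    intro j v
    conv_rhs => rw [← Nat.mod_add_div j n, pow_add, pow_mul, Equiv.Perm.mul_apply]
    congr 1
    generalize j / n = k
    induction k with
    | zero => rfl
    | succ k ih => rw [pow_succ', Equiv.Perm.mul_apply, ← ih, hAn]
  have hlt : ∀ (i j : ℕ) (v : V), i < j → j < n → (A ^ i) v ≠ (A ^ j) v := by
    intro i j v hij hj h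
    have h1 : (A ^ j) v = (A ^ (j - i)) ((A ^ i) v) := by
      rw [← Equiv.Perm.mul_apply, ← pow_add, Nat.sub_add_cancel hij.le]
    rw [h1] at h
    exact hfree (j - i) (by omega) (by omega) _ h.symm
  have hginj : Function.Injective g := by
    rintro ⟨i, b⟩ ⟨j, c⟩ h
    change (A ^ (i : ℕ)) (if b = true then T v₀ else v₀) = (A ^ (j : ℕ)) (if c = true then T v₀ else v₀) at h
    have h1 := congrArg θ h
    rw [hinv, hinv] at h1
    have hbc : b = c := by
      cases b <;> cases c
      · rfl
      · exfalso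
        simp only [Bool.false_eq_true, if_true, if_false, hθT] at h1
        revert h1
        generalize θ v₀ = x
        revert x
        decide
      · exfalso
        simp only [Bool.false_eq_true, if_true, if_false, hθT] at h1
        revert h1
        generalize θ v₀ = x
        revert x
        decide
      · rfl
    subst hbc
    have hij : (i : ℕ) = (j : ℕ) := by
      rcases lt_trichotomy (i : ℕ) (j : ℕ) with h2 | h2 | h2
      · exact absurd h (hlt _ _ _ h2 j.2)
      · exact h2
      · exact absurd h.symm (hlt _ _ _ h2 i.2)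
    rw [Fin.ext hij]
  have hgsurj : Function.Surjective g := by
    let W : V → Prop := fun v => ∃ q, g q = v
    have hto : ∀ v, W v → W (A v) := by
      rintro v ⟨⟨i, b⟩, rfl⟩
      refine ⟨(⟨((i : ℕ) + 1) % n, Nat.mod_lt _ hn⟩, b), ?_⟩
      show (A ^ (((i : ℕ) + 1) % n)) _ = A ((A ^ (i : ℕ)) _)
      rw [hmod, pow_succ_app]
    have hpw : ∀ (j : ℕ) (v : V), W v → W ((A ^ j) v) := by
      intro j v hv
      induction j with
      | zero => exact hv
      | succ j ih =>
        rw [pow_succ_app]
        exact hto _ ih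
    have hfrom : ∀ v, W (A v) → W v := by
      intro v hv
      have h1 := hpw (n - 1) _ hv
      rw [← Equiv.Perm.mul_apply, ← pow_succ, Nat.sub_add_cancel hn, hAn] at h1
      exact h1
    have hT : ∀ v, W v → W (T v) := by
      rintro v ⟨⟨i, b⟩, rfl⟩
      refine ⟨(i, !b), ?_⟩
      show (A ^ (i : ℕ)) _ = T ((A ^ (i : ℕ)) _)
      rw [← hTA]
      cases b
      · rfl
      · simp [hTT]
    have hT' : ∀ v, W (T v) → W v := by
      intro v hv
      have h1 := hT _ hv
      rwa [hTT] at h1
    intro v
    have h1 := htr W (fun v => propext ⟨hfrom v, hto v⟩) (fun v => propext ⟨hT' v, hT v⟩) v₀ v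
    have h2 : W v₀ := ⟨(⟨0, hn⟩, false), rfl⟩
    rw [h1] at h2
    exact h2
  rw [← Function.Bijective.sum_comp ⟨hginj, hgsurj⟩ F, Fintype.sum_prod_type, Finset.sum_range]
  refine Finset.sum_congr rfl fun j _ => ?_
  rw [Fintype.sum_bool, add_comm]
  rfl

section

variable {Γ : Type} [AddCommGroup Γ]

/-- products of Moebius ladders with an edge -/
theorem exc_case [Finite Γ] (a t u : Γ) (m : ℕ) (hm : Even m) (ho : addOrderOf a = m + m)
    (hma : m • a = t) (ha : a ≠ -a) (ht : t + t = 0) (hu : u + u = 0) (ht0 : t ≠ 0) (hu0 : u ≠ 0)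
    (htu : t ≠ u) (hua : u ∉ AddSubgroup.zmultiples a)
    (hgen : AddSubgroup.closure {a, t, u} = ⊤) :
    ATC (SimpleGraph.circulantGraph {a, t, u}) 4 ∧ SameSign (SimpleGraph.circulantGraph {a, t, u}) 4 := by
  classical
  have := Fintype.ofFinite Γ
  have hrep : ∀ v : Γ, ∃ i l : ℤ, i • a + l • u = v := by
    intro v
    obtain ⟨i, j, l, h⟩ := rep3 a t u v (by rw [hgen]; trivial)
    refine ⟨i + j * m, l, ?_⟩
    rw [← h, ← hma, ← natCast_zsmul]
    module
  have hopos : 0 < m + m := by
    rw [← ho]
    exact addOrderOf_pos a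
  let K : AddSubgroup Γ := AddSubgroup.closure {a + a, u}
  have haaK : a + a ∈ K := AddSubgroup.subset_closure (by simp)
  have huK : u ∈ K := AddSubgroup.subset_closure (by simp)
  have haK : a ∉ K := by
    intro h
    obtain ⟨x, y, hxy⟩ := AddSubgroup.mem_closure_pair.1 h
    rcases Int.even_or_odd y with hy | hy
    · rw [ev_smul u hu y hy, add_zero] at hxy
      have h1 : (2 * x - 1) • a = 0 := by
        have h2 : (2 * x - 1) • a = x • (a + a) - a := by module
        rw [h2, hxy, sub_self]
      have h2 := addOrderOf_dvd_iff_zsmul_eq_zero.2 h1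
      rw [ho] at h2
      obtain ⟨c, hc⟩ := h2
      push_cast at hc
      have h3 : (2 * x - 1) = 2 * (m * c) := by rw [hc]; ring
      omega
    · rw [od_smul u hu y hy] at hxy
      apply hua
      refine ⟨1 - 2 * x, ?_⟩
      show (1 - 2 * x) • a = u
      have h2 : (1 - 2 * x) • a = a - x • (a + a) := by module
      rw [h2]
      exact sub_eq_of_eq_add' hxy.symm
  have hK2 : ∀ v, v ∈ K ∨ v - a ∈ K := by
    intro v
    obtain ⟨i, l, rfl⟩ := hrep v
    rcases Int.even_or_odd' i with ⟨k, hk | hk⟩
    · left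
      have h5 : i • a + l • u = k • (a + a) + l • u := by
        rw [hk]
        module
      rw [h5]
      exact K.add_mem (K.zsmul_mem haaK _) (K.zsmul_mem huK _)
    · right
      have h5 : i • a + l • u - a = k • (a + a) + l • u := by
        rw [hk]
        module
      rw [h5]
      exact K.add_mem (K.zsmul_mem haaK _) (K.zsmul_mem huK _)
  let Z : AddSubgroup Γ := AddSubgroup.zmultiples a
  have haZ : a ∈ Z := AddSubgroup.mem_zmultiples a
  have hZ2 : ∀ v, v ∈ Z ∨ v - u ∈ Z := by
    intro v
    obtain ⟨i, l, rfl⟩ := hrep v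
    rcases Int.even_or_odd l with hl | hl
    · left
      rw [ev_smul u hu l hl, add_zero]
      exact Z.zsmul_mem haZ _
    · right
      rw [od_smul u hu l hl, add_sub_cancel_right]
      exact Z.zsmul_mem haZ _
  let A : Equiv.Perm Γ := Equiv.addRight a
  let T : Equiv.Perm Γ := Equiv.addRight u
  have hA : ∀ v, A v = v + a := fun v => rfl
  have hT : ∀ v, T v = v + u := fun v => rfl
  have hA' : ∀ v, A.symm v = v - a := fun v => (sub_eq_add_neg v a).symm
  have hAm : ∀ v, (A ^ m) v = v + t := fun v => by rw [pow_addRight, hma]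
  have hper : ∀ v, (A ^ (m + m)) v = v := by
    intro v
    rw [pow_addRight, ← ho, addOrderOf_nsmul_eq_zero, add_zero]
  have hTT : ∀ v, T (T v) = v := fun v => by rw [hT, hT, add_assoc, hu, add_zero]
  have hAT : ∀ v, A (T v) = T (A v) := fun v => by rw [hA, hT, hT, hA]; abel
  have e0 : ∀ v, v + a ≠ v - a := fun v h => ha (by rw [sub_eq_add_neg] at h; exact add_left_cancel h)
  have ne1 : t ≠ a := fun h => ha (by rw [← h]; exact eq_neg_of_add_eq_zero_left ht)
  have ne2 : u ≠ a := fun h => ha (by rw [← h]; exact eq_neg_of_add_eq_zero_left hu)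
  have ne3 : t ≠ -a := fun h => by
    have h3 : -t = t := neg_eq_of_add_eq_zero_left ht
    apply ne1
    rw [← h3, h, neg_neg]
  have ne4 : u ≠ -a := fun h => by
    have h3 : -u = u := neg_eq_of_add_eq_zero_left hu
    apply ne2
    rw [← h3, h, neg_neg]
  have ha0 : a ≠ 0 := fun h => ha (by rw [h, neg_zero])
  refine klein_all _ A T m ?_ ?_ ?_ hAT hTT hm hper 0
    (fun M _ F => hsum_gen A T (m + m) hopos hper hAT hTT (kap Z)
      (fun v => kap_add_of_mem Z v a haZ) (fun v => kap_add_not Z u hua hZ2 v u hua) ?_ ?_ 0 M F)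
    (kap K) (fun v => kap_add_not K a haK hK2 v a haK) (fun v => kap_add_of_mem K v u huK)
    (kap Z) (fun v => kap_add_of_mem Z v a haZ) (fun v => kap_add_not Z u hua hZ2 v u hua)
  · intro v w
    rw [circ_adj3]
    refine and_congr_right fun hne => ?_
    constructor
    · rintro ⟨s, hs, hw⟩
      rcases hs with rfl | rfl | hs
      · rcases hw with hw | hw
        · exact ⟨(true, true), hw⟩
        · exact ⟨(true, false), by rw [hw]; exact (hA' v).symm⟩
      · have h3 : w = v + s := by
          rcases hw with hw | hw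
          · exact hw
          · rw [hw, sub_eq_add_neg, neg_eq_of_add_eq_zero_left ht]
        exact ⟨(false, true), by rw [h3]; exact (hAm v).symm⟩
      · rw [Set.mem_singleton_iff] at hs
        subst hs
        have h3 : w = v + s := by
          rcases hw with hw | hw
          · exact hw
          · rw [hw, sub_eq_add_neg, neg_eq_of_add_eq_zero_left hu]
        exact ⟨(false, false), h3⟩
    · rintro ⟨⟨_ | _, _ | _⟩, h⟩
      · exact ⟨u, by simp, Or.inl h⟩
      · exact ⟨t, by simp, Or.inl (by rw [← hAm]; exact h)⟩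
      · exact ⟨a, by simp, Or.inr (by rw [← hA']; exact h)⟩
      · exact ⟨a, by simp, Or.inl h⟩
  · intro v
    have f0 := e0 v
    have f1 : v + t ≠ v + a := fun h => ne1 (add_left_cancel h)
    have f2 : v + u ≠ v + a := fun h => ne2 (add_left_cancel h)
    have f3 : v + t ≠ v - a := fun h => ne3 (by rw [sub_eq_add_neg] at h; exact add_left_cancel h)
    have f4 : v + u ≠ v - a := fun h => ne4 (by rw [sub_eq_add_neg] at h; exact add_left_cancel h)
    have f5 : v + t ≠ v + u := fun h => htu (add_left_cancel h)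
    rintro ⟨_ | _, _ | _⟩ ⟨_ | _, _ | _⟩ h <;> simp only [kdir, if_true, if_false, Bool.false_eq_true, hA, hA', hAm, hT] at h
    all_goals first
      | rfl
      | exact absurd h (by assumption)
      | exact absurd h.symm (by assumption)
  · rintro v ⟨_ | _, _ | _⟩ h
    · exact hu0 (add_eq_left.1 (show v + u = v from h))
    · exact ht0 (add_eq_left.1 (show v + t = v from by rw [← hAm]; exact h))
    · exact ha0 (by
        have h1 : v - a = v := by rw [← hA']; exact h
        exact sub_eq_self.1 h1)
    · exact ha0 (add_eq_left.1 (show v + a = v from h))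
  · intro j hj hjn v h
    rw [pow_addRight] at h
    have h1 := add_eq_left.1 h
    have h2 := addOrderOf_dvd_of_nsmul_eq_zero h1
    rw [ho] at h2
    exact absurd (Nat.le_of_dvd hj h2) (not_le.2 hjn)
  · intro W hWA hWT x y
    have hWa : ∀ k : ℕ, ∀ v, W (v + k • a) = W v := by
      intro k
      induction k with
      | zero => intro v; simp
      | succ k ih =>
        intro v
        rw [succ_nsmul, ← add_assoc]
        exact (hWA _).trans (ih v)
    refine const_of_inv {a, t, u} hgen W ?_ x y
    rintro s (rfl | rfl | hs) v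
    · exact hWA v
    · rw [← hma]
      exact hWa m v
    · rw [Set.mem_singleton_iff] at hs
      subst hs
      exact hWT v

end

end Pool.Agent.K4H93.CY
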