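import Pool.Agent.K4H93.CY.TorM
set_option autoImplicit false

/-! Cayley graphs of abelian groups with four involutions. -/

namespace Pool.Agent.K4H93.CY

open Finset Pool.Agent.W426.LE

section

variable {Γ : Type} [AddCommGroup Γ]

/-- the product of the complete graph with four vertices and an edge -/
theorem four_case [Finite Γ] (p q r : Γ) (hp : p + p = 0) (hq : q + q = 0) (hr : r + r = 0)
    (hp0 : p ≠ 0) (hq0 : q ≠ 0) (hr0 : r ≠ 0) (hpq : p ≠ q) (hpr : p ≠ r) (hqr : q ≠ r)
    (hpqr : p + q ≠ r) (hgen : AddSubgroup.closure {p, q, r} = ⊤) :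
    ATC (SimpleGraph.circulantGraph {p, q, p + q, r}) 4 ∧
      SameSign (SimpleGraph.circulantGraph {p, q, p + q, r}) 4 := by
  classical
  have := Fintype.ofFinite Γ
  have hrep : ∀ v : Γ, ∃ i j l : ℤ, i • p + j • q + l • r = v := fun v =>
    rep3 p q r v (by rw [hgen]; trivial)
  have hs0 : (p + q) + (p + q) = 0 := by
    have h1 : (p + q) + (p + q) = (p + p) + (q + q) := by abel
    rw [h1, hp, hq, add_zero]
  have hpq0 : p + q ≠ 0 := fun h => hpq (by
    have h1 := eq_neg_of_add_eq_zero_left h
    rw [h1, neg_eq_of_add_eq_zero_left hq])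
  let K : AddSubgroup Γ := AddSubgroup.closure {p + q, r}
  have hpqK : p + q ∈ K := AddSubgroup.subset_closure (by simp)
  have hrK : r ∈ K := AddSubgroup.subset_closure (by simp)
  have hpK : p ∉ K := by
    intro h
    obtain ⟨x, y, hxy⟩ := AddSubgroup.mem_closure_pair.1 h
    rcases Int.even_or_odd x with hx | hx <;> rcases Int.even_or_odd y with hy | hy
    · rw [ev_smul _ hs0 x hx, ev_smul r hr y hy, add_zero] at hxy
      exact hp0 hxy.symm
    · rw [ev_smul _ hs0 x hx, od_smul r hr y hy, zero_add] at hxy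
      exact hpr hxy.symm
    · rw [od_smul _ hs0 x hx, ev_smul r hr y hy, add_zero] at hxy
      exact hq0 (add_eq_left.1 hxy)
    · rw [od_smul _ hs0 x hx, od_smul r hr y hy, add_assoc] at hxy
      have h1 := add_eq_left.1 hxy
      have h2 := eq_neg_of_add_eq_zero_left h1
      rw [neg_eq_of_add_eq_zero_left hr] at h2
      exact hqr h2
  have hqK : q ∉ K := by
    intro h
    have h1 := K.sub_mem hpqK h
    rw [add_sub_cancel_right] at h1
    exact hpK h1
  have hK2 : ∀ v, v ∈ K ∨ v - p ∈ K := by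
    intro v
    obtain ⟨i, j, l, rfl⟩ := hrep v
    rcases Int.even_or_odd (i - j) with h | h
    · left
      have h3 : i • p + j • q + l • r = j • (p + q) + l • r + (i - j) • p := by module
      rw [h3, ev_smul p hp _ h, add_zero]
      exact K.add_mem (K.zsmul_mem hpqK _) (K.zsmul_mem hrK _)
    · right
      have h3 : i • p + j • q + l • r - p = j • (p + q) + l • r + ((i - j) • p - p) := by module
      rw [h3, od_smul p hp _ h, sub_self, add_zero]
      exact K.add_mem (K.zsmul_mem hpqK _) (K.zsmul_mem hrK _)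
  let Z : AddSubgroup Γ := AddSubgroup.closure {p, q}
  have hpZ : p ∈ Z := AddSubgroup.subset_closure (by simp)
  have hqZ : q ∈ Z := AddSubgroup.subset_closure (by simp)
  have hrZ : r ∉ Z := by
    intro h
    obtain ⟨x, y, hxy⟩ := AddSubgroup.mem_closure_pair.1 h
    rcases Int.even_or_odd x with hx | hx <;> rcases Int.even_or_odd y with hy | hy
    · rw [ev_smul p hp x hx, ev_smul q hq y hy, add_zero] at hxy
      exact hr0 hxy.symm
    · rw [ev_smul p hp x hx, od_smul q hq y hy, zero_add] at hxy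
      exact hqr hxy
    · rw [od_smul p hp x hx, ev_smul q hq y hy, add_zero] at hxy
      exact hpr hxy
    · rw [od_smul p hp x hx, od_smul q hq y hy] at hxy
      exact hpqr hxy
  have hZ2 : ∀ v, v ∈ Z ∨ v - r ∈ Z := by
    intro v
    obtain ⟨i, j, l, rfl⟩ := hrep v
    rcases Int.even_or_odd l with hl | hl
    · left
      rw [ev_smul r hr l hl, add_zero]
      exact Z.add_mem (Z.zsmul_mem hpZ _) (Z.zsmul_mem hqZ _)
    · right
      rw [od_smul r hr l hl, add_sub_cancel_right]
      exact Z.add_mem (Z.zsmul_mem hpZ _) (Z.zsmul_mem hqZ _)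
  let A : Equiv.Perm Γ := tw K p q hp hq hK2 hpK hqK
  let T : Equiv.Perm Γ := Equiv.addRight r
  have hT : ∀ v, T v = v + r := fun v => rfl
  have hpair : ∀ v w, (w = A v ∨ w = A.symm v) ↔ (w = v + p ∨ w = v + q) :=
    tw_pair K p q hp hq hK2 hpK hqK
  have hAv : ∀ v, A v = v + p ∨ A v = v + q := fun v => (hpair v _).1 (Or.inl rfl)
  have hAv' : ∀ v, A.symm v = v + p ∨ A.symm v = v + q := fun v => (hpair v _).1 (Or.inr rfl)
  have hAA : ∀ v, A v ≠ A.symm v := tw_ne K p q hp hq hK2 hpK hqK hpq
  have hA2 : ∀ v, (A ^ 2) v = v + (p + q) := tw_two K p q hp hq hK2 hpK hqK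
  have hper : ∀ v, (A ^ (2 + 2)) v = v := by
    intro v
    rw [pow_add, Equiv.Perm.mul_apply, hA2, hA2, add_assoc, hs0, add_zero]
  have hTT : ∀ v, T (T v) = v := fun v => by rw [hT, hT, add_assoc, hr, add_zero]
  have hAT : ∀ v, A (T v) = T (A v) := fun v => by
    rw [hT, hT]
    exact tw_add K p q hp hq hK2 hpK hqK v r hrK
  have hθA : ∀ v, kap Z (A v) = kap Z v := by
    intro v
    rcases hAv v with h | h
    · rw [h, kap_add_of_mem Z v p hpZ]
    · rw [h, kap_add_of_mem Z v q hqZ]
  have hAne : ∀ v, A v ≠ v := by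
    intro v h
    rcases hAv v with h1 | h1
    · rw [h1] at h
      exact hp0 (add_eq_left.1 h)
    · rw [h1] at h
      exact hq0 (add_eq_left.1 h)
  have hmem : ∀ v x, (x = v + p ∨ x = v + q) → x ≠ v ∧ x ≠ v + (p + q) ∧ x ≠ v + r := by
    rintro v x (rfl | rfl)
    · refine ⟨fun h => hp0 (add_eq_left.1 h), fun h => ?_, fun h => hpr (add_left_cancel h)⟩
      have h1 := add_left_cancel h
      exact hq0 (left_eq_add.1 h1)
    · refine ⟨fun h => hq0 (add_eq_left.1 h), fun h => ?_, fun h => hqr (add_left_cancel h)⟩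
      have h1 := add_left_cancel h
      exact hp0 (right_eq_add.1 h1)
  refine klein_all _ A T 2 ?_ ?_ ?_ hAT hTT even_two hper 0
    (fun M _ F => hsum_gen A T (2 + 2) (by norm_num) hper hAT hTT (kap Z)
      hθA (fun v => kap_add_not Z r hrZ hZ2 v r hrZ) ?_ ?_ 0 M F)
    (kap K) (tw_kap K p q hp hq hK2 hpK hqK) (fun v => kap_add_of_mem K v r hrK)
    (kap Z) hθA (fun v => kap_add_not Z r hrZ hZ2 v r hrZ)
  · intro v w
    rw [circ_adj3]
    refine and_congr_right fun hne => ?_
    constructor
    · rintro ⟨s, hs, hw⟩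
      have h3 : w = v + s := by
        rcases hw with hw | hw
        · exact hw
        · rcases hs with rfl | rfl | rfl | hs
          · rw [hw, sub_eq_add_neg, neg_eq_of_add_eq_zero_left hp]
          · rw [hw, sub_eq_add_neg, neg_eq_of_add_eq_zero_left hq]
          · rw [hw, sub_eq_add_neg, neg_eq_of_add_eq_zero_left hs0]
          · rw [Set.mem_singleton_iff] at hs
            subst hs
            rw [hw, sub_eq_add_neg, neg_eq_of_add_eq_zero_left hr]
      rcases hs with rfl | rfl | rfl | hs
      · rcases (hpair v w).2 (Or.inl h3) with h4 | h4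
        · exact ⟨(true, true), h4⟩
        · exact ⟨(true, false), h4⟩
      · rcases (hpair v w).2 (Or.inr h3) with h4 | h4
        · exact ⟨(true, true), h4⟩
        · exact ⟨(true, false), h4⟩
      · exact ⟨(false, true), by rw [h3]; exact (hA2 v).symm⟩
      · rw [Set.mem_singleton_iff] at hs
        subst hs
        exact ⟨(false, false), h3⟩
    · rintro ⟨⟨_ | _, _ | _⟩, h⟩
      · exact ⟨r, by simp, Or.inl h⟩
      · exact ⟨p + q, by simp, Or.inl (by rw [← hA2]; exact h)⟩
      · rcases (hpair v w).1 (Or.inr h) with h4 | h4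
        · exact ⟨p, by simp, Or.inl h4⟩
        · exact ⟨q, by simp, Or.inl h4⟩
      · rcases (hpair v w).1 (Or.inl h) with h4 | h4
        · exact ⟨p, by simp, Or.inl h4⟩
        · exact ⟨q, by simp, Or.inl h4⟩
  · intro v
    have f0 := hAA v
    have f1 := (hmem v _ (hAv v)).2.1
    have f2 := (hmem v _ (hAv v)).2.2
    have f3 := (hmem v _ (hAv' v)).2.1
    have f4 := (hmem v _ (hAv' v)).2.2
    have f5 : v + (p + q) ≠ v + r := fun h => hpqr (add_left_cancel h)
    rintro ⟨_ | _, _ | _⟩ ⟨_ | _, _ | _⟩ h <;> simp only [kdir, if_true, if_false, Bool.false_eq_true, hA2, hT] at h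
    all_goals first
      | rfl
      | exact absurd h (by assumption)
      | exact absurd h.symm (by assumption)
  · rintro v ⟨_ | _, _ | _⟩ h
    · exact hr0 (add_eq_left.1 (show v + r = v from h))
    · exact hpq0 (add_eq_left.1 (show v + (p + q) = v from by rw [← hA2]; exact h))
    · exact (hmem v _ (hAv' v)).1 h
    · exact hAne v h
  · intro j hj hjn v h
    have hj3 : j = 1 ∨ j = 2 ∨ j = 3 := by omega
    rcases hj3 with rfl | rfl | rfl
    · rw [pow_one] at h
      exact hAne v h
    · rw [hA2] at h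
      exact hpq0 (add_eq_left.1 h)
    · have h1 := hper v
      rw [show (2 + 2 : ℕ) = 3 + 1 from rfl, pow_succ_app, h] at h1
      exact hAne v h1
  · intro W hWA hWT x y
    refine const_of_inv {p, q, r} hgen W ?_ x y
    rintro s (rfl | rfl | hs) v
    · exact (tw_W K s q hp hq hK2 hpK hqK W hWA v).1
    · exact (tw_W K p s hp hq hK2 hpK hqK W hWA v).2
    · rw [Set.mem_singleton_iff] at hs
      subst hs
      exact hWT v

end

end Pool.Agent.K4H93.CY
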