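import Pool.Agent.K4H93.CY.TorN
set_option autoImplicit false

/-! 4-regular Cayley graphs of abelian groups: all connection sets. -/

namespace Pool.Agent.K4H93.CY

open Finset Pool.Agent.W426.LE

section

variable {Γ : Type} [AddCommGroup Γ]

theorem circ_congr (S S' : Set Γ) (h1 : ∀ s ∈ S, s = 0 ∨ s ∈ S' ∨ -s ∈ S')
    (h2 : ∀ s ∈ S', s = 0 ∨ s ∈ S ∨ -s ∈ S) :
    SimpleGraph.circulantGraph S = SimpleGraph.circulantGraph S' := by
  have key : ∀ S S' : Set Γ, (∀ s ∈ S, s = 0 ∨ s ∈ S' ∨ -s ∈ S') → ∀ v w,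
      (SimpleGraph.circulantGraph S).Adj v w → (SimpleGraph.circulantGraph S').Adj v w := by
    intro S S' h v w hvw
    rw [circ_adj3] at hvw ⊢
    obtain ⟨hne, s, hs, hw⟩ := hvw
    refine ⟨hne, ?_⟩
    rcases h s hs with h3 | h3 | h3
    · exfalso
      rw [h3, add_zero, sub_zero] at hw
      rcases hw with hw | hw
      · exact hne hw.symm
      · exact hne hw.symm
    · exact ⟨s, h3, hw⟩
    · refine ⟨-s, h3, ?_⟩
      rcases hw with hw | hw
      · right; rw [hw]; abel
      · left; rw [hw]; abel
  ext v w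
  exact ⟨key S S' h1 v w, key S' S h2 v w⟩

theorem res_congr (S S' : Set Γ) (h1 : ∀ s ∈ S, s = 0 ∨ s ∈ S' ∨ -s ∈ S')
    (h2 : ∀ s ∈ S', s = 0 ∨ s ∈ S ∨ -s ∈ S) (h : Res S') : Res S := by
  unfold Res at h ⊢
  rw [circ_congr S S' h1 h2]
  exact h

theorem closure_top (S S' : Set Γ) (h : AddSubgroup.closure S = ⊤)
    (h1 : ∀ s ∈ S, s ∈ AddSubgroup.closure S') : AddSubgroup.closure S' = ⊤ := by
  rw [eq_top_iff, ← h, AddSubgroup.closure_le]
  exact h1

/-- one involution is an even multiple of the other generator -/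
theorem exc_wrap [Finite Γ] (a t u : Γ) (ha : a ≠ -a) (ht : t + t = 0) (hu : u + u = 0)
    (ht0 : t ≠ 0) (hu0 : u ≠ 0) (htu : t ≠ u) (hgen : AddSubgroup.closure {a, t, u} = ⊤)
    (c : ℤ) (hc : (c + c) • a = t) :
    ATC (SimpleGraph.circulantGraph {a, t, u}) 4 ∧ SameSign (SimpleGraph.circulantGraph {a, t, u}) 4 := by
  obtain ⟨s, hs⟩ := exists_nat_smul a c
  have hst : (s + s) • a = t := by
    rw [add_nsmul, hs, ← add_smul]
    exact hc
  have h4 : addOrderOf a ∣ (s + s) + (s + s) := by
    apply addOrderOf_dvd_of_nsmul_eq_zero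
    rw [add_nsmul, hst, ht]
  have h2 : ¬ addOrderOf a ∣ (s + s) := by
    intro h
    apply ht0
    rw [← hst]
    exact addOrderOf_dvd_iff_nsmul_eq_zero.1 h
  obtain ⟨q, hq⟩ := h4
  have hqodd : Odd q := by
    rw [← Nat.not_even_iff_odd]
    rintro ⟨k, rfl⟩
    apply h2
    refine ⟨k, ?_⟩
    have h5 : addOrderOf a * (k + k) = addOrderOf a * k + addOrderOf a * k := by ring
    omega
  obtain ⟨k, hk⟩ : 4 ∣ addOrderOf a := by
    have h5 : 4 ∣ addOrderOf a * q := ⟨s, by rw [← hq]; ring⟩
    refine Nat.Coprime.dvd_of_dvd_mul_right ?_ h5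
    have h6 : Nat.Coprime 2 q := Nat.coprime_two_left.2 hqodd
    exact Nat.Coprime.pow_left 2 h6
  have hsq : s + s = q * (2 * k) := by
    rw [hk] at hq
    have h5 : 4 * k * q = 2 * (q * (2 * k)) := by ring
    omega
  have hm2 : (2 * k) • a + (2 * k) • a = 0 := by
    rw [← add_nsmul]
    apply addOrderOf_dvd_iff_nsmul_eq_zero.1
    rw [hk]
    exact ⟨1, by ring⟩
  have hodd : ∀ n : ℕ, Odd n → (n * (2 * k)) • a = (2 * k) • a := by
    intro n hn
    rw [mul_nsmul', ← natCast_zsmul _ n]
    exact od_smul _ hm2 n (by exact_mod_cast hn)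
  have hev : ∀ n : ℕ, Even n → (n * (2 * k)) • a = 0 := by
    intro n hn
    rw [mul_nsmul', ← natCast_zsmul _ n]
    exact ev_smul _ hm2 n (by exact_mod_cast hn)
  have hma : (2 * k) • a = t := by
    rw [← hodd q hqodd, ← hsq, hst]
  refine exc_case a t u (2 * k) (even_two_mul k) (by rw [hk]; ring) hma ha ht hu ht0 hu0 htu ?_ hgen
  rintro ⟨z, hz⟩
  replace hz : z • a = u := hz
  obtain ⟨r, hr⟩ := exists_nat_smul a z
  rw [hz] at hr
  have h5 : addOrderOf a ∣ r + r := by
    apply addOrderOf_dvd_of_nsmul_eq_zero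
    rw [add_nsmul, hr, hu]
  rw [hk] at h5
  obtain ⟨n, hn⟩ := h5
  have hrn : r = n * (2 * k) := by
    have h6 : 4 * k * n = 2 * (n * (2 * k)) := by ring
    omega
  rcases Nat.even_or_odd n with h6 | h6
  · apply hu0
    rw [← hr, hrn, hev n h6]
  · apply htu
    rw [← hr, hrn, hodd n h6, hma]

/-- a generator and two involutions -/
theorem three_gen [Finite Γ] (a t u : Γ) (ha : a ≠ -a) (ht : t + t = 0) (hu : u + u = 0)
    (ht0 : t ≠ 0) (hu0 : u ≠ 0) (htu : t ≠ u) (hgen : AddSubgroup.closure {a, t, u} = ⊤) :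
    Res {a, t, u} := by
  have hrep : ∀ v : Γ, ∃ i j l : ℤ, i • a + j • t + l • u = v := fun v =>
    rep3 a t u v (by rw [hgen]; trivial)
  have hsum0 : (t + u) + (t + u) = 0 := by
    have h1 : (t + u) + (t + u) = (t + t) + (u + u) := by abel
    rw [h1, ht, hu, add_zero]
  let K : AddSubgroup Γ := AddSubgroup.closure {a + a, a + t, a + u}
  have k1 : a + a ∈ K := AddSubgroup.subset_closure (by simp)
  have k2 : a + t ∈ K := AddSubgroup.subset_closure (by simp)
  have k3 : a + u ∈ K := AddSubgroup.subset_closure (by simp)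
  by_cases haK : a ∈ K
  · right
    obtain ⟨x, y, z, hxyz⟩ := rep3 _ _ _ _ haK
    have hx : x • (a + a) + y • (a + t) + z • (a + u) = (2 * x + y + z) • a + y • t + z • u := by
      module
    rw [hx] at hxyz
    rcases Int.even_or_odd y with hy | hy <;> rcases Int.even_or_odd z with hz | hz
    · -- odd order
      rw [ev_smul t ht y hy, ev_smul u hu z hz, add_zero, add_zero] at hxyz
      have hD : Odd (2 * x + y + z - 1) := by
        obtain ⟨i, hi⟩ := hy
        obtain ⟨j, hj⟩ := hz
        exact ⟨x + i + j - 1, by omega⟩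
      have h1 : (2 * x + y + z - 1) • a = 0 := by rw [sub_smul, hxyz, one_smul, sub_self]
      refine tw_case a t u ha ht hu ht0 hu0 htu hgen (2 * x + y + z - 1).natAbs
        (Int.natAbs_odd.2 hD) (Or.inl ?_)
      rw [← natCast_zsmul]
      rcases Int.natAbs_eq (2 * x + y + z - 1) with h | h
      · rw [← h, h1]
      · have h5 : (((2 * x + y + z - 1).natAbs : ℕ) : ℤ) = -(2 * x + y + z - 1) := by omega
        rw [h5, neg_smul, h1, neg_zero]
    · -- an even multiple is `u`
      rw [ev_smul t ht y hy, od_smul u hu z hz, add_zero] at hxyz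
      have hE : ∃ c : ℤ, c + c = 1 - (2 * x + y + z) := by
        obtain ⟨i, hi⟩ := hy
        obtain ⟨j, hj⟩ := hz
        exact ⟨-(x + i + j), by omega⟩
      obtain ⟨c, hc⟩ := hE
      have h1 : (c + c) • a = u := by
        rw [hc, sub_smul, one_smul]
        exact sub_eq_of_eq_add' hxyz.symm
      have hg2 : AddSubgroup.closure {a, u, t} = ⊤ := closure_top _ _ hgen (by
        rintro s (rfl | rfl | hs)
        · exact AddSubgroup.subset_closure (by simp)
        · exact AddSubgroup.subset_closure (by simp)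
        · rw [Set.mem_singleton_iff] at hs
          subst hs
          exact AddSubgroup.subset_closure (by simp))
      have h2 := exc_wrap a u t ha hu ht hu0 ht0 htu.symm hg2 c h1
      have h3 : ({a, u, t} : Set Γ) = {a, t, u} := by
        ext s
        simp only [Set.mem_insert_iff, Set.mem_singleton_iff]
        tauto
      rwa [h3] at h2
    · -- an even multiple is `t`
      rw [od_smul t ht y hy, ev_smul u hu z hz, add_zero] at hxyz
      have hE : ∃ c : ℤ, c + c = 1 - (2 * x + y + z) := by
        obtain ⟨i, hi⟩ := hy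
        obtain ⟨j, hj⟩ := hz
        exact ⟨-(x + i + j), by omega⟩
      obtain ⟨c, hc⟩ := hE
      have h1 : (c + c) • a = t := by
        rw [hc, sub_smul, one_smul]
        exact sub_eq_of_eq_add' hxyz.symm
      exact exc_wrap a t u ha ht hu ht0 hu0 htu hgen c h1
    · -- an odd multiple is `t + u`
      rw [od_smul t ht y hy, od_smul u hu z hz, add_assoc] at hxyz
      have hD : Odd (1 - (2 * x + y + z)) := by
        obtain ⟨i, hi⟩ := hy
        obtain ⟨j, hj⟩ := hz
        exact ⟨-(x + i + j) - 1, by omega⟩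
      have h1 : (1 - (2 * x + y + z)) • a = t + u := by
        rw [sub_smul, one_smul]
        exact sub_eq_of_eq_add' hxyz.symm
      refine tw_case a t u ha ht hu ht0 hu0 htu hgen (1 - (2 * x + y + z)).natAbs
        (Int.natAbs_odd.2 hD) (Or.inr ?_)
      rw [← natCast_zsmul]
      rcases Int.natAbs_eq (1 - (2 * x + y + z)) with h | h
      · rw [← h, h1]
      · have h5 : (((1 - (2 * x + y + z)).natAbs : ℕ) : ℤ) = -(1 - (2 * x + y + z)) := by omega
        rw [h5, neg_smul, h1]
        exact neg_eq_of_add_eq_zero_left hsum0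
  · left
    refine bip_side {a, t, u} K a haK ?_ ?_
    · intro v
      obtain ⟨i, j, l, rfl⟩ := hrep v
      rcases Int.even_or_odd' (i - j - l) with ⟨k, hk | hk⟩
      · left
        have h5 : i • a + j • t + l • u = j • (a + t) + l • (a + u) + k • (a + a) := by
          have h6 : i = j + l + 2 * k := by omega
          rw [h6]
          module
        rw [h5]
        exact K.add_mem (K.add_mem (K.zsmul_mem k2 _) (K.zsmul_mem k3 _)) (K.zsmul_mem k1 _)
      · right
        have h5 : i • a + j • t + l • u - a = j • (a + t) + l • (a + u) + k • (a + a) := by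
          have h6 : i = j + l + 2 * k + 1 := by omega
          rw [h6]
          module
        rw [h5]
        exact K.add_mem (K.add_mem (K.zsmul_mem k2 _) (K.zsmul_mem k3 _)) (K.zsmul_mem k1 _)
    · rintro x (rfl | rfl | hx)
      · exact haK
      · intro hb
        have h5 := K.sub_mem k2 hb
        rw [add_sub_cancel_right] at h5
        exact haK h5
      · rw [Set.mem_singleton_iff] at hx
        subst hx
        intro hb
        have h5 := K.sub_mem k3 hb
        rw [add_sub_cancel_right] at h5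
        exact haK h5

theorem rep4 (x y z t v : Γ) (h : v ∈ AddSubgroup.closure ({x, y, z, t} : Set Γ)) :
    ∃ i j l n : ℤ, i • x + j • y + l • z + n • t = v := by
  induction h using AddSubgroup.closure_induction with
  | mem w hw =>
    rcases hw with rfl | rfl | rfl | hw
    · exact ⟨1, 0, 0, 0, by module⟩
    · exact ⟨0, 1, 0, 0, by module⟩
    · exact ⟨0, 0, 1, 0, by module⟩
    · rw [Set.mem_singleton_iff] at hw
      subst hw
      exact ⟨0, 0, 0, 1, by module⟩
  | zero => exact ⟨0, 0, 0, 0, by module⟩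
  | add u w _ _ hu hw =>
    obtain ⟨i, j, l, n, rfl⟩ := hu
    obtain ⟨i', j', l', n', rfl⟩ := hw
    exact ⟨i + i', j + j', l + l', n + n', by module⟩
  | neg u _ hu =>
    obtain ⟨i, j, l, n, rfl⟩ := hu
    exact ⟨-i, -j, -l, -n, by module⟩

/-- three of the four involutions are dependent -/
theorem four_wrap [Finite Γ] (p q r s : Γ) (hp : p + p = 0) (hq : q + q = 0)
    (hs : s + s = 0) (hp0 : p ≠ 0) (hq0 : q ≠ 0) (hs0 : s ≠ 0)
    (hpq : p ≠ q) (hps : p ≠ s) (hqs : q ≠ s) (hrs : r ≠ s) (hr : r = p + q) (S : Set Γ)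
    (hS : S = {p, q, r, s}) (hgen : AddSubgroup.closure S = ⊤) : Res S := by
  subst hr
  subst hS
  right
  refine four_case p q s hp hq hs hp0 hq0 hs0 hpq hps hqs hrs (closure_top _ _ hgen ?_)
  have h1 : p ∈ AddSubgroup.closure ({p, q, s} : Set Γ) := AddSubgroup.subset_closure (by simp)
  have h2 : q ∈ AddSubgroup.closure ({p, q, s} : Set Γ) := AddSubgroup.subset_closure (by simp)
  rintro x (rfl | rfl | rfl | hx)
  · exact h1
  · exact h2
  · exact AddSubgroup.add_mem _ h1 h2
  · rw [Set.mem_singleton_iff] at hx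
    subst hx
    exact AddSubgroup.subset_closure (by simp)

/-- four involutions -/
theorem four_gen [Finite Γ] (p q r s : Γ) (hp : p + p = 0) (hq : q + q = 0) (hr : r + r = 0)
    (hs : s + s = 0) (hp0 : p ≠ 0) (hq0 : q ≠ 0) (hr0 : r ≠ 0) (hs0 : s ≠ 0)
    (hpq : p ≠ q) (hpr : p ≠ r) (hps : p ≠ s) (hqr : q ≠ r) (hqs : q ≠ s) (hrs : r ≠ s)
    (hgen : AddSubgroup.closure {p, q, r, s} = ⊤) : Res {p, q, r, s} := by
  have hrep : ∀ v : Γ, ∃ i j l n : ℤ, i • p + j • q + l • r + n • s = v := fun v =>
    rep4 p q r s v (by rw [hgen]; trivial)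
  let K : AddSubgroup Γ := AddSubgroup.closure {p + q, p + r, p + s}
  have k1 : p + q ∈ K := AddSubgroup.subset_closure (by simp)
  have k2 : p + r ∈ K := AddSubgroup.subset_closure (by simp)
  have k3 : p + s ∈ K := AddSubgroup.subset_closure (by simp)
  by_cases hpK : p ∈ K
  · obtain ⟨x, y, z, hxyz⟩ := rep3 _ _ _ _ hpK
    have hx : x • (p + q) + y • (p + r) + z • (p + s) = (x + y + z) • p + x • q + y • r + z • s := by
      module
    rw [hx] at hxyz
    rcases Int.even_or_odd x with hx | hx <;> rcases Int.even_or_odd y with hy | hy <;>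
      rcases Int.even_or_odd z with hz | hz
    · rw [ev_smul p hp _ ((hx.add hy).add hz), ev_smul q hq x hx, ev_smul r hr y hy,
        ev_smul s hs z hz] at hxyz
      exact absurd (by rw [← hxyz]; abel) hp0
    · rw [od_smul p hp _ ((hx.add hy).add_odd hz), ev_smul q hq x hx, ev_smul r hr y hy,
        od_smul s hs z hz, add_zero, add_zero] at hxyz
      exact absurd (add_eq_left.1 hxyz) hs0
    · rw [od_smul p hp _ ((hx.add_odd hy).add_even hz), ev_smul q hq x hx, od_smul r hr y hy,
        ev_smul s hs z hz, add_zero, add_zero] at hxyz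
      exact absurd (add_eq_left.1 hxyz) hr0
    · rw [ev_smul p hp _ ((hx.add_odd hy).add_odd hz), ev_smul q hq x hx, od_smul r hr y hy,
        od_smul s hs z hz, add_zero, zero_add] at hxyz
      refine four_wrap r s p q hr hs hq hr0 hs0 hq0 hrs hqr.symm hqs.symm hpq hxyz.symm _ ?_ hgen
      ext w
      simp only [Set.mem_insert_iff, Set.mem_singleton_iff]
      tauto
    · rw [od_smul p hp _ ((hx.add_even hy).add_even hz), od_smul q hq x hx, ev_smul r hr y hy,
        ev_smul s hs z hz, add_zero, add_zero] at hxyz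
      exact absurd (add_eq_left.1 hxyz) hq0
    · rw [ev_smul p hp _ ((hx.add_even hy).add_odd hz), od_smul q hq x hx, ev_smul r hr y hy,
        od_smul s hs z hz, add_zero, zero_add] at hxyz
      refine four_wrap q s p r hq hs hr hq0 hs0 hr0 hqs hqr hrs.symm hpr hxyz.symm _ ?_ hgen
      ext w
      simp only [Set.mem_insert_iff, Set.mem_singleton_iff]
      tauto
    · rw [ev_smul p hp _ ((hx.add_odd hy).add hz), od_smul q hq x hx, od_smul r hr y hy,
        ev_smul s hs z hz, add_zero, zero_add] at hxyz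
      refine four_wrap q r p s hq hr hs hq0 hr0 hs0 hqr hqs hrs hps hxyz.symm _ ?_ hgen
      ext w
      simp only [Set.mem_insert_iff, Set.mem_singleton_iff]
      tauto
    · rw [od_smul p hp _ ((hx.add_odd hy).add_odd hz), od_smul q hq x hx, od_smul r hr y hy,
        od_smul s hs z hz] at hxyz
      have h1 : q = r + s := by
        have h2 : p + (q + (r + s)) = p := by
          rw [← add_assoc, ← add_assoc]
          exact hxyz
        have h3 : (r + s) + (r + s) = 0 := by
          have h4 : (r + s) + (r + s) = (r + r) + (s + s) := by abel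
          rw [h4, hr, hs, add_zero]
        rw [eq_neg_of_add_eq_zero_left (add_eq_left.1 h2), neg_eq_of_add_eq_zero_left h3]
      refine four_wrap r s q p hr hs hp hr0 hs0 hp0 hrs hpr.symm hps.symm hpq.symm h1 _ ?_ hgen
      ext w
      simp only [Set.mem_insert_iff, Set.mem_singleton_iff]
      tauto
  · left
    refine bip_side {p, q, r, s} K p hpK ?_ ?_
    · intro v
      obtain ⟨i, j, l, n, rfl⟩ := hrep v
      have h5 : i • p + j • q + l • r + n • s = j • (p + q) + l • (p + r) + n • (p + s) +
          (i - j - l - n) • p := by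
        module
      have h6 : j • (p + q) + l • (p + r) + n • (p + s) ∈ K :=
        K.add_mem (K.add_mem (K.zsmul_mem k1 _) (K.zsmul_mem k2 _)) (K.zsmul_mem k3 _)
      rcases Int.even_or_odd (i - j - l - n) with hk | hk
      · left
        rw [h5, ev_smul p hp _ hk, add_zero]
        exact h6
      · right
        rw [h5, od_smul p hp _ hk, add_sub_cancel_right]
        exact h6
    · rintro x (rfl | rfl | rfl | hx)
      · exact hpK
      · intro hb
        have h5 := K.sub_mem k1 hb
        rw [add_sub_cancel_right] at h5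
        exact hpK h5
      · intro hb
        have h5 := K.sub_mem k2 hb
        rw [add_sub_cancel_right] at h5
        exact hpK h5
      · rw [Set.mem_singleton_iff] at hx
        subst hx
        intro hb
        have h5 := K.sub_mem k3 hb
        rw [add_sub_cancel_right] at h5
        exact hpK h5

end

end Pool.Agent.K4H93.CY
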