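import Pool.Agent.K4H93.CY.TorO
set_option autoImplicit false

/-! 4-regular Cayley graphs of abelian groups: the main theorem. -/

namespace Pool.Agent.K4H93.CY

open Finset Pool.Agent.W426.LE

section

variable {Γ : Type} [AddCommGroup Γ]

theorem neg_of_two (t : Γ) (h : -t = t) : t + t = 0 := by
  have h1 : t + -t = 0 := add_neg_cancel t
  rwa [h] at h1

theorem gen_main [Finite Γ] (S : Set Γ) (hgen : AddSubgroup.closure S = ⊤)
    (heven : Even (Nat.card Γ))
    (hdeg : ((SimpleGraph.circulantGraph S).neighborSet 0).ncard = 4) : Res S := by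
  classical
  let T : Set Γ := (SimpleGraph.circulantGraph S).neighborSet 0
  have hT : ∀ x, x ∈ T ↔ x ≠ 0 ∧ (x ∈ S ∨ -x ∈ S) := by
    intro x
    show (SimpleGraph.circulantGraph S).Adj 0 x ↔ _
    rw [circ_adj3]
    constructor
    · rintro ⟨h1, s, hs, h2⟩
      refine ⟨h1.symm, ?_⟩
      rcases h2 with rfl | rfl
      · left; rwa [zero_add]
      · right; rwa [zero_sub, neg_neg]
    · rintro ⟨h1, h2⟩
      refine ⟨h1.symm, ?_⟩
      rcases h2 with h2 | h2
      · exact ⟨x, h2, Or.inl (zero_add x).symm⟩
      · exact ⟨-x, h2, Or.inr (by rw [zero_sub, neg_neg])⟩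
  have hneg : ∀ x ∈ T, -x ∈ T := by
    intro x hx
    rw [hT] at hx ⊢
    refine ⟨neg_ne_zero.2 hx.1, ?_⟩
    rw [neg_neg]
    exact hx.2.symm
  have h0 : (0 : Γ) ∉ T := fun h => ((hT 0).1 h).1 rfl
  have hT4 : T.ncard = 4 := hdeg
  have hgT : AddSubgroup.closure T = ⊤ := closure_top S T hgen (by
    intro s hs
    by_cases h : s = 0
    · rw [h]; exact AddSubgroup.zero_mem _
    · exact AddSubgroup.subset_closure ((hT s).2 ⟨h, Or.inl hs⟩))
  -- reduction to T
  have hres : Res T → Res S := by
    refine res_congr S T ?_ ?_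
    · intro s hs
      by_cases h : s = 0
      · exact Or.inl h
      · exact Or.inr (Or.inl ((hT s).2 ⟨h, Or.inl hs⟩))
    · intro s hs
      exact Or.inr ((hT s).1 hs).2
  apply hres
  clear hres
  -- classification
  by_cases hinv : ∃ a ∈ T, a ≠ -a
  · obtain ⟨a, haT, ha⟩ := hinv
    have hsub : ({a, -a} : Set Γ) ⊆ T := by
      rintro x (rfl | hx)
      · exact haT
      · rw [Set.mem_singleton_iff] at hx
        rw [hx]
        exact hneg _ haT
    have h2 : (T \ {a, -a}).ncard = 2 := by
      rw [Set.ncard_sdiff hsub, hT4, Set.ncard_pair ha]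
    obtain ⟨b, c, hbc, hset⟩ := Set.ncard_eq_two.1 h2
    have hmem : ∀ x, x ∈ T ∧ x ≠ a ∧ x ≠ -a ↔ x = b ∨ x = c := by
      intro x
      have h3 : x ∈ T \ {a, -a} ↔ x ∈ ({b, c} : Set Γ) := by rw [hset]
      rw [Set.mem_sdiff, Set.mem_insert_iff, Set.mem_insert_iff, Set.mem_singleton_iff,
        Set.mem_singleton_iff, not_or] at h3
      exact h3
    have hTset : T = {a, -a, b, c} := by
      ext x
      rw [Set.mem_insert_iff, Set.mem_insert_iff, Set.mem_insert_iff, Set.mem_singleton_iff]
      constructor
      · intro hx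
        by_cases h3 : x = a
        · exact Or.inl h3
        · by_cases h4 : x = -a
          · exact Or.inr (Or.inl h4)
          · exact Or.inr (Or.inr ((hmem x).1 ⟨hx, h3, h4⟩))
      · rintro (h3 | h3 | h3 | h3)
        · rw [h3]; exact haT
        · rw [h3]; exact hneg _ haT
        · exact ((hmem x).2 (Or.inl h3)).1
        · exact ((hmem x).2 (Or.inr h3)).1
    have hb := (hmem b).2 (Or.inl rfl)
    have hc := (hmem c).2 (Or.inr rfl)
    have hnb : -b = b ∨ -b = c := by
      refine (hmem (-b)).1 ⟨hneg _ hb.1, fun h => hb.2.2 ?_, fun h => hb.2.1 (neg_injective h)⟩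
      rw [← h, neg_neg]
    have hnc : -c = b ∨ -c = c := by
      refine (hmem (-c)).1 ⟨hneg _ hc.1, fun h => hc.2.2 ?_, fun h => hc.2.1 (neg_injective h)⟩
      rw [← h, neg_neg]
    rcases hnb with hnb | hnb
    · have hnc' : -c = c := by
        rcases hnc with h3 | h3
        · exfalso
          apply hbc
          rw [← hnb, ← h3, neg_neg]
        · exact h3
      have e0 : b ≠ 0 := fun h => h0 (h ▸ hb.1)
      have e1 : c ≠ 0 := fun h => h0 (h ▸ hc.1)
      have h5 := three_gen a b c ha (neg_of_two b hnb) (neg_of_two c hnc') e0 e1 hbc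
        (closure_top T _ hgT (by
          intro s hs
          rw [hTset] at hs
          have ha' : a ∈ AddSubgroup.closure ({a, b, c} : Set Γ) :=
            AddSubgroup.subset_closure (by simp)
          rcases hs with rfl | rfl | rfl | hs
          · exact ha'
          · exact AddSubgroup.neg_mem _ ha'
          · exact AddSubgroup.subset_closure (by simp)
          · rw [Set.mem_singleton_iff] at hs
            subst hs
            exact AddSubgroup.subset_closure (by simp)))
      refine res_congr T {a, b, c} ?_ ?_ h5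
      · intro s hs
        rw [hTset] at hs
        rcases hs with rfl | rfl | rfl | hs
        · right; left; simp
        · right; right; simp
        · right; left; simp
        · rw [Set.mem_singleton_iff] at hs
          subst hs
          right; left; simp
      · intro s hs
        rw [hTset]
        rcases hs with rfl | rfl | hs
        · right; left; simp
        · right; left; simp
        · rw [Set.mem_singleton_iff] at hs
          subst hs
          right; left; simp
    · have e0 : b ≠ -b := fun h => hbc (by rw [← hnb, ← h])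
      have h5 := two_gen a b (closure_top T _ hgT (by
          intro s hs
          rw [hTset] at hs
          have ha' : a ∈ AddSubgroup.closure ({a, b} : Set Γ) :=
            AddSubgroup.subset_closure (by simp)
          have hb' : b ∈ AddSubgroup.closure ({a, b} : Set Γ) :=
            AddSubgroup.subset_closure (by simp)
          rcases hs with rfl | rfl | rfl | hs
          · exact ha'
          · exact AddSubgroup.neg_mem _ ha'
          · exact hb'
          · rw [Set.mem_singleton_iff] at hs
            rw [hs, ← hnb]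
            exact AddSubgroup.neg_mem _ hb')) heven ha e0 hb.2.1.symm
        (fun h => hc.2.1 (by rw [← hnb, ← h]))
      refine res_congr T {a, b} ?_ ?_ h5
      · intro s hs
        rw [hTset] at hs
        rcases hs with rfl | rfl | rfl | hs
        · right; left; simp
        · right; right; simp
        · right; left; simp
        · rw [Set.mem_singleton_iff] at hs
          right; right
          rw [hs, ← hnb, neg_neg]
          simp
      · intro s hs
        rw [hTset]
        rcases hs with rfl | hs
        · right; left; simp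
        · rw [Set.mem_singleton_iff] at hs
          subst hs
          right; left; simp
  · push Not at hinv
    have hord : ∀ x ∈ T, x + x = 0 := fun x hx => neg_of_two x (hinv x hx).symm
    have hne : T.Nonempty := by
      rw [← Set.ncard_pos, hT4]
      norm_num
    obtain ⟨p, hpT⟩ := hne
    have h3 : (T \ {p}).ncard = 3 := by
      rw [Set.ncard_sdiff_singleton_of_mem hpT, hT4]
    obtain ⟨q, r, s, hqr, hqs, hrs, hset⟩ := Set.ncard_eq_three.1 h3
    have hmem : ∀ x, x ∈ T ∧ x ≠ p ↔ x = q ∨ x = r ∨ x = s := by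
      intro x
      have h3 : x ∈ T \ {p} ↔ x ∈ ({q, r, s} : Set Γ) := by rw [hset]
      rw [Set.mem_sdiff, Set.mem_singleton_iff, Set.mem_insert_iff, Set.mem_insert_iff,
        Set.mem_singleton_iff] at h3
      exact h3
    have hTset : T = {p, q, r, s} := by
      ext x
      rw [Set.mem_insert_iff, Set.mem_insert_iff, Set.mem_insert_iff, Set.mem_singleton_iff]
      constructor
      · intro hx
        by_cases h3 : x = p
        · exact Or.inl h3
        · exact Or.inr ((hmem x).1 ⟨hx, h3⟩)
      · rintro (h3 | h3)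
        · rw [h3]; exact hpT
        · exact ((hmem x).2 h3).1
    have hq := (hmem q).2 (Or.inl rfl)
    have hr := (hmem r).2 (Or.inr (Or.inl rfl))
    have hs := (hmem s).2 (Or.inr (Or.inr rfl))
    have e0 : ∀ x ∈ T, x ≠ 0 := fun x hx h => h0 (h ▸ hx)
    rw [hTset] at hgT ⊢
    exact four_gen p q r s (hord _ hpT) (hord _ hq.1) (hord _ hr.1) (hord _ hs.1) (e0 _ hpT)
      (e0 _ hq.1) (e0 _ hr.1) (e0 _ hs.1) hq.2.symm hr.2.symm hs.2.symm hqr hqs hrs hgT

/-- the list colouring theorem for all connection sets -/
theorem cayley_EL [Finite Γ] (S : Set Γ)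
    (hdeg : ∀ v, ((SimpleGraph.circulantGraph S).neighborSet v).ncard = 4)
    (heven : Even (Nat.card (AddSubgroup.closure S))) : EL.EL (SimpleGraph.circulantGraph S) 4 := by
  classical
  let H : AddSubgroup Γ := AddSubgroup.closure S
  have hSH : S ⊆ H := AddSubgroup.subset_closure
  refine cayley_comp S H hSH 4 ?_
  let S' : Set H := (fun x : H => (x : Γ)) ⁻¹' S
  have hgen : AddSubgroup.closure S' = ⊤ := by
    have h1 := AddSubgroup.closure_closure_coe_preimage (k := S)
    exact h1
  have hdeg' : ∀ v : H, ((SimpleGraph.circulantGraph S').neighborSet v).ncard = 4 := by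
    intro v
    rw [← hdeg (v : Γ), ← Set.ncard_image_of_injective _ (Subtype.val_injective (p := fun x => x ∈ H))]
    congr 1
    ext w
    constructor
    · rintro ⟨w, hw, rfl⟩
      rw [SimpleGraph.mem_neighborSet, circ_adj3] at hw ⊢
      obtain ⟨h1, s, hs, h2⟩ := hw
      refine ⟨fun h => h1 (Subtype.ext h), (s : Γ), hs, ?_⟩
      rcases h2 with h2 | h2
      · left; rw [h2]; rfl
      · right; rw [h2]; rfl
    · intro hw
      rw [SimpleGraph.mem_neighborSet, circ_adj3] at hw
      obtain ⟨h1, s, hs, h2⟩ := hw
      have hsH : s ∈ H := hSH hs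
      have hwH : w ∈ H := by
        rcases h2 with h2 | h2
        · rw [h2]; exact H.add_mem v.2 hsH
        · rw [h2]; exact H.sub_mem v.2 hsH
      refine ⟨⟨w, hwH⟩, ?_, rfl⟩
      rw [SimpleGraph.mem_neighborSet, circ_adj3]
      refine ⟨fun h => h1 (congrArg Subtype.val h), ⟨s, hsH⟩, hs, ?_⟩
      rcases h2 with h2 | h2
      · left; exact Subtype.ext h2
      · right; exact Subtype.ext h2
  rcases gen_main S' hgen heven (hdeg' 0) with ⟨side, h⟩ | ⟨h, -⟩
  · exact bip_EL _ side h 4 (fun v => (hdeg' v).le)
  · exact EL_of_ATC _ h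

/-- a 4-edge-colouring gives a fixed point free involution of every component -/
theorem even_of_colorable [Finite Γ] (S : Set Γ)
    (hdeg : ∀ v, ((SimpleGraph.circulantGraph S).neighborSet v).ncard = 4)
    (hcol : (SimpleGraph.circulantGraph S).lineGraph.Colorable 4) :
    Even (Nat.card (AddSubgroup.closure S)) := by
  classical
  obtain ⟨col⟩ := hcol
  let G := SimpleGraph.circulantGraph S
  have hex : ∀ v, ∃ w : G.neighborSet v, col ⟨s(v, (w : Γ)), w.2⟩ = 0 := by
    intro v
    let f : G.neighborSet v → Fin 4 := fun w => col ⟨s(v, (w : Γ)), w.2⟩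
    have hinj : Function.Injective f := by
      intro w w' hww
      by_contra hne
      refine col.valid ?_ hww
      rw [SimpleGraph.lineGraph_adj_iff_exists]
      refine ⟨fun he => hne ?_, v, Sym2.mem_mk_left _ _, Sym2.mem_mk_left _ _⟩
      have h1 : s(v, (w : Γ)) = s(v, (w' : Γ)) := congrArg Subtype.val he
      exact Subtype.ext (Sym2.congr_right.1 h1)
    have hcard : Nat.card (G.neighborSet v) = Nat.card (Fin 4) := by
      rw [Nat.card_eq_fintype_card (α := Fin 4), Fintype.card_fin]
      exact hdeg v
    have hbij := (Nat.bijective_iff_injective_and_card f).2 ⟨hinj, hcard⟩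
    exact hbij.2 0
  choose f hf using hex
  have huniq : ∀ v (w : Γ) (h : G.Adj v w), col ⟨s(v, w), h⟩ = 0 → w = f v := by
    intro v w h h0
    by_contra hne
    refine col.valid (v := ⟨s(v, w), h⟩) (w := ⟨s(v, (f v : Γ)), (f v).2⟩) ?_ (h0.trans (hf v).symm)
    rw [SimpleGraph.lineGraph_adj_iff_exists]
    refine ⟨fun he => hne ?_, v, Sym2.mem_mk_left _ _, Sym2.mem_mk_left _ _⟩
    have h1 : s(v, w) = s(v, (f v : Γ)) := congrArg Subtype.val he
    exact Sym2.congr_right.1 h1
  have hff : ∀ v, ((f (f v : Γ)) : Γ) = v := by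
    intro v
    symm
    have hadj : G.Adj v (f v : Γ) := (f v).2
    refine huniq (f v : Γ) v hadj.symm ?_
    have h1 : (⟨s((f v : Γ), v), hadj.symm⟩ : G.edgeSet) = ⟨s(v, (f v : Γ)), (f v).2⟩ :=
      Subtype.ext Sym2.eq_swap
    rw [h1]
    exact hf v
  have hne : ∀ v, (f v : Γ) ≠ v := fun v h => G.ne_of_adj (f v).2 h.symm
  have hH : ∀ v, v ∈ AddSubgroup.closure S → (f v : Γ) ∈ AddSubgroup.closure S := by
    intro v hv
    have h1 := (f v).2
    rw [SimpleGraph.mem_neighborSet] at h1
    rw [circ_adj3] at h1
    obtain ⟨-, s, hs, h2⟩ := h1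
    have hs' := AddSubgroup.subset_closure (G := Γ) hs
    rcases h2 with h2 | h2
    · rw [h2]; exact AddSubgroup.add_mem _ hv hs'
    · rw [h2]; exact AddSubgroup.sub_mem _ hv hs'
  let _ : Fintype (AddSubgroup.closure S) := Fintype.ofFinite _
  have hsum : ∑ _v : AddSubgroup.closure S, (1 : ZMod 2) = 0 := by
    refine Finset.sum_involution (fun v _ => ⟨(f (v : Γ) : Γ), hH v v.2⟩) ?_ ?_ ?_ ?_
    · intro v _
      rfl
    · intro v _ _ h
      exact hne (v : Γ) (congrArg Subtype.val h)
    · intro v _
      exact Finset.mem_univ _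
    · intro v _
      exact Subtype.ext (hff v)
  rw [Finset.sum_const, card_univ, nsmul_eq_mul, mul_one, ← Nat.card_eq_fintype_card] at hsum
  rw [even_iff_two_dvd]
  exact (ZMod.natCast_eq_zero_iff _ 2).1 hsum

end

end Pool.Agent.K4H93.CY
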