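import Mathlib
set_option autoImplicit false

/-! Sums over cyclic sequences as traces of powers of transfer matrices. -/

namespace Pool.Agent.K4H93.CY

open Finset Matrix

section path
variable {σ R : Type} [Fintype σ] [DecidableEq σ] [CommRing R]

/-- the entries of a power as sums over paths -/
theorem pow_apply_eq (T : Matrix σ σ R) : ∀ (k : ℕ) (a b : σ),
    (T ^ (k + 1)) a b = ∑ v : Fin k → σ, ∏ j : Fin (k + 1),
      T (Fin.cons (α := fun _ => σ) a v j) (Fin.snoc (α := fun _ => σ) v b j) := by
  intro k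
  induction k with
  | zero =>
    intro a b
    show (T ^ 1) a b = _
    rw [pow_one, Fintype.sum_unique]
    simp [Fin.snoc]
  | succ k ih =>
    intro a b
    rw [pow_succ', Matrix.mul_apply]
    rw [← (Fin.consEquiv (fun _ : Fin (k + 1) => σ)).sum_comp, Fintype.sum_prod_type]
    refine Finset.sum_congr rfl fun c _ => ?_
    rw [ih, Finset.mul_sum]
    refine Finset.sum_congr rfl fun v _ => ?_
    rw [Fin.prod_univ_succ (n := k + 1)]
    have h1 : (Fin.snoc (α := fun _ => σ) (Fin.cons (α := fun _ => σ) c v) b : Fin (k + 2) → σ) =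
        Fin.cons (α := fun _ => σ) c (Fin.snoc (α := fun _ => σ) v b) :=
      (Fin.cons_snoc_eq_snoc_cons (β := σ) c v b).symm
    have h2 : (Fin.consEquiv (fun _ : Fin (k + 1) => σ)) (c, v) = Fin.cons (α := fun _ => σ) c v := rfl
    rw [h2, h1]
    simp only [Fin.cons_zero, Fin.cons_succ]

/-- the trace of a power as a sum over closed walks -/
theorem trace_pow_eq (T : Matrix σ σ R) (k : ℕ) :
    Matrix.trace (T ^ (k + 1)) = ∑ u : Fin (k + 1) → σ, ∏ j : Fin (k + 1), T (u j) (u (j + 1)) := by
  rw [← (Fin.consEquiv (fun _ : Fin (k + 1) => σ)).sum_comp, Fintype.sum_prod_type, Matrix.trace]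
  refine Finset.sum_congr rfl fun a _ => ?_
  rw [Matrix.diag_apply, pow_apply_eq]
  refine Finset.sum_congr rfl fun v _ => Finset.prod_congr rfl fun j _ => ?_
  have h2 : (Fin.consEquiv (fun _ : Fin (k + 1) => σ)) (a, v) = Fin.cons (α := fun _ => σ) a v := rfl
  rw [h2]
  congr 1
  induction j using Fin.lastCases with
  | last =>
    rw [Fin.snoc_last, Fin.last_add_one, Fin.cons_zero]
  | cast j =>
    rw [Fin.snoc_castSucc, Fin.coeSucc_eq_succ, Fin.cons_succ]

end path

section window

variable {S R : Type} [Fintype S] [DecidableEq S] [CommRing R] {m : ℕ}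

/-- the transfer matrix of a weight of windows of length `m + 1` -/
def transfer (w : (Fin (m + 1) → S) → R) : Matrix (Fin (m + 1) → S) (Fin (m + 1) → S) R :=
  fun u v => if ∀ i : Fin m, u i.succ = v i.castSucc then w u else 0

theorem sum_window (w : (Fin (m + 1) → S) → R) (n : ℕ) (hn : 1 ≤ n) [NeZero n] :
    ∑ x : ZMod n → S, ∏ j : ZMod n, w (fun i => x (j + ((i : ℕ) : ZMod n))) =
      Matrix.trace (transfer w ^ n) := by
  obtain ⟨k, rfl⟩ : ∃ k, n = k + 1 := ⟨n - 1, by omega⟩
  rw [trace_pow_eq]
  let Φ : (ZMod (k + 1) → S) → (ZMod (k + 1) → (Fin (m + 1) → S)) :=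
    fun x j i => x (j + ((i : ℕ) : ZMod (k + 1)))
  have hgoal : ∑ x : ZMod (k + 1) → S, ∏ j : ZMod (k + 1), w (fun i => x (j + ((i : ℕ) : ZMod (k + 1)))) =
      ∑ u : ZMod (k + 1) → (Fin (m + 1) → S), ∏ j : ZMod (k + 1), transfer w (u j) (u (j + 1)) := by
    refine Finset.sum_of_injOn Φ ?_ ?_ ?_ ?_
    · intro x _ y _ hxy
      funext j
      have h1 := congrFun (congrFun hxy j) 0
      simpa [Φ] using h1
    · intro x _
      simp
    · intro u _ hu
      by_contra hne
      apply hu
      have hc : ∀ j, ∀ i : Fin m, u j i.succ = u (j + 1) i.castSucc := by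
        intro j
        by_contra hj
        exact hne (Finset.prod_eq_zero (Finset.mem_univ j) (by
          unfold transfer
          rw [if_neg hj]))
      have hi : ∀ (i : ℕ) (hi : i < m + 1) (j : ZMod (k + 1)), u j ⟨i, hi⟩ = u (j + (i : ZMod (k + 1))) 0 := by
        intro i
        induction i with
        | zero =>
          intro _ j
          simp
        | succ i ih =>
          intro hi' j
          have h1 := hc j ⟨i, by omega⟩
          have h2 : (⟨i + 1, hi'⟩ : Fin (m + 1)) = Fin.succ ⟨i, by omega⟩ := rfl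
          rw [h2, h1]
          have h3 : (Fin.castSucc ⟨i, by omega⟩ : Fin (m + 1)) = ⟨i, by omega⟩ := rfl
          rw [h3, ih (by omega) (j + 1)]
          congr 1
          push_cast
          ring
      refine ⟨fun j => u j 0, by simp, ?_⟩
      funext j i
      exact (hi i.1 i.2 j).symm
    · intro x _
      refine Finset.prod_congr rfl fun j _ => ?_
      unfold transfer
      rw [if_pos]
      intro i
      show x (j + (((i.succ : Fin (m + 1)) : ℕ) : ZMod (k + 1))) =
        x (j + 1 + (((i.castSucc : Fin (m + 1)) : ℕ) : ZMod (k + 1)))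
      congr 1
      rw [Fin.val_succ, Fin.val_castSucc]
      push_cast
      ring
  exact hgoal

end window

end Pool.Agent.K4H93.CY
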